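import Mathlib

namespace Pool.Agent.H2.BlockSums

open Matrix

/-- At most one `1`, at most one `-1`, zeros elsewhere. -/
def Net {m : ℕ} (v : Fin m → ℤ) : Prop :=
  (∀ j, v j = 0 ∨ v j = 1 ∨ v j = -1) ∧ (∀ j k, v j = 1 → v k = 1 → j = k) ∧
    (∀ j k, v j = -1 → v k = -1 → j = k)

lemma net_sum {m : ℕ} (v : Fin m → ℤ) (h : Net v) (p q : Fin m) (hp : v p = 1) (hq : v q = -1) :
    ∑ j, v j = 0 := by
  have hne : p ≠ q := by rintro rfl; omega
  rw [Finset.sum_eq_add p q hne]
  · omega
  · intro c _ hc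
    rcases h.1 c with h1 | h1 | h1
    · exact h1
    · exact absurd (h.2.1 c p h1 hp) hc.1
    · exact absurd (h.2.2 c q h1 hq) hc.2
  · simp
  · simp

lemma tu : ∀ (m : ℕ) (M : Matrix (Fin m) (Fin m) ℤ), (∀ i, Net (M i)) → |M.det| ≤ 1
  | 0, M, _ => by simp
  | m + 1, M, h => by
    by_cases hc : ∃ i j0, ∀ j, j ≠ j0 → M i j = 0
    · obtain ⟨i, j0, hj⟩ := hc
      rw [Matrix.det_succ_row M i, Finset.sum_eq_single j0]
      · have h1 := tu m (M.submatrix i.succAbove j0.succAbove) (fun r =>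
          ⟨fun j => (h _).1 _, fun j k a b => Fin.succAbove_right_injective ((h _).2.1 _ _ a b),
            fun j k a b => Fin.succAbove_right_injective ((h _).2.2 _ _ a b)⟩)
        have h2 : |M i j0| ≤ 1 := by rcases (h i).1 j0 with e | e | e <;> simp [e]
        rw [abs_mul, abs_mul, abs_pow, abs_neg, abs_one, one_pow, one_mul]
        exact mul_le_one₀ h2 (abs_nonneg _) h1
      · intro j _ hne
        simp [hj j hne]
      · simp
    · push Not at hc
      have : M.det = 0 := by
        rw [← Matrix.exists_mulVec_eq_zero_iff]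
        refine ⟨fun _ => 1, fun e => by simpa using congrFun e 0, ?_⟩
        funext i
        obtain ⟨p, _, hp⟩ := hc i 0
        obtain ⟨q, hqp, hq⟩ := hc i p
        simp only [Matrix.mulVec, dotProduct, mul_one, Pi.zero_apply]
        rcases ((h i).1 p).resolve_left hp with e1 | e1 <;>
          rcases ((h i).1 q).resolve_left hq with e2 | e2
        · exact absurd ((h i).2.1 _ _ e2 e1) hqp
        · exact net_sum _ (h i) p q e1 e2
        · exact net_sum _ (h i) q p e2 e1
        · exact absurd ((h i).2.2 _ _ e2 e1) hqp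
      simp [this]

/-- Indicator vector of the block `[a, b)`. -/
def blk (n a b : ℕ) : Fin n → ℤ := fun t => if a ≤ t.val ∧ t.val < b then 1 else 0

def dl (n a b : ℕ) : Fin n → ℤ :=
  fun s => (if s.val = a then 1 else 0) - (if s.val = b then 1 else 0)

lemma net_dl (n a b : ℕ) : Net (dl n a b) := by
  refine ⟨fun j => ?_, fun j k h1 h2 => ?_, fun j k h1 h2 => ?_⟩
  · unfold dl; split_ifs <;> simp
  · unfold dl at h1 h2; apply Fin.ext; split_ifs at h1 h2 <;> omega
  · unfold dl at h1 h2; apply Fin.ext; split_ifs at h1 h2 <;> omega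

def L (n : ℕ) : Matrix (Fin n) (Fin n) ℤ := fun s t => if s.val ≤ t.val then 1 else 0

lemma detL (n : ℕ) : (L n).det = 1 := by
  rw [Matrix.det_of_isUpperTriangular]
  · simp [L]
  · intro i j hij
    have : j < i := hij
    simp only [L]
    rw [if_neg]
    exact not_le.2 this

lemma one_vec (n a : ℕ) (t : Fin n) :
    ∑ s : Fin n, (if s.val = a then (1 : ℤ) else 0) * L n s t = if a ≤ t.val then 1 else 0 := by
  by_cases h : a < n
  · rw [Finset.sum_eq_single ⟨a, h⟩]
    · simp [L]
    · intro c _ hc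
      rw [if_neg (fun e => hc (Fin.ext e)), zero_mul]
    · simp
  · rw [if_neg (by omega)]
    apply Finset.sum_eq_zero
    intro c _
    rw [if_neg (by omega), zero_mul]

lemma dl_mul (n a b : ℕ) (t : Fin n) : ∑ s, dl n a b s * L n s t
    = (if a ≤ t.val then 1 else 0) - (if b ≤ t.val then 1 else 0) := by
  simp only [dl, sub_mul, Finset.sum_sub_distrib, one_vec]

/-- The matrix of the equations, with a first row of ones. -/
def N (m : ℕ) (e : Fin m → ℕ × ℕ × ℕ × ℕ) : Matrix (Fin (m + 1)) (Fin (m + 1)) ℤ :=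
  Fin.cons (fun _ => 1)
    (fun r => blk (m + 1) (e r).1 (e r).2.1 - blk (m + 1) (e r).2.2.1 (e r).2.2.2)

lemma detN (m : ℕ) (e : Fin m → ℕ × ℕ × ℕ × ℕ)
    (he : ∀ r, (e r).1 ≤ (e r).2.1 ∧ (e r).2.2.1 ≤ (e r).2.2.2) : |(N m e).det| ≤ 2 ^ m := by
  let g : Fin (m + 1) → Bool → Fin (m + 1) → ℤ := Fin.cons (fun _ => dl (m + 1) 0 (m + 1))
    (fun r c => if c then dl (m + 1) (e r).1 (e r).2.1 else dl (m + 1) (e r).2.2.2 (e r).2.2.1)
  let A : Fin (m + 1) → Finset Bool := Fin.cons {true} (fun _ => Finset.univ)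
  let B : Matrix (Fin (m + 1)) (Fin (m + 1)) ℤ := fun i => ∑ c ∈ A i, g i c
  have hB : N m e = B * L (m + 1) := by
    ext i t
    refine Fin.cases ?_ (fun r => ?_) i
    · simp only [N, B, A, g, Matrix.mul_apply, Fin.cons_zero, Finset.sum_singleton, dl_mul]
      rw [if_pos (by omega), if_neg (by omega)]
      rfl
    · simp only [N, B, A, g, Matrix.mul_apply, Fin.cons_succ, Fintype.sum_bool, if_true,
        Pi.add_apply, add_mul, Finset.sum_add_distrib, Pi.sub_apply, blk, Bool.false_eq_true,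
        if_false, dl_mul]
      have := he r
      split_ifs <;> omega
  rw [hB, Matrix.det_mul, detL, mul_one]
  have h1 : B.det = ∑ r ∈ Fintype.piFinset A, (Matrix.of fun i => g i (r i)).det :=
    (Matrix.detRowAlternating (R := ℤ) (n := Fin (m + 1))).toMultilinearMap.map_sum_finset g A
  rw [h1]
  refine (Finset.abs_sum_le_sum_abs _ _).trans ?_
  refine (Finset.sum_le_card_nsmul _ _ 1 fun r _ => tu _ _ fun i => ?_).trans ?_
  · refine Fin.cases ?_ (fun j => ?_) i
    · exact net_dl _ _ _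
    · show Net (g j.succ (r j.succ))
      simp only [g, Fin.cons_succ]
      split_ifs <;> exact net_dl _ _ _
  · simp [Fintype.card_piFinset, A, Fin.prod_univ_succ]

/-- The real coefficient vector of the equation equating the blocks `[i, j)` and `[k, l)`. -/
def eqn (n : ℕ) (e : ℕ × ℕ × ℕ × ℕ) : Fin n → ℝ := fun t =>
  (if e.1 ≤ t.val ∧ t.val < e.2.1 then 1 else 0) -
    (if e.2.2.1 ≤ t.val ∧ t.val < e.2.2.2 then 1 else 0)

theorem main (m : ℕ) (e : Fin m → ℕ × ℕ × ℕ × ℕ)
    (he : ∀ r, (e r).1 ≤ (e r).2.1 ∧ (e r).2.2.1 ≤ (e r).2.2.2)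
    (hli : LinearIndependent ℝ (fun r => eqn (m + 1) (e r))) (d : Fin (m + 1) → ℝ)
    (hd : ∀ i, 0 < d i) (hs : ∀ r, ∑ t, eqn (m + 1) (e r) t * d t = 0) (i : Fin (m + 1)) :
    ∑ j, d j ≤ 2 ^ m * d i := by
  have hS : 0 < ∑ j, d j := Finset.sum_pos (fun j _ => hd j) Finset.univ_nonempty
  let M : Matrix (Fin (m + 1)) (Fin (m + 1)) ℝ := (N m e).map (Int.castRingHom ℝ)
  have hM : M = Fin.cons (fun _ => 1) (fun r => eqn (m + 1) (e r)) := by
    ext r t
    refine Fin.cases ?_ (fun r => ?_) r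
    · simp [M, N]
    · simp [M, N, blk, eqn]
  have hli2 : LinearIndependent ℝ M.row := by
    change LinearIndependent ℝ (M : Fin (m + 1) → Fin (m + 1) → ℝ)
    rw [hM, linearIndependent_finCons]
    refine ⟨hli, fun hmem => ?_⟩
    have : ∀ v ∈ Submodule.span ℝ (Set.range fun r => eqn (m + 1) (e r)), ∑ t, v t * d t = 0 := by
      intro v hv
      induction hv using Submodule.span_induction with
      | mem x hx => obtain ⟨r, rfl⟩ := hx; exact hs r
      | zero => simp
      | add x y _ _ hx hy => simp [add_mul, Finset.sum_add_distrib, hx, hy]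
      | smul a x _ hx => simp [mul_assoc, ← Finset.mul_sum, hx]
    have := this _ hmem
    simp at this
    linarith
  have hdet : M.det ≠ 0 := by
    have := Matrix.linearIndependent_rows_iff_isUnit.1 hli2
    exact ((Matrix.isUnit_iff_isUnit_det M).1 this).ne_zero
  have hMd : M *ᵥ d = Pi.single 0 (∑ j, d j) := by
    funext r
    rw [hM]
    refine Fin.cases ?_ (fun r => ?_) r
    · simp [Matrix.mulVec, dotProduct]
    · simp [Matrix.mulVec, dotProduct, hs r]
  have h1 : M.det * d i = M.adjugate i 0 * ∑ j, d j := by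
    have := congrFun (congrArg (fun v => M.adjugate *ᵥ v) hMd) i
    simp only [Matrix.mulVec_mulVec, Matrix.adjugate_mul] at this
    simpa [Matrix.smul_mulVec, mul_comm] using this
  have h2 : M.det = ((N m e).det : ℝ) := ((Int.castRingHom ℝ).map_det (N m e)).symm
  have h3 : M.adjugate i 0 = ((N m e).adjugate i 0 : ℝ) := by
    have := (Int.castRingHom ℝ).map_adjugate (N m e)
    exact (congrFun (congrFun this i) 0).symm
  have h4 : (N m e).adjugate i 0 ≠ 0 := by
    intro h0
    rw [h3, h0] at h1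
    simp only [Int.cast_zero, zero_mul] at h1
    exact mul_ne_zero hdet (hd i).ne' h1
  have h5 : (1 : ℝ) ≤ |M.adjugate i 0| := by
    rw [h3]
    exact_mod_cast Int.one_le_abs h4
  have h6 : |M.det| ≤ 2 ^ m := by
    rw [h2]
    exact_mod_cast detN m e he
  have h7 := congrArg abs h1
  rw [abs_mul, abs_mul, abs_of_pos (hd i), abs_of_pos hS] at h7
  nlinarith [hd i]

end Pool.Agent.H2.BlockSums
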