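import Mathlib

namespace Pool.Agent.H2.EdgeGame

def dg (s j : ℕ) : ℕ := Nat.mod (Nat.div s (Nat.pow (nat_lit 8) j)) (nat_lit 8)

theorem dg_eq (s j : ℕ) : dg s j = s / 8 ^ j % 8 := rfl

def E : List (ℕ × ℕ) := [(0, 1), (0, 2), (1, 2), (1, 3), (2, 3), (2, 4), (3, 4), (3, 5), (4, 5), (4, 6), (5, 6), (5, 7), (6, 7)]

def idf (s : ℕ) (e : ℕ × ℕ) : Option ℕ :=
  if dg s e.1 = 0 ∨ dg s e.2 = 0 then none
  else some (8 * min (dg s e.1 - 1) (dg s e.2 - 1) + max (dg s e.1 - 1) (dg s e.2 - 1))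

def nd : List ℕ → ℕ → Bool
  | [], _ => true
  | a :: l, m => !m.testBit a && nd l (m ||| 2 ^ a)

def good0 (s : ℕ) : Bool := nd (E.filterMap (idf s)) 0

noncomputable def fb (s : ℕ) (g : ℕ → Bool) : Bool :=
  Nat.rec (g (nat_lit 0)) (fun t _ => g (Nat.succ t)) s

theorem fb_eq (s : ℕ) (g : ℕ → Bool) : fb s g = g s := by cases s <;> rfl

noncomputable def cell (r : ℕ → Bool) (m x y : ℕ) : Bool :=
  Nat.rec (r m) (fun a _ => Nat.rec (r m) (fun b _ =>
    fb (Bool.rec (Nat.add (Nat.mul (nat_lit 8) b) a) (Nat.add (Nat.mul (nat_lit 8) a) b)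
      (Nat.ble a b)) fun i =>
      Nat.rec (fb (Nat.lor m (Nat.pow (nat_lit 2) i)) r) (fun _ _ => false)
        (Nat.mod (Nat.shiftRight m i) (nat_lit 2))) y) x

noncomputable def gd (s : ℕ) (l : List (ℕ × ℕ)) : ℕ → Bool :=
  List.rec (fun _ => true) (fun e _ ih m => cell ih m (dg s e.1) (dg s e.2)) l

theorem cell_eq (r : ℕ → Bool) (m x y : ℕ) : cell r m x y = if x = 0 ∨ y = 0 then r m else
    (!m.testBit (8 * min (x - 1) (y - 1) + max (x - 1) (y - 1)) &&
      r (m ||| 2 ^ (8 * min (x - 1) (y - 1) + max (x - 1) (y - 1)))) := by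
  rcases x with _ | a
  · rfl
  rcases y with _ | b
  · rw [if_pos (Or.inr rfl)]; rfl
  rw [if_neg (by omega)]
  have e : (Bool.rec (Nat.add (Nat.mul 8 b) a) (Nat.add (Nat.mul 8 a) b) (Nat.ble a b) : ℕ) =
      8 * min (a + 1 - 1) (b + 1 - 1) + max (a + 1 - 1) (b + 1 - 1) := by
    rcases h : Nat.ble a b with _ | _
    · have : ¬ a ≤ b := fun g => by simp [Nat.ble_eq_true_of_le g] at h
      show 8 * b + a = _
      omega
    · have := Nat.le_of_ble_eq_true h
      show 8 * a + b = _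
      omega
  have e2 : cell r m (a + 1) (b + 1) = fb (Bool.rec (Nat.add (Nat.mul 8 b) a)
      (Nat.add (Nat.mul 8 a) b) (Nat.ble a b)) fun i =>
      Nat.rec (fb (m ||| 2 ^ i) r) (fun _ _ => false) (m >>> i % 2) := rfl
  rw [e2, e, fb_eq]
  generalize 8 * min (a + 1 - 1) (b + 1 - 1) + max (a + 1 - 1) (b + 1 - 1) = i
  rw [fb_eq, Nat.shiftRight_eq_div_pow, Nat.testBit_eq_decide_div_mod_eq]
  rcases Nat.mod_two_eq_zero_or_one (m / 2 ^ i) with h | h <;> rw [h] <;> simp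

theorem gd_eq (s : ℕ) (l : List (ℕ × ℕ)) (m : ℕ) : gd s l m = nd (l.filterMap (idf s)) m := by
  induction l generalizing m with
  | nil => rfl
  | cons e l ih =>
    show cell (gd s l) m _ _ = _
    rw [cell_eq, List.filterMap_cons, idf]
    split_ifs <;> simp [ih, nd]

noncomputable def good (s : ℕ) : Bool := fb s fun t => gd t E (nat_lit 0)

theorem good_eq (s : ℕ) : good s = good0 s := by rw [good, fb_eq, gd_eq]; rfl

def force : ℕ → (ℕ → ℕ) → ℕ
  | 0, g => g 0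
  | s + 1, g => g (s + 1)

theorem force_eq (s : ℕ) (g : ℕ → ℕ) : force s g = g s := by cases s <;> rfl

noncomputable def loop (g : ℕ → ℕ → ℕ) (s : ℕ) : List ℕ → ℕ → ℕ
  | [], M => M
  | x :: l, M => if dg s (x / 7) = 0 ∧ good (s + (x % 7 + 1) * 8 ^ (x / 7)) = true then
      (match force (s + (x % 7 + 1) * 8 ^ (x / 7)) (fun t => g t M) with
        | 0 => 0
        | K + 1 => loop g s l (K + 1))
      else loop g s l M

noncomputable def chk : ℕ → ℕ → ℕ → ℕ
  | 0, _, _ => 0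
  | f + 1, s, N => if dg s (N / 8 % 8) = 0 ∧ 1 ≤ N % 8 ∧ good (s + N % 8 * 8 ^ (N / 8 % 8)) = true
      then force (s + N % 8 * 8 ^ (N / 8 % 8)) fun t => force (N / 64) fun M =>
        loop (chk f) t (List.range 56) M else 0

noncomputable def ext : ℕ → ℕ → Bool
  | 0, _ => false
  | f + 1, s => [1, 2, 3, 4, 5, 6].all fun a =>
      !good (s + a * 8 ^ (7 - f)) || fb (s + a * 8 ^ (7 - f)) (ext f)

theorem ext_ok : ext 8 0 = true := by decide +kernel

end Pool.Agent.H2.EdgeGame
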