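import Mathlib

namespace Pool.Agent.H2.TokArith
open Finset

def conf (u v : Fin 5) : Prop :=
  u = v ∨ v = u + 1 ∨ u = v + 1 ∨ (u = 0 ∧ v = 2) ∨ (u = 2 ∧ v = 0)

instance : DecidableRel conf := fun u v => by unfold conf; infer_instance

def U (t : Fin 10) (u : Fin 5) : Bool :=
  t == 9 || (u == 0 && t == 1) || (u == 2 && t == 2) || (u == 1 && 1 ≤ t.val && t.val ≤ 4) ||
    (u == 3 && (t == 5 || t == 6)) || (u == 4 && (t == 7 || t == 8))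

def Tr (v : Fin 5) (t t' : Fin 10) : Prop :=
  (∀ u, U t u = true → ¬ conf u v ∧ U t' u = true) ∧ U t' v = true

instance (v : Fin 5) (t t' : Fin 10) : Decidable (Tr v t t') := by unfold Tr; infer_instance

def Mv (n n' : Fin 10 → ℕ) (t t' : Fin 10) : Prop :=
  ∀ i, n' i + (if i = t then 1 else 0) = n i + (if i = t' then 1 else 0)

theorem mv {n n' : Fin 10 → ℕ} {t t' : Fin 10} (h : Mv n n' t t') :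
    n' 1 + (if 1 = t then 1 else 0) = n 1 + (if 1 = t' then 1 else 0) ∧
    n' 2 + (if 2 = t then 1 else 0) = n 2 + (if 2 = t' then 1 else 0) ∧
    n' 3 + (if 3 = t then 1 else 0) = n 3 + (if 3 = t' then 1 else 0) ∧
    n' 4 + (if 4 = t then 1 else 0) = n 4 + (if 4 = t' then 1 else 0) ∧
    n' 5 + (if 5 = t then 1 else 0) = n 5 + (if 5 = t' then 1 else 0) ∧
    n' 6 + (if 6 = t then 1 else 0) = n 6 + (if 6 = t' then 1 else 0) ∧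
    n' 7 + (if 7 = t then 1 else 0) = n 7 + (if 7 = t' then 1 else 0) ∧
    n' 8 + (if 8 = t then 1 else 0) = n 8 + (if 8 = t' then 1 else 0) ∧
    n' 9 + (if 9 = t then 1 else 0) = n 9 + (if 9 = t' then 1 else 0) :=
  ⟨h 1, h 2, h 3, h 4, h 5, h 6, h 7, h 8, h 9⟩

def GI (k xa xb xc xd xe : ℕ) (n : Fin 10 → ℕ) : Prop :=
  ∃ c1 c2 c3 c4 b1 b3 d1 d3 p1 p2 p3 p4 p5 q1 q2 q3 q4 q5 : ℕ,
    xc = c1 + c2 + c3 + c4 ∧ c1 ≤ k ∧ c2 ≤ k ∧ c3 ≤ k ∧ (c2 = 0 ∨ c1 = k) ∧ (c3 = 0 ∨ c2 = k) ∧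
    (c4 = 0 ∨ c3 = k) ∧ xb = b1 + b3 ∧ b1 ≤ 2 * k ∧ (b3 = 0 ∨ b1 = 2 * k) ∧
    xd = d1 + d3 ∧ d1 ≤ 2 * k ∧ (d3 = 0 ∨ d1 = 2 * k) ∧
    xa + c1 = n 1 + p1 + p2 ∧ xe + c2 = n 2 + q1 + q2 ∧ c3 = n 3 + p3 + q3 ∧
    c4 = n 4 + p4 + p5 + q4 + q5 ∧ b1 = n 5 + p1 + p4 ∧ b3 = n 6 + p2 + p3 + p5 ∧
    d1 = n 7 + q1 + q4 ∧ d3 = n 8 + q2 + q3 + q5 ∧
    n 9 = p1 + p2 + p3 + p4 + p5 + q1 + q2 + q3 + q4 + q5 ∧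
    (n 1 = 0 ∨ n 5 + n 6 = 0) ∧ (n 2 = 0 ∨ n 7 + n 8 = 0) ∧ (n 3 = 0 ∨ n 6 + n 8 = 0) ∧
    (n 4 = 0 ∨ n 5 + n 6 + n 7 + n 8 = 0) ∧ (p2 = 0 ∨ n 5 = 0) ∧ (q2 = 0 ∨ n 7 = 0) ∧
    (p4 + p5 = 0 ∨ k ≤ p1 + p2) ∧ (q4 + q5 = 0 ∨ k ≤ q1 + q2)

theorem bound {k xa xb xc xd xe : ℕ} {n : Fin 10 → ℕ} (h : GI k xa xb xc xd xe n)
    (g1 : xa + xc + xe ≤ 4 * k) (g2 : xa + xd ≤ 4 * k) (g3 : xb + xd ≤ 4 * k)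
    (g4 : xb + xe ≤ 4 * k) : n 1 + n 2 + n 3 + n 4 + n 5 + n 6 + n 7 + n 8 + n 9 ≤ 5 * k := by
  obtain ⟨c1, c2, c3, c4, b1, b3, d1, d3, p1, p2, p3, p4, p5, q1, q2, q3, q4, q5,
    h1, h2, h3, h4, h5, h6, h7, h8, h9, h10, h11, h12, h13, h14, h15, h16, h17, h18, h19, h20, h21, h22, h23, h24, h25, h26, h27, h28, h29, h30⟩ := h
  rcases Nat.eq_zero_or_pos (n 5 + n 6) with hb | hb <;>
    rcases Nat.eq_zero_or_pos (n 7 + n 8) with hd | hd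
  · linarith
  · have e1 := h24.resolve_right hd.ne'
    have e2 : n 4 = 0 := h26.resolve_right (by clear * - hd; omega)
    rcases h6 with h6 | h6
    · rcases h7 with h7 | h7 <;> linarith
    rcases Nat.eq_zero_or_pos (n 8) with h0 | h0
    · rcases h28 with h28 | h28 <;> linarith
    have e3 : n 3 = 0 := h25.resolve_right (by clear * - h0; omega)
    have e4 : d1 = 2 * k := h13.resolve_left (by clear * - h0 h21; omega)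
    rcases h10 with h10 | h10
    · rcases h29 with h29 | h29
      · linarith
      · rcases h7 with h7 | h7 <;> linarith
    · linarith
  · have e1 := h23.resolve_right hb.ne'
    have e2 : n 4 = 0 := h26.resolve_right (by clear * - hb; omega)
    rcases h6 with h6 | h6
    · rcases h7 with h7 | h7 <;> linarith
    rcases h5 with h5 | h5
    · linarith
    rcases Nat.eq_zero_or_pos (n 6) with h0 | h0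
    · rcases h27 with h27 | h27 <;> linarith
    have e3 : n 3 = 0 := h25.resolve_right (by clear * - h0; omega)
    have e4 : b1 = 2 * k := h10.resolve_left (by clear * - h0 h19; omega)
    rcases h13 with h13 | h13
    · rcases h30 with h30 | h30
      · linarith
      · rcases h7 with h7 | h7 <;> linarith
    · linarith
  · have e1 := h23.resolve_right hb.ne'
    have e3 := h24.resolve_right hd.ne'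
    have e2 : n 4 = 0 := h26.resolve_right (by clear * - hb; omega)
    linarith

theorem stepA {k xa xb xc xd xe : ℕ} {n : Fin 10 → ℕ} (h : GI k xa xb xc xd xe n) :
    ∃ t t' : Fin 10, Tr 0 t t' ∧ t' ≠ 0 ∧ (t.val = 0 ∨ 0 < n t) ∧
      ∀ n', Mv n n' t t' → GI k (xa + 1) xb xc xd xe n' := by
  obtain ⟨c1, c2, c3, c4, b1, b3, d1, d3, p1, p2, p3, p4, p5, q1, q2, q3, q4, q5,
    h1, h2, h3, h4, h5, h6, h7, h8, h9, h10, h11, h12, h13, h14, h15, h16, h17, h18, h19, h20, h21, h22, h23, h24, h25, h26, h27, h28, h29, h30⟩ := h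
  by_cases z1 : 0 < n 5
  · refine ⟨5, 9, by decide, by decide, by clear * - z1; omega,
      fun n' hm => ?_⟩
    obtain ⟨m1, m2, m3, m4, m5, m6, m7, m8, m9⟩ := mv hm
    simp only [Fin.reduceEq, if_true, if_false] at m1 m2 m3 m4 m5 m6 m7 m8 m9
    refine ⟨c1, c2, c3, c4, b1, b3, d1, d3, p1 + 1, p2, p3, p4, p5, q1, q2, q3, q4, q5,
      ?_, ?_, ?_, ?_, ?_, ?_, ?_, ?_, ?_, ?_, ?_, ?_, ?_, ?_, ?_, ?_, ?_, ?_, ?_, ?_, ?_, ?_, ?_, ?_, ?_, ?_, ?_, ?_, ?_, ?_⟩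
    · clear * - m1 m2 m3 m4 m5 m6 m7 m8 m9 h2 h3 h4 h9 h12 z1 h1; omega
    · clear * - m1 m2 m3 m4 m5 m6 m7 m8 m9 h2 h3 h4 h9 h12 z1; omega
    · clear * - m1 m2 m3 m4 m5 m6 m7 m8 m9 h2 h3 h4 h9 h12 z1; omega
    · clear * - m1 m2 m3 m4 m5 m6 m7 m8 m9 h2 h3 h4 h9 h12 z1; omega
    · clear * - m1 m2 m3 m4 m5 m6 m7 m8 m9 h2 h3 h4 h9 h12 z1 h5; omega
    · clear * - m1 m2 m3 m4 m5 m6 m7 m8 m9 h2 h3 h4 h9 h12 z1 h6; omega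
    · clear * - m1 m2 m3 m4 m5 m6 m7 m8 m9 h2 h3 h4 h9 h12 z1 h7; omega
    · clear * - m1 m2 m3 m4 m5 m6 m7 m8 m9 h2 h3 h4 h9 h12 z1 h8; omega
    · clear * - m1 m2 m3 m4 m5 m6 m7 m8 m9 h2 h3 h4 h9 h12 z1; omega
    · clear * - m1 m2 m3 m4 m5 m6 m7 m8 m9 h2 h3 h4 h9 h12 z1 h10; omega
    · clear * - m1 m2 m3 m4 m5 m6 m7 m8 m9 h2 h3 h4 h9 h12 z1 h11; omega
    · clear * - m1 m2 m3 m4 m5 m6 m7 m8 m9 h2 h3 h4 h9 h12 z1; omega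
    · clear * - m1 m2 m3 m4 m5 m6 m7 m8 m9 h2 h3 h4 h9 h12 z1 h13; omega
    · clear * - m1 m2 m3 m4 m5 m6 m7 m8 m9 h2 h3 h4 h9 h12 z1 h14; omega
    · clear * - m1 m2 m3 m4 m5 m6 m7 m8 m9 h2 h3 h4 h9 h12 z1 h15; omega
    · clear * - m1 m2 m3 m4 m5 m6 m7 m8 m9 h2 h3 h4 h9 h12 z1 h16; omega
    · clear * - m1 m2 m3 m4 m5 m6 m7 m8 m9 h2 h3 h4 h9 h12 z1 h17; omega
    · clear * - m1 m2 m3 m4 m5 m6 m7 m8 m9 h2 h3 h4 h9 h12 z1 h18; omega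
    · clear * - m1 m2 m3 m4 m5 m6 m7 m8 m9 h2 h3 h4 h9 h12 z1 h19; omega
    · clear * - m1 m2 m3 m4 m5 m6 m7 m8 m9 h2 h3 h4 h9 h12 z1 h20; omega
    · clear * - m1 m2 m3 m4 m5 m6 m7 m8 m9 h2 h3 h4 h9 h12 z1 h21; omega
    · clear * - m1 m2 m3 m4 m5 m6 m7 m8 m9 h2 h3 h4 h9 h12 z1 h22; omega
    · clear * - m1 m2 m3 m4 m5 m6 m7 m8 m9 h2 h3 h4 h9 h12 z1 h23; omega
    · clear * - m1 m2 m3 m4 m5 m6 m7 m8 m9 h2 h3 h4 h9 h12 z1 h24; omega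
    · clear * - m1 m2 m3 m4 m5 m6 m7 m8 m9 h2 h3 h4 h9 h12 z1 h25; omega
    · clear * - m1 m2 m3 m4 m5 m6 m7 m8 m9 h2 h3 h4 h9 h12 z1 h26; omega
    · clear * - m1 m2 m3 m4 m5 m6 m7 m8 m9 h2 h3 h4 h9 h12 z1 h27; omega
    · clear * - m1 m2 m3 m4 m5 m6 m7 m8 m9 h2 h3 h4 h9 h12 z1 h28; omega
    · clear * - m1 m2 m3 m4 m5 m6 m7 m8 m9 h2 h3 h4 h9 h12 z1 h29; omega
    · clear * - m1 m2 m3 m4 m5 m6 m7 m8 m9 h2 h3 h4 h9 h12 z1 h30; omega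
  by_cases z2 : 0 < n 6
  · refine ⟨6, 9, by decide, by decide, by clear * - z1 z2; omega,
      fun n' hm => ?_⟩
    obtain ⟨m1, m2, m3, m4, m5, m6, m7, m8, m9⟩ := mv hm
    simp only [Fin.reduceEq, if_true, if_false] at m1 m2 m3 m4 m5 m6 m7 m8 m9
    refine ⟨c1, c2, c3, c4, b1, b3, d1, d3, p1, p2 + 1, p3, p4, p5, q1, q2, q3, q4, q5,
      ?_, ?_, ?_, ?_, ?_, ?_, ?_, ?_, ?_, ?_, ?_, ?_, ?_, ?_, ?_, ?_, ?_, ?_, ?_, ?_, ?_, ?_, ?_, ?_, ?_, ?_, ?_, ?_, ?_, ?_⟩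
    · clear * - m1 m2 m3 m4 m5 m6 m7 m8 m9 h2 h3 h4 h9 h12 z1 z2 h1; omega
    · clear * - m1 m2 m3 m4 m5 m6 m7 m8 m9 h2 h3 h4 h9 h12 z1 z2; omega
    · clear * - m1 m2 m3 m4 m5 m6 m7 m8 m9 h2 h3 h4 h9 h12 z1 z2; omega
    · clear * - m1 m2 m3 m4 m5 m6 m7 m8 m9 h2 h3 h4 h9 h12 z1 z2; omega
    · clear * - m1 m2 m3 m4 m5 m6 m7 m8 m9 h2 h3 h4 h9 h12 z1 z2 h5; omega
    · clear * - m1 m2 m3 m4 m5 m6 m7 m8 m9 h2 h3 h4 h9 h12 z1 z2 h6; omega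
    · clear * - m1 m2 m3 m4 m5 m6 m7 m8 m9 h2 h3 h4 h9 h12 z1 z2 h7; omega
    · clear * - m1 m2 m3 m4 m5 m6 m7 m8 m9 h2 h3 h4 h9 h12 z1 z2 h8; omega
    · clear * - m1 m2 m3 m4 m5 m6 m7 m8 m9 h2 h3 h4 h9 h12 z1 z2; omega
    · clear * - m1 m2 m3 m4 m5 m6 m7 m8 m9 h2 h3 h4 h9 h12 z1 z2 h10; omega
    · clear * - m1 m2 m3 m4 m5 m6 m7 m8 m9 h2 h3 h4 h9 h12 z1 z2 h11; omega
    · clear * - m1 m2 m3 m4 m5 m6 m7 m8 m9 h2 h3 h4 h9 h12 z1 z2; omega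
    · clear * - m1 m2 m3 m4 m5 m6 m7 m8 m9 h2 h3 h4 h9 h12 z1 z2 h13; omega
    · clear * - m1 m2 m3 m4 m5 m6 m7 m8 m9 h2 h3 h4 h9 h12 z1 z2 h14; omega
    · clear * - m1 m2 m3 m4 m5 m6 m7 m8 m9 h2 h3 h4 h9 h12 z1 z2 h15; omega
    · clear * - m1 m2 m3 m4 m5 m6 m7 m8 m9 h2 h3 h4 h9 h12 z1 z2 h16; omega
    · clear * - m1 m2 m3 m4 m5 m6 m7 m8 m9 h2 h3 h4 h9 h12 z1 z2 h17; omega
    · clear * - m1 m2 m3 m4 m5 m6 m7 m8 m9 h2 h3 h4 h9 h12 z1 z2 h18; omega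
    · clear * - m1 m2 m3 m4 m5 m6 m7 m8 m9 h2 h3 h4 h9 h12 z1 z2 h19; omega
    · clear * - m1 m2 m3 m4 m5 m6 m7 m8 m9 h2 h3 h4 h9 h12 z1 z2 h20; omega
    · clear * - m1 m2 m3 m4 m5 m6 m7 m8 m9 h2 h3 h4 h9 h12 z1 z2 h21; omega
    · clear * - m1 m2 m3 m4 m5 m6 m7 m8 m9 h2 h3 h4 h9 h12 z1 z2 h22; omega
    · clear * - m1 m2 m3 m4 m5 m6 m7 m8 m9 h2 h3 h4 h9 h12 z1 z2 h23; omega
    · clear * - m1 m2 m3 m4 m5 m6 m7 m8 m9 h2 h3 h4 h9 h12 z1 z2 h24; omega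
    · clear * - m1 m2 m3 m4 m5 m6 m7 m8 m9 h2 h3 h4 h9 h12 z1 z2 h25; omega
    · clear * - m1 m2 m3 m4 m5 m6 m7 m8 m9 h2 h3 h4 h9 h12 z1 z2 h26; omega
    · clear * - m1 m2 m3 m4 m5 m6 m7 m8 m9 h2 h3 h4 h9 h12 z1 z2 h27; omega
    · clear * - m1 m2 m3 m4 m5 m6 m7 m8 m9 h2 h3 h4 h9 h12 z1 z2 h28; omega
    · clear * - m1 m2 m3 m4 m5 m6 m7 m8 m9 h2 h3 h4 h9 h12 z1 z2 h29; omega
    · clear * - m1 m2 m3 m4 m5 m6 m7 m8 m9 h2 h3 h4 h9 h12 z1 z2 h30; omega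
  refine ⟨0, 1, by decide, by decide, by clear * - z1 z2; omega,
    fun n' hm => ?_⟩
  obtain ⟨m1, m2, m3, m4, m5, m6, m7, m8, m9⟩ := mv hm
  simp only [Fin.reduceEq, if_true, if_false] at m1 m2 m3 m4 m5 m6 m7 m8 m9
  refine ⟨c1, c2, c3, c4, b1, b3, d1, d3, p1, p2, p3, p4, p5, q1, q2, q3, q4, q5,
    ?_, ?_, ?_, ?_, ?_, ?_, ?_, ?_, ?_, ?_, ?_, ?_, ?_, ?_, ?_, ?_, ?_, ?_, ?_, ?_, ?_, ?_, ?_, ?_, ?_, ?_, ?_, ?_, ?_, ?_⟩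
  · clear * - m1 m2 m3 m4 m5 m6 m7 m8 m9 h2 h3 h4 h9 h12 z1 z2 h1; omega
  · clear * - m1 m2 m3 m4 m5 m6 m7 m8 m9 h2 h3 h4 h9 h12 z1 z2; omega
  · clear * - m1 m2 m3 m4 m5 m6 m7 m8 m9 h2 h3 h4 h9 h12 z1 z2; omega
  · clear * - m1 m2 m3 m4 m5 m6 m7 m8 m9 h2 h3 h4 h9 h12 z1 z2; omega
  · clear * - m1 m2 m3 m4 m5 m6 m7 m8 m9 h2 h3 h4 h9 h12 z1 z2 h5; omega
  · clear * - m1 m2 m3 m4 m5 m6 m7 m8 m9 h2 h3 h4 h9 h12 z1 z2 h6; omega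
  · clear * - m1 m2 m3 m4 m5 m6 m7 m8 m9 h2 h3 h4 h9 h12 z1 z2 h7; omega
  · clear * - m1 m2 m3 m4 m5 m6 m7 m8 m9 h2 h3 h4 h9 h12 z1 z2 h8; omega
  · clear * - m1 m2 m3 m4 m5 m6 m7 m8 m9 h2 h3 h4 h9 h12 z1 z2; omega
  · clear * - m1 m2 m3 m4 m5 m6 m7 m8 m9 h2 h3 h4 h9 h12 z1 z2 h10; omega
  · clear * - m1 m2 m3 m4 m5 m6 m7 m8 m9 h2 h3 h4 h9 h12 z1 z2 h11; omega
  · clear * - m1 m2 m3 m4 m5 m6 m7 m8 m9 h2 h3 h4 h9 h12 z1 z2; omega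
  · clear * - m1 m2 m3 m4 m5 m6 m7 m8 m9 h2 h3 h4 h9 h12 z1 z2 h13; omega
  · clear * - m1 m2 m3 m4 m5 m6 m7 m8 m9 h2 h3 h4 h9 h12 z1 z2 h14; omega
  · clear * - m1 m2 m3 m4 m5 m6 m7 m8 m9 h2 h3 h4 h9 h12 z1 z2 h15; omega
  · clear * - m1 m2 m3 m4 m5 m6 m7 m8 m9 h2 h3 h4 h9 h12 z1 z2 h16; omega
  · clear * - m1 m2 m3 m4 m5 m6 m7 m8 m9 h2 h3 h4 h9 h12 z1 z2 h17; omega
  · clear * - m1 m2 m3 m4 m5 m6 m7 m8 m9 h2 h3 h4 h9 h12 z1 z2 h18; omega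
  · clear * - m1 m2 m3 m4 m5 m6 m7 m8 m9 h2 h3 h4 h9 h12 z1 z2 h19; omega
  · clear * - m1 m2 m3 m4 m5 m6 m7 m8 m9 h2 h3 h4 h9 h12 z1 z2 h20; omega
  · clear * - m1 m2 m3 m4 m5 m6 m7 m8 m9 h2 h3 h4 h9 h12 z1 z2 h21; omega
  · clear * - m1 m2 m3 m4 m5 m6 m7 m8 m9 h2 h3 h4 h9 h12 z1 z2 h22; omega
  · clear * - m1 m2 m3 m4 m5 m6 m7 m8 m9 h2 h3 h4 h9 h12 z1 z2 h23; omega
  · clear * - m1 m2 m3 m4 m5 m6 m7 m8 m9 h2 h3 h4 h9 h12 z1 z2 h24; omega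
  · clear * - m1 m2 m3 m4 m5 m6 m7 m8 m9 h2 h3 h4 h9 h12 z1 z2 h25; omega
  · clear * - m1 m2 m3 m4 m5 m6 m7 m8 m9 h2 h3 h4 h9 h12 z1 z2 h26; omega
  · clear * - m1 m2 m3 m4 m5 m6 m7 m8 m9 h2 h3 h4 h9 h12 z1 z2 h27; omega
  · clear * - m1 m2 m3 m4 m5 m6 m7 m8 m9 h2 h3 h4 h9 h12 z1 z2 h28; omega
  · clear * - m1 m2 m3 m4 m5 m6 m7 m8 m9 h2 h3 h4 h9 h12 z1 z2 h29; omega
  · clear * - m1 m2 m3 m4 m5 m6 m7 m8 m9 h2 h3 h4 h9 h12 z1 z2 h30; omega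

theorem stepB {k xa xb xc xd xe : ℕ} {n : Fin 10 → ℕ} (h : GI k xa xb xc xd xe n) :
    ∃ t t' : Fin 10, Tr 3 t t' ∧ t' ≠ 0 ∧ (t.val = 0 ∨ 0 < n t) ∧
      ∀ n', Mv n n' t t' → GI k xa (xb + 1) xc xd xe n' := by
  obtain ⟨c1, c2, c3, c4, b1, b3, d1, d3, p1, p2, p3, p4, p5, q1, q2, q3, q4, q5,
    h1, h2, h3, h4, h5, h6, h7, h8, h9, h10, h11, h12, h13, h14, h15, h16, h17, h18, h19, h20, h21, h22, h23, h24, h25, h26, h27, h28, h29, h30⟩ := h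
  by_cases z3 : b1 < 2 * k
  · by_cases z4 : 0 < n 1
    · refine ⟨1, 9, by decide, by decide, by clear * - z3 z4; omega,
        fun n' hm => ?_⟩
      obtain ⟨m1, m2, m3, m4, m5, m6, m7, m8, m9⟩ := mv hm
      simp only [Fin.reduceEq, if_true, if_false] at m1 m2 m3 m4 m5 m6 m7 m8 m9
      refine ⟨c1, c2, c3, c4, b1 + 1, b3, d1, d3, p1 + 1, p2, p3, p4, p5, q1, q2, q3, q4, q5,
        ?_, ?_, ?_, ?_, ?_, ?_, ?_, ?_, ?_, ?_, ?_, ?_, ?_, ?_, ?_, ?_, ?_, ?_, ?_, ?_, ?_, ?_, ?_, ?_, ?_, ?_, ?_, ?_, ?_, ?_⟩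
      · clear * - m1 m2 m3 m4 m5 m6 m7 m8 m9 h2 h3 h4 h9 h12 z3 z4 h1; omega
      · clear * - m1 m2 m3 m4 m5 m6 m7 m8 m9 h2 h3 h4 h9 h12 z3 z4; omega
      · clear * - m1 m2 m3 m4 m5 m6 m7 m8 m9 h2 h3 h4 h9 h12 z3 z4; omega
      · clear * - m1 m2 m3 m4 m5 m6 m7 m8 m9 h2 h3 h4 h9 h12 z3 z4; omega
      · clear * - m1 m2 m3 m4 m5 m6 m7 m8 m9 h2 h3 h4 h9 h12 z3 z4 h5; omega
      · clear * - m1 m2 m3 m4 m5 m6 m7 m8 m9 h2 h3 h4 h9 h12 z3 z4 h6; omega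
      · clear * - m1 m2 m3 m4 m5 m6 m7 m8 m9 h2 h3 h4 h9 h12 z3 z4 h7; omega
      · clear * - m1 m2 m3 m4 m5 m6 m7 m8 m9 h2 h3 h4 h9 h12 z3 z4 h8; omega
      · clear * - m1 m2 m3 m4 m5 m6 m7 m8 m9 h2 h3 h4 h9 h12 z3 z4; omega
      · clear * - m1 m2 m3 m4 m5 m6 m7 m8 m9 h2 h3 h4 h9 h12 z3 z4 h10; omega
      · clear * - m1 m2 m3 m4 m5 m6 m7 m8 m9 h2 h3 h4 h9 h12 z3 z4 h11; omega
      · clear * - m1 m2 m3 m4 m5 m6 m7 m8 m9 h2 h3 h4 h9 h12 z3 z4; omega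
      · clear * - m1 m2 m3 m4 m5 m6 m7 m8 m9 h2 h3 h4 h9 h12 z3 z4 h13; omega
      · clear * - m1 m2 m3 m4 m5 m6 m7 m8 m9 h2 h3 h4 h9 h12 z3 z4 h14; omega
      · clear * - m1 m2 m3 m4 m5 m6 m7 m8 m9 h2 h3 h4 h9 h12 z3 z4 h15; omega
      · clear * - m1 m2 m3 m4 m5 m6 m7 m8 m9 h2 h3 h4 h9 h12 z3 z4 h16; omega
      · clear * - m1 m2 m3 m4 m5 m6 m7 m8 m9 h2 h3 h4 h9 h12 z3 z4 h17; omega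
      · clear * - m1 m2 m3 m4 m5 m6 m7 m8 m9 h2 h3 h4 h9 h12 z3 z4 h18; omega
      · clear * - m1 m2 m3 m4 m5 m6 m7 m8 m9 h2 h3 h4 h9 h12 z3 z4 h19; omega
      · clear * - m1 m2 m3 m4 m5 m6 m7 m8 m9 h2 h3 h4 h9 h12 z3 z4 h20; omega
      · clear * - m1 m2 m3 m4 m5 m6 m7 m8 m9 h2 h3 h4 h9 h12 z3 z4 h21; omega
      · clear * - m1 m2 m3 m4 m5 m6 m7 m8 m9 h2 h3 h4 h9 h12 z3 z4 h22; omega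
      · clear * - m1 m2 m3 m4 m5 m6 m7 m8 m9 h2 h3 h4 h9 h12 z3 z4 h23; omega
      · clear * - m1 m2 m3 m4 m5 m6 m7 m8 m9 h2 h3 h4 h9 h12 z3 z4 h24; omega
      · clear * - m1 m2 m3 m4 m5 m6 m7 m8 m9 h2 h3 h4 h9 h12 z3 z4 h25; omega
      · clear * - m1 m2 m3 m4 m5 m6 m7 m8 m9 h2 h3 h4 h9 h12 z3 z4 h26; omega
      · clear * - m1 m2 m3 m4 m5 m6 m7 m8 m9 h2 h3 h4 h9 h12 z3 z4 h27 h23; omega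
      · clear * - m1 m2 m3 m4 m5 m6 m7 m8 m9 h2 h3 h4 h9 h12 z3 z4 h28; omega
      · clear * - m1 m2 m3 m4 m5 m6 m7 m8 m9 h2 h3 h4 h9 h12 z3 z4 h29; omega
      · clear * - m1 m2 m3 m4 m5 m6 m7 m8 m9 h2 h3 h4 h9 h12 z3 z4 h30; omega
    by_cases z5 : 0 < n 4
    · refine ⟨4, 9, by decide, by decide, by clear * - z3 z4 z5; omega,
        fun n' hm => ?_⟩
      obtain ⟨m1, m2, m3, m4, m5, m6, m7, m8, m9⟩ := mv hm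
      simp only [Fin.reduceEq, if_true, if_false] at m1 m2 m3 m4 m5 m6 m7 m8 m9
      refine ⟨c1, c2, c3, c4, b1 + 1, b3, d1, d3, p1, p2, p3, p4 + 1, p5, q1, q2, q3, q4, q5,
        ?_, ?_, ?_, ?_, ?_, ?_, ?_, ?_, ?_, ?_, ?_, ?_, ?_, ?_, ?_, ?_, ?_, ?_, ?_, ?_, ?_, ?_, ?_, ?_, ?_, ?_, ?_, ?_, ?_, ?_⟩
      · clear * - m1 m2 m3 m4 m5 m6 m7 m8 m9 h2 h3 h4 h9 h12 z3 z4 z5 h1; omega
      · clear * - m1 m2 m3 m4 m5 m6 m7 m8 m9 h2 h3 h4 h9 h12 z3 z4 z5; omega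
      · clear * - m1 m2 m3 m4 m5 m6 m7 m8 m9 h2 h3 h4 h9 h12 z3 z4 z5; omega
      · clear * - m1 m2 m3 m4 m5 m6 m7 m8 m9 h2 h3 h4 h9 h12 z3 z4 z5; omega
      · clear * - m1 m2 m3 m4 m5 m6 m7 m8 m9 h2 h3 h4 h9 h12 z3 z4 z5 h5; omega
      · clear * - m1 m2 m3 m4 m5 m6 m7 m8 m9 h2 h3 h4 h9 h12 z3 z4 z5 h6; omega
      · clear * - m1 m2 m3 m4 m5 m6 m7 m8 m9 h2 h3 h4 h9 h12 z3 z4 z5 h7; omega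
      · clear * - m1 m2 m3 m4 m5 m6 m7 m8 m9 h2 h3 h4 h9 h12 z3 z4 z5 h8; omega
      · clear * - m1 m2 m3 m4 m5 m6 m7 m8 m9 h2 h3 h4 h9 h12 z3 z4 z5; omega
      · clear * - m1 m2 m3 m4 m5 m6 m7 m8 m9 h2 h3 h4 h9 h12 z3 z4 z5 h10; omega
      · clear * - m1 m2 m3 m4 m5 m6 m7 m8 m9 h2 h3 h4 h9 h12 z3 z4 z5 h11; omega
      · clear * - m1 m2 m3 m4 m5 m6 m7 m8 m9 h2 h3 h4 h9 h12 z3 z4 z5; omega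
      · clear * - m1 m2 m3 m4 m5 m6 m7 m8 m9 h2 h3 h4 h9 h12 z3 z4 z5 h13; omega
      · clear * - m1 m2 m3 m4 m5 m6 m7 m8 m9 h2 h3 h4 h9 h12 z3 z4 z5 h14; omega
      · clear * - m1 m2 m3 m4 m5 m6 m7 m8 m9 h2 h3 h4 h9 h12 z3 z4 z5 h15; omega
      · clear * - m1 m2 m3 m4 m5 m6 m7 m8 m9 h2 h3 h4 h9 h12 z3 z4 z5 h16; omega
      · clear * - m1 m2 m3 m4 m5 m6 m7 m8 m9 h2 h3 h4 h9 h12 z3 z4 z5 h17; omega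
      · clear * - m1 m2 m3 m4 m5 m6 m7 m8 m9 h2 h3 h4 h9 h12 z3 z4 z5 h18; omega
      · clear * - m1 m2 m3 m4 m5 m6 m7 m8 m9 h2 h3 h4 h9 h12 z3 z4 z5 h19; omega
      · clear * - m1 m2 m3 m4 m5 m6 m7 m8 m9 h2 h3 h4 h9 h12 z3 z4 z5 h20; omega
      · clear * - m1 m2 m3 m4 m5 m6 m7 m8 m9 h2 h3 h4 h9 h12 z3 z4 z5 h21; omega
      · clear * - m1 m2 m3 m4 m5 m6 m7 m8 m9 h2 h3 h4 h9 h12 z3 z4 z5 h22; omega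
      · clear * - m1 m2 m3 m4 m5 m6 m7 m8 m9 h2 h3 h4 h9 h12 z3 z4 z5 h23; omega
      · clear * - m1 m2 m3 m4 m5 m6 m7 m8 m9 h2 h3 h4 h9 h12 z3 z4 z5 h24; omega
      · clear * - m1 m2 m3 m4 m5 m6 m7 m8 m9 h2 h3 h4 h9 h12 z3 z4 z5 h25; omega
      · clear * - m1 m2 m3 m4 m5 m6 m7 m8 m9 h2 h3 h4 h9 h12 z3 z4 z5 h26; omega
      · clear * - m1 m2 m3 m4 m5 m6 m7 m8 m9 h2 h3 h4 h9 h12 z3 z4 z5 h27; omega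
      · clear * - m1 m2 m3 m4 m5 m6 m7 m8 m9 h2 h3 h4 h9 h12 z3 z4 z5 h28; omega
      · clear * - m1 m2 m3 m4 m5 m6 m7 m8 m9 h2 h3 h4 h9 h12 z3 z4 z5 h29 h5 h6 h7 h14 h17 h23; omega
      · clear * - m1 m2 m3 m4 m5 m6 m7 m8 m9 h2 h3 h4 h9 h12 z3 z4 z5 h30; omega
    refine ⟨0, 5, by decide, by decide, by clear * - z3 z4 z5; omega,
      fun n' hm => ?_⟩
    obtain ⟨m1, m2, m3, m4, m5, m6, m7, m8, m9⟩ := mv hm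
    simp only [Fin.reduceEq, if_true, if_false] at m1 m2 m3 m4 m5 m6 m7 m8 m9
    refine ⟨c1, c2, c3, c4, b1 + 1, b3, d1, d3, p1, p2, p3, p4, p5, q1, q2, q3, q4, q5,
      ?_, ?_, ?_, ?_, ?_, ?_, ?_, ?_, ?_, ?_, ?_, ?_, ?_, ?_, ?_, ?_, ?_, ?_, ?_, ?_, ?_, ?_, ?_, ?_, ?_, ?_, ?_, ?_, ?_, ?_⟩
    · clear * - m1 m2 m3 m4 m5 m6 m7 m8 m9 h2 h3 h4 h9 h12 z3 z4 z5 h1; omega
    · clear * - m1 m2 m3 m4 m5 m6 m7 m8 m9 h2 h3 h4 h9 h12 z3 z4 z5; omega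
    · clear * - m1 m2 m3 m4 m5 m6 m7 m8 m9 h2 h3 h4 h9 h12 z3 z4 z5; omega
    · clear * - m1 m2 m3 m4 m5 m6 m7 m8 m9 h2 h3 h4 h9 h12 z3 z4 z5; omega
    · clear * - m1 m2 m3 m4 m5 m6 m7 m8 m9 h2 h3 h4 h9 h12 z3 z4 z5 h5; omega
    · clear * - m1 m2 m3 m4 m5 m6 m7 m8 m9 h2 h3 h4 h9 h12 z3 z4 z5 h6; omega
    · clear * - m1 m2 m3 m4 m5 m6 m7 m8 m9 h2 h3 h4 h9 h12 z3 z4 z5 h7; omega
    · clear * - m1 m2 m3 m4 m5 m6 m7 m8 m9 h2 h3 h4 h9 h12 z3 z4 z5 h8; omega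
    · clear * - m1 m2 m3 m4 m5 m6 m7 m8 m9 h2 h3 h4 h9 h12 z3 z4 z5; omega
    · clear * - m1 m2 m3 m4 m5 m6 m7 m8 m9 h2 h3 h4 h9 h12 z3 z4 z5 h10; omega
    · clear * - m1 m2 m3 m4 m5 m6 m7 m8 m9 h2 h3 h4 h9 h12 z3 z4 z5 h11; omega
    · clear * - m1 m2 m3 m4 m5 m6 m7 m8 m9 h2 h3 h4 h9 h12 z3 z4 z5; omega
    · clear * - m1 m2 m3 m4 m5 m6 m7 m8 m9 h2 h3 h4 h9 h12 z3 z4 z5 h13; omega
    · clear * - m1 m2 m3 m4 m5 m6 m7 m8 m9 h2 h3 h4 h9 h12 z3 z4 z5 h14; omega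
    · clear * - m1 m2 m3 m4 m5 m6 m7 m8 m9 h2 h3 h4 h9 h12 z3 z4 z5 h15; omega
    · clear * - m1 m2 m3 m4 m5 m6 m7 m8 m9 h2 h3 h4 h9 h12 z3 z4 z5 h16; omega
    · clear * - m1 m2 m3 m4 m5 m6 m7 m8 m9 h2 h3 h4 h9 h12 z3 z4 z5 h17; omega
    · clear * - m1 m2 m3 m4 m5 m6 m7 m8 m9 h2 h3 h4 h9 h12 z3 z4 z5 h18; omega
    · clear * - m1 m2 m3 m4 m5 m6 m7 m8 m9 h2 h3 h4 h9 h12 z3 z4 z5 h19; omega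
    · clear * - m1 m2 m3 m4 m5 m6 m7 m8 m9 h2 h3 h4 h9 h12 z3 z4 z5 h20; omega
    · clear * - m1 m2 m3 m4 m5 m6 m7 m8 m9 h2 h3 h4 h9 h12 z3 z4 z5 h21; omega
    · clear * - m1 m2 m3 m4 m5 m6 m7 m8 m9 h2 h3 h4 h9 h12 z3 z4 z5 h22; omega
    · clear * - m1 m2 m3 m4 m5 m6 m7 m8 m9 h2 h3 h4 h9 h12 z3 z4 z5 h23; omega
    · clear * - m1 m2 m3 m4 m5 m6 m7 m8 m9 h2 h3 h4 h9 h12 z3 z4 z5 h24; omega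
    · clear * - m1 m2 m3 m4 m5 m6 m7 m8 m9 h2 h3 h4 h9 h12 z3 z4 z5 h25; omega
    · clear * - m1 m2 m3 m4 m5 m6 m7 m8 m9 h2 h3 h4 h9 h12 z3 z4 z5 h26; omega
    · clear * - m1 m2 m3 m4 m5 m6 m7 m8 m9 h2 h3 h4 h9 h12 z3 z4 z5 h27 h10 h19; omega
    · clear * - m1 m2 m3 m4 m5 m6 m7 m8 m9 h2 h3 h4 h9 h12 z3 z4 z5 h28; omega
    · clear * - m1 m2 m3 m4 m5 m6 m7 m8 m9 h2 h3 h4 h9 h12 z3 z4 z5 h29; omega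
    · clear * - m1 m2 m3 m4 m5 m6 m7 m8 m9 h2 h3 h4 h9 h12 z3 z4 z5 h30; omega
  by_cases z6 : 0 < n 1
  · refine ⟨1, 9, by decide, by decide, by clear * - z3 z6; omega,
      fun n' hm => ?_⟩
    obtain ⟨m1, m2, m3, m4, m5, m6, m7, m8, m9⟩ := mv hm
    simp only [Fin.reduceEq, if_true, if_false] at m1 m2 m3 m4 m5 m6 m7 m8 m9
    refine ⟨c1, c2, c3, c4, b1, b3 + 1, d1, d3, p1, p2 + 1, p3, p4, p5, q1, q2, q3, q4, q5,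
      ?_, ?_, ?_, ?_, ?_, ?_, ?_, ?_, ?_, ?_, ?_, ?_, ?_, ?_, ?_, ?_, ?_, ?_, ?_, ?_, ?_, ?_, ?_, ?_, ?_, ?_, ?_, ?_, ?_, ?_⟩
    · clear * - m1 m2 m3 m4 m5 m6 m7 m8 m9 h2 h3 h4 h9 h12 z3 z6 h1; omega
    · clear * - m1 m2 m3 m4 m5 m6 m7 m8 m9 h2 h3 h4 h9 h12 z3 z6; omega
    · clear * - m1 m2 m3 m4 m5 m6 m7 m8 m9 h2 h3 h4 h9 h12 z3 z6; omega
    · clear * - m1 m2 m3 m4 m5 m6 m7 m8 m9 h2 h3 h4 h9 h12 z3 z6; omega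
    · clear * - m1 m2 m3 m4 m5 m6 m7 m8 m9 h2 h3 h4 h9 h12 z3 z6 h5; omega
    · clear * - m1 m2 m3 m4 m5 m6 m7 m8 m9 h2 h3 h4 h9 h12 z3 z6 h6; omega
    · clear * - m1 m2 m3 m4 m5 m6 m7 m8 m9 h2 h3 h4 h9 h12 z3 z6 h7; omega
    · clear * - m1 m2 m3 m4 m5 m6 m7 m8 m9 h2 h3 h4 h9 h12 z3 z6 h8; omega
    · clear * - m1 m2 m3 m4 m5 m6 m7 m8 m9 h2 h3 h4 h9 h12 z3 z6; omega
    · clear * - m1 m2 m3 m4 m5 m6 m7 m8 m9 h2 h3 h4 h9 h12 z3 z6 h10; omega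
    · clear * - m1 m2 m3 m4 m5 m6 m7 m8 m9 h2 h3 h4 h9 h12 z3 z6 h11; omega
    · clear * - m1 m2 m3 m4 m5 m6 m7 m8 m9 h2 h3 h4 h9 h12 z3 z6; omega
    · clear * - m1 m2 m3 m4 m5 m6 m7 m8 m9 h2 h3 h4 h9 h12 z3 z6 h13; omega
    · clear * - m1 m2 m3 m4 m5 m6 m7 m8 m9 h2 h3 h4 h9 h12 z3 z6 h14; omega
    · clear * - m1 m2 m3 m4 m5 m6 m7 m8 m9 h2 h3 h4 h9 h12 z3 z6 h15; omega
    · clear * - m1 m2 m3 m4 m5 m6 m7 m8 m9 h2 h3 h4 h9 h12 z3 z6 h16; omega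
    · clear * - m1 m2 m3 m4 m5 m6 m7 m8 m9 h2 h3 h4 h9 h12 z3 z6 h17; omega
    · clear * - m1 m2 m3 m4 m5 m6 m7 m8 m9 h2 h3 h4 h9 h12 z3 z6 h18; omega
    · clear * - m1 m2 m3 m4 m5 m6 m7 m8 m9 h2 h3 h4 h9 h12 z3 z6 h19; omega
    · clear * - m1 m2 m3 m4 m5 m6 m7 m8 m9 h2 h3 h4 h9 h12 z3 z6 h20; omega
    · clear * - m1 m2 m3 m4 m5 m6 m7 m8 m9 h2 h3 h4 h9 h12 z3 z6 h21; omega
    · clear * - m1 m2 m3 m4 m5 m6 m7 m8 m9 h2 h3 h4 h9 h12 z3 z6 h22; omega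
    · clear * - m1 m2 m3 m4 m5 m6 m7 m8 m9 h2 h3 h4 h9 h12 z3 z6 h23; omega
    · clear * - m1 m2 m3 m4 m5 m6 m7 m8 m9 h2 h3 h4 h9 h12 z3 z6 h24; omega
    · clear * - m1 m2 m3 m4 m5 m6 m7 m8 m9 h2 h3 h4 h9 h12 z3 z6 h25; omega
    · clear * - m1 m2 m3 m4 m5 m6 m7 m8 m9 h2 h3 h4 h9 h12 z3 z6 h26; omega
    · clear * - m1 m2 m3 m4 m5 m6 m7 m8 m9 h2 h3 h4 h9 h12 z3 z6 h27 h23; omega
    · clear * - m1 m2 m3 m4 m5 m6 m7 m8 m9 h2 h3 h4 h9 h12 z3 z6 h28; omega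
    · clear * - m1 m2 m3 m4 m5 m6 m7 m8 m9 h2 h3 h4 h9 h12 z3 z6 h29; omega
    · clear * - m1 m2 m3 m4 m5 m6 m7 m8 m9 h2 h3 h4 h9 h12 z3 z6 h30; omega
  by_cases z7 : 0 < n 3
  · refine ⟨3, 9, by decide, by decide, by clear * - z3 z6 z7; omega,
      fun n' hm => ?_⟩
    obtain ⟨m1, m2, m3, m4, m5, m6, m7, m8, m9⟩ := mv hm
    simp only [Fin.reduceEq, if_true, if_false] at m1 m2 m3 m4 m5 m6 m7 m8 m9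
    refine ⟨c1, c2, c3, c4, b1, b3 + 1, d1, d3, p1, p2, p3 + 1, p4, p5, q1, q2, q3, q4, q5,
      ?_, ?_, ?_, ?_, ?_, ?_, ?_, ?_, ?_, ?_, ?_, ?_, ?_, ?_, ?_, ?_, ?_, ?_, ?_, ?_, ?_, ?_, ?_, ?_, ?_, ?_, ?_, ?_, ?_, ?_⟩
    · clear * - m1 m2 m3 m4 m5 m6 m7 m8 m9 h2 h3 h4 h9 h12 z3 z6 z7 h1; omega
    · clear * - m1 m2 m3 m4 m5 m6 m7 m8 m9 h2 h3 h4 h9 h12 z3 z6 z7; omega
    · clear * - m1 m2 m3 m4 m5 m6 m7 m8 m9 h2 h3 h4 h9 h12 z3 z6 z7; omega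
    · clear * - m1 m2 m3 m4 m5 m6 m7 m8 m9 h2 h3 h4 h9 h12 z3 z6 z7; omega
    · clear * - m1 m2 m3 m4 m5 m6 m7 m8 m9 h2 h3 h4 h9 h12 z3 z6 z7 h5; omega
    · clear * - m1 m2 m3 m4 m5 m6 m7 m8 m9 h2 h3 h4 h9 h12 z3 z6 z7 h6; omega
    · clear * - m1 m2 m3 m4 m5 m6 m7 m8 m9 h2 h3 h4 h9 h12 z3 z6 z7 h7; omega
    · clear * - m1 m2 m3 m4 m5 m6 m7 m8 m9 h2 h3 h4 h9 h12 z3 z6 z7 h8; omega
    · clear * - m1 m2 m3 m4 m5 m6 m7 m8 m9 h2 h3 h4 h9 h12 z3 z6 z7; omega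
    · clear * - m1 m2 m3 m4 m5 m6 m7 m8 m9 h2 h3 h4 h9 h12 z3 z6 z7 h10; omega
    · clear * - m1 m2 m3 m4 m5 m6 m7 m8 m9 h2 h3 h4 h9 h12 z3 z6 z7 h11; omega
    · clear * - m1 m2 m3 m4 m5 m6 m7 m8 m9 h2 h3 h4 h9 h12 z3 z6 z7; omega
    · clear * - m1 m2 m3 m4 m5 m6 m7 m8 m9 h2 h3 h4 h9 h12 z3 z6 z7 h13; omega
    · clear * - m1 m2 m3 m4 m5 m6 m7 m8 m9 h2 h3 h4 h9 h12 z3 z6 z7 h14; omega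
    · clear * - m1 m2 m3 m4 m5 m6 m7 m8 m9 h2 h3 h4 h9 h12 z3 z6 z7 h15; omega
    · clear * - m1 m2 m3 m4 m5 m6 m7 m8 m9 h2 h3 h4 h9 h12 z3 z6 z7 h16; omega
    · clear * - m1 m2 m3 m4 m5 m6 m7 m8 m9 h2 h3 h4 h9 h12 z3 z6 z7 h17; omega
    · clear * - m1 m2 m3 m4 m5 m6 m7 m8 m9 h2 h3 h4 h9 h12 z3 z6 z7 h18; omega
    · clear * - m1 m2 m3 m4 m5 m6 m7 m8 m9 h2 h3 h4 h9 h12 z3 z6 z7 h19; omega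
    · clear * - m1 m2 m3 m4 m5 m6 m7 m8 m9 h2 h3 h4 h9 h12 z3 z6 z7 h20; omega
    · clear * - m1 m2 m3 m4 m5 m6 m7 m8 m9 h2 h3 h4 h9 h12 z3 z6 z7 h21; omega
    · clear * - m1 m2 m3 m4 m5 m6 m7 m8 m9 h2 h3 h4 h9 h12 z3 z6 z7 h22; omega
    · clear * - m1 m2 m3 m4 m5 m6 m7 m8 m9 h2 h3 h4 h9 h12 z3 z6 z7 h23; omega
    · clear * - m1 m2 m3 m4 m5 m6 m7 m8 m9 h2 h3 h4 h9 h12 z3 z6 z7 h24; omega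
    · clear * - m1 m2 m3 m4 m5 m6 m7 m8 m9 h2 h3 h4 h9 h12 z3 z6 z7 h25; omega
    · clear * - m1 m2 m3 m4 m5 m6 m7 m8 m9 h2 h3 h4 h9 h12 z3 z6 z7 h26; omega
    · clear * - m1 m2 m3 m4 m5 m6 m7 m8 m9 h2 h3 h4 h9 h12 z3 z6 z7 h27; omega
    · clear * - m1 m2 m3 m4 m5 m6 m7 m8 m9 h2 h3 h4 h9 h12 z3 z6 z7 h28; omega
    · clear * - m1 m2 m3 m4 m5 m6 m7 m8 m9 h2 h3 h4 h9 h12 z3 z6 z7 h29; omega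
    · clear * - m1 m2 m3 m4 m5 m6 m7 m8 m9 h2 h3 h4 h9 h12 z3 z6 z7 h30; omega
  by_cases z8 : 0 < n 4
  · refine ⟨4, 9, by decide, by decide, by clear * - z3 z6 z7 z8; omega,
      fun n' hm => ?_⟩
    obtain ⟨m1, m2, m3, m4, m5, m6, m7, m8, m9⟩ := mv hm
    simp only [Fin.reduceEq, if_true, if_false] at m1 m2 m3 m4 m5 m6 m7 m8 m9
    refine ⟨c1, c2, c3, c4, b1, b3 + 1, d1, d3, p1, p2, p3, p4, p5 + 1, q1, q2, q3, q4, q5,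
      ?_, ?_, ?_, ?_, ?_, ?_, ?_, ?_, ?_, ?_, ?_, ?_, ?_, ?_, ?_, ?_, ?_, ?_, ?_, ?_, ?_, ?_, ?_, ?_, ?_, ?_, ?_, ?_, ?_, ?_⟩
    · clear * - m1 m2 m3 m4 m5 m6 m7 m8 m9 h2 h3 h4 h9 h12 z3 z6 z7 z8 h1; omega
    · clear * - m1 m2 m3 m4 m5 m6 m7 m8 m9 h2 h3 h4 h9 h12 z3 z6 z7 z8; omega
    · clear * - m1 m2 m3 m4 m5 m6 m7 m8 m9 h2 h3 h4 h9 h12 z3 z6 z7 z8; omega
    · clear * - m1 m2 m3 m4 m5 m6 m7 m8 m9 h2 h3 h4 h9 h12 z3 z6 z7 z8; omega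
    · clear * - m1 m2 m3 m4 m5 m6 m7 m8 m9 h2 h3 h4 h9 h12 z3 z6 z7 z8 h5; omega
    · clear * - m1 m2 m3 m4 m5 m6 m7 m8 m9 h2 h3 h4 h9 h12 z3 z6 z7 z8 h6; omega
    · clear * - m1 m2 m3 m4 m5 m6 m7 m8 m9 h2 h3 h4 h9 h12 z3 z6 z7 z8 h7; omega
    · clear * - m1 m2 m3 m4 m5 m6 m7 m8 m9 h2 h3 h4 h9 h12 z3 z6 z7 z8 h8; omega
    · clear * - m1 m2 m3 m4 m5 m6 m7 m8 m9 h2 h3 h4 h9 h12 z3 z6 z7 z8; omega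
    · clear * - m1 m2 m3 m4 m5 m6 m7 m8 m9 h2 h3 h4 h9 h12 z3 z6 z7 z8 h10; omega
    · clear * - m1 m2 m3 m4 m5 m6 m7 m8 m9 h2 h3 h4 h9 h12 z3 z6 z7 z8 h11; omega
    · clear * - m1 m2 m3 m4 m5 m6 m7 m8 m9 h2 h3 h4 h9 h12 z3 z6 z7 z8; omega
    · clear * - m1 m2 m3 m4 m5 m6 m7 m8 m9 h2 h3 h4 h9 h12 z3 z6 z7 z8 h13; omega
    · clear * - m1 m2 m3 m4 m5 m6 m7 m8 m9 h2 h3 h4 h9 h12 z3 z6 z7 z8 h14; omega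
    · clear * - m1 m2 m3 m4 m5 m6 m7 m8 m9 h2 h3 h4 h9 h12 z3 z6 z7 z8 h15; omega
    · clear * - m1 m2 m3 m4 m5 m6 m7 m8 m9 h2 h3 h4 h9 h12 z3 z6 z7 z8 h16; omega
    · clear * - m1 m2 m3 m4 m5 m6 m7 m8 m9 h2 h3 h4 h9 h12 z3 z6 z7 z8 h17; omega
    · clear * - m1 m2 m3 m4 m5 m6 m7 m8 m9 h2 h3 h4 h9 h12 z3 z6 z7 z8 h18; omega
    · clear * - m1 m2 m3 m4 m5 m6 m7 m8 m9 h2 h3 h4 h9 h12 z3 z6 z7 z8 h19; omega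
    · clear * - m1 m2 m3 m4 m5 m6 m7 m8 m9 h2 h3 h4 h9 h12 z3 z6 z7 z8 h20; omega
    · clear * - m1 m2 m3 m4 m5 m6 m7 m8 m9 h2 h3 h4 h9 h12 z3 z6 z7 z8 h21; omega
    · clear * - m1 m2 m3 m4 m5 m6 m7 m8 m9 h2 h3 h4 h9 h12 z3 z6 z7 z8 h22; omega
    · clear * - m1 m2 m3 m4 m5 m6 m7 m8 m9 h2 h3 h4 h9 h12 z3 z6 z7 z8 h23; omega
    · clear * - m1 m2 m3 m4 m5 m6 m7 m8 m9 h2 h3 h4 h9 h12 z3 z6 z7 z8 h24; omega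
    · clear * - m1 m2 m3 m4 m5 m6 m7 m8 m9 h2 h3 h4 h9 h12 z3 z6 z7 z8 h25; omega
    · clear * - m1 m2 m3 m4 m5 m6 m7 m8 m9 h2 h3 h4 h9 h12 z3 z6 z7 z8 h26; omega
    · clear * - m1 m2 m3 m4 m5 m6 m7 m8 m9 h2 h3 h4 h9 h12 z3 z6 z7 z8 h27; omega
    · clear * - m1 m2 m3 m4 m5 m6 m7 m8 m9 h2 h3 h4 h9 h12 z3 z6 z7 z8 h28; omega
    · clear * - m1 m2 m3 m4 m5 m6 m7 m8 m9 h2 h3 h4 h9 h12 z3 z6 z7 z8 h29 h5 h6 h7 h14 h17 h23; omega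
    · clear * - m1 m2 m3 m4 m5 m6 m7 m8 m9 h2 h3 h4 h9 h12 z3 z6 z7 z8 h30; omega
  refine ⟨0, 6, by decide, by decide, by clear * - z3 z6 z7 z8; omega,
    fun n' hm => ?_⟩
  obtain ⟨m1, m2, m3, m4, m5, m6, m7, m8, m9⟩ := mv hm
  simp only [Fin.reduceEq, if_true, if_false] at m1 m2 m3 m4 m5 m6 m7 m8 m9
  refine ⟨c1, c2, c3, c4, b1, b3 + 1, d1, d3, p1, p2, p3, p4, p5, q1, q2, q3, q4, q5,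
    ?_, ?_, ?_, ?_, ?_, ?_, ?_, ?_, ?_, ?_, ?_, ?_, ?_, ?_, ?_, ?_, ?_, ?_, ?_, ?_, ?_, ?_, ?_, ?_, ?_, ?_, ?_, ?_, ?_, ?_⟩
  · clear * - m1 m2 m3 m4 m5 m6 m7 m8 m9 h2 h3 h4 h9 h12 z3 z6 z7 z8 h1; omega
  · clear * - m1 m2 m3 m4 m5 m6 m7 m8 m9 h2 h3 h4 h9 h12 z3 z6 z7 z8; omega
  · clear * - m1 m2 m3 m4 m5 m6 m7 m8 m9 h2 h3 h4 h9 h12 z3 z6 z7 z8; omega
  · clear * - m1 m2 m3 m4 m5 m6 m7 m8 m9 h2 h3 h4 h9 h12 z3 z6 z7 z8; omega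
  · clear * - m1 m2 m3 m4 m5 m6 m7 m8 m9 h2 h3 h4 h9 h12 z3 z6 z7 z8 h5; omega
  · clear * - m1 m2 m3 m4 m5 m6 m7 m8 m9 h2 h3 h4 h9 h12 z3 z6 z7 z8 h6; omega
  · clear * - m1 m2 m3 m4 m5 m6 m7 m8 m9 h2 h3 h4 h9 h12 z3 z6 z7 z8 h7; omega
  · clear * - m1 m2 m3 m4 m5 m6 m7 m8 m9 h2 h3 h4 h9 h12 z3 z6 z7 z8 h8; omega
  · clear * - m1 m2 m3 m4 m5 m6 m7 m8 m9 h2 h3 h4 h9 h12 z3 z6 z7 z8; omega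
  · clear * - m1 m2 m3 m4 m5 m6 m7 m8 m9 h2 h3 h4 h9 h12 z3 z6 z7 z8 h10; omega
  · clear * - m1 m2 m3 m4 m5 m6 m7 m8 m9 h2 h3 h4 h9 h12 z3 z6 z7 z8 h11; omega
  · clear * - m1 m2 m3 m4 m5 m6 m7 m8 m9 h2 h3 h4 h9 h12 z3 z6 z7 z8; omega
  · clear * - m1 m2 m3 m4 m5 m6 m7 m8 m9 h2 h3 h4 h9 h12 z3 z6 z7 z8 h13; omega
  · clear * - m1 m2 m3 m4 m5 m6 m7 m8 m9 h2 h3 h4 h9 h12 z3 z6 z7 z8 h14; omega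
  · clear * - m1 m2 m3 m4 m5 m6 m7 m8 m9 h2 h3 h4 h9 h12 z3 z6 z7 z8 h15; omega
  · clear * - m1 m2 m3 m4 m5 m6 m7 m8 m9 h2 h3 h4 h9 h12 z3 z6 z7 z8 h16; omega
  · clear * - m1 m2 m3 m4 m5 m6 m7 m8 m9 h2 h3 h4 h9 h12 z3 z6 z7 z8 h17; omega
  · clear * - m1 m2 m3 m4 m5 m6 m7 m8 m9 h2 h3 h4 h9 h12 z3 z6 z7 z8 h18; omega
  · clear * - m1 m2 m3 m4 m5 m6 m7 m8 m9 h2 h3 h4 h9 h12 z3 z6 z7 z8 h19; omega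
  · clear * - m1 m2 m3 m4 m5 m6 m7 m8 m9 h2 h3 h4 h9 h12 z3 z6 z7 z8 h20; omega
  · clear * - m1 m2 m3 m4 m5 m6 m7 m8 m9 h2 h3 h4 h9 h12 z3 z6 z7 z8 h21; omega
  · clear * - m1 m2 m3 m4 m5 m6 m7 m8 m9 h2 h3 h4 h9 h12 z3 z6 z7 z8 h22; omega
  · clear * - m1 m2 m3 m4 m5 m6 m7 m8 m9 h2 h3 h4 h9 h12 z3 z6 z7 z8 h23; omega
  · clear * - m1 m2 m3 m4 m5 m6 m7 m8 m9 h2 h3 h4 h9 h12 z3 z6 z7 z8 h24; omega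
  · clear * - m1 m2 m3 m4 m5 m6 m7 m8 m9 h2 h3 h4 h9 h12 z3 z6 z7 z8 h25; omega
  · clear * - m1 m2 m3 m4 m5 m6 m7 m8 m9 h2 h3 h4 h9 h12 z3 z6 z7 z8 h26; omega
  · clear * - m1 m2 m3 m4 m5 m6 m7 m8 m9 h2 h3 h4 h9 h12 z3 z6 z7 z8 h27; omega
  · clear * - m1 m2 m3 m4 m5 m6 m7 m8 m9 h2 h3 h4 h9 h12 z3 z6 z7 z8 h28; omega
  · clear * - m1 m2 m3 m4 m5 m6 m7 m8 m9 h2 h3 h4 h9 h12 z3 z6 z7 z8 h29; omega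
  · clear * - m1 m2 m3 m4 m5 m6 m7 m8 m9 h2 h3 h4 h9 h12 z3 z6 z7 z8 h30; omega

theorem stepC {k xa xb xc xd xe : ℕ} {n : Fin 10 → ℕ} (h : GI k xa xb xc xd xe n) :
    ∃ t t' : Fin 10, Tr 1 t t' ∧ t' ≠ 0 ∧ (t.val = 0 ∨ 0 < n t) ∧
      ∀ n', Mv n n' t t' → GI k xa xb (xc + 1) xd xe n' := by
  obtain ⟨c1, c2, c3, c4, b1, b3, d1, d3, p1, p2, p3, p4, p5, q1, q2, q3, q4, q5,
    h1, h2, h3, h4, h5, h6, h7, h8, h9, h10, h11, h12, h13, h14, h15, h16, h17, h18, h19, h20, h21, h22, h23, h24, h25, h26, h27, h28, h29, h30⟩ := h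
  by_cases z9 : c1 < k
  · by_cases z10 : 0 < n 5
    · refine ⟨5, 9, by decide, by decide, by clear * - z9 z10; omega,
        fun n' hm => ?_⟩
      obtain ⟨m1, m2, m3, m4, m5, m6, m7, m8, m9⟩ := mv hm
      simp only [Fin.reduceEq, if_true, if_false] at m1 m2 m3 m4 m5 m6 m7 m8 m9
      refine ⟨c1 + 1, c2, c3, c4, b1, b3, d1, d3, p1 + 1, p2, p3, p4, p5, q1, q2, q3, q4, q5,
        ?_, ?_, ?_, ?_, ?_, ?_, ?_, ?_, ?_, ?_, ?_, ?_, ?_, ?_, ?_, ?_, ?_, ?_, ?_, ?_, ?_, ?_, ?_, ?_, ?_, ?_, ?_, ?_, ?_, ?_⟩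
      · clear * - m1 m2 m3 m4 m5 m6 m7 m8 m9 h2 h3 h4 h9 h12 z9 z10 h1; omega
      · clear * - m1 m2 m3 m4 m5 m6 m7 m8 m9 h2 h3 h4 h9 h12 z9 z10; omega
      · clear * - m1 m2 m3 m4 m5 m6 m7 m8 m9 h2 h3 h4 h9 h12 z9 z10; omega
      · clear * - m1 m2 m3 m4 m5 m6 m7 m8 m9 h2 h3 h4 h9 h12 z9 z10; omega
      · clear * - m1 m2 m3 m4 m5 m6 m7 m8 m9 h2 h3 h4 h9 h12 z9 z10 h5; omega
      · clear * - m1 m2 m3 m4 m5 m6 m7 m8 m9 h2 h3 h4 h9 h12 z9 z10 h6; omega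
      · clear * - m1 m2 m3 m4 m5 m6 m7 m8 m9 h2 h3 h4 h9 h12 z9 z10 h7; omega
      · clear * - m1 m2 m3 m4 m5 m6 m7 m8 m9 h2 h3 h4 h9 h12 z9 z10 h8; omega
      · clear * - m1 m2 m3 m4 m5 m6 m7 m8 m9 h2 h3 h4 h9 h12 z9 z10; omega
      · clear * - m1 m2 m3 m4 m5 m6 m7 m8 m9 h2 h3 h4 h9 h12 z9 z10 h10; omega
      · clear * - m1 m2 m3 m4 m5 m6 m7 m8 m9 h2 h3 h4 h9 h12 z9 z10 h11; omega
      · clear * - m1 m2 m3 m4 m5 m6 m7 m8 m9 h2 h3 h4 h9 h12 z9 z10; omega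
      · clear * - m1 m2 m3 m4 m5 m6 m7 m8 m9 h2 h3 h4 h9 h12 z9 z10 h13; omega
      · clear * - m1 m2 m3 m4 m5 m6 m7 m8 m9 h2 h3 h4 h9 h12 z9 z10 h14; omega
      · clear * - m1 m2 m3 m4 m5 m6 m7 m8 m9 h2 h3 h4 h9 h12 z9 z10 h15; omega
      · clear * - m1 m2 m3 m4 m5 m6 m7 m8 m9 h2 h3 h4 h9 h12 z9 z10 h16; omega
      · clear * - m1 m2 m3 m4 m5 m6 m7 m8 m9 h2 h3 h4 h9 h12 z9 z10 h17; omega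
      · clear * - m1 m2 m3 m4 m5 m6 m7 m8 m9 h2 h3 h4 h9 h12 z9 z10 h18; omega
      · clear * - m1 m2 m3 m4 m5 m6 m7 m8 m9 h2 h3 h4 h9 h12 z9 z10 h19; omega
      · clear * - m1 m2 m3 m4 m5 m6 m7 m8 m9 h2 h3 h4 h9 h12 z9 z10 h20; omega
      · clear * - m1 m2 m3 m4 m5 m6 m7 m8 m9 h2 h3 h4 h9 h12 z9 z10 h21; omega
      · clear * - m1 m2 m3 m4 m5 m6 m7 m8 m9 h2 h3 h4 h9 h12 z9 z10 h22; omega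
      · clear * - m1 m2 m3 m4 m5 m6 m7 m8 m9 h2 h3 h4 h9 h12 z9 z10 h23; omega
      · clear * - m1 m2 m3 m4 m5 m6 m7 m8 m9 h2 h3 h4 h9 h12 z9 z10 h24; omega
      · clear * - m1 m2 m3 m4 m5 m6 m7 m8 m9 h2 h3 h4 h9 h12 z9 z10 h25; omega
      · clear * - m1 m2 m3 m4 m5 m6 m7 m8 m9 h2 h3 h4 h9 h12 z9 z10 h26; omega
      · clear * - m1 m2 m3 m4 m5 m6 m7 m8 m9 h2 h3 h4 h9 h12 z9 z10 h27; omega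
      · clear * - m1 m2 m3 m4 m5 m6 m7 m8 m9 h2 h3 h4 h9 h12 z9 z10 h28; omega
      · clear * - m1 m2 m3 m4 m5 m6 m7 m8 m9 h2 h3 h4 h9 h12 z9 z10 h29; omega
      · clear * - m1 m2 m3 m4 m5 m6 m7 m8 m9 h2 h3 h4 h9 h12 z9 z10 h30; omega
    by_cases z11 : 0 < n 6
    · refine ⟨6, 9, by decide, by decide, by clear * - z9 z10 z11; omega,
        fun n' hm => ?_⟩
      obtain ⟨m1, m2, m3, m4, m5, m6, m7, m8, m9⟩ := mv hm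
      simp only [Fin.reduceEq, if_true, if_false] at m1 m2 m3 m4 m5 m6 m7 m8 m9
      refine ⟨c1 + 1, c2, c3, c4, b1, b3, d1, d3, p1, p2 + 1, p3, p4, p5, q1, q2, q3, q4, q5,
        ?_, ?_, ?_, ?_, ?_, ?_, ?_, ?_, ?_, ?_, ?_, ?_, ?_, ?_, ?_, ?_, ?_, ?_, ?_, ?_, ?_, ?_, ?_, ?_, ?_, ?_, ?_, ?_, ?_, ?_⟩
      · clear * - m1 m2 m3 m4 m5 m6 m7 m8 m9 h2 h3 h4 h9 h12 z9 z10 z11 h1; omega
      · clear * - m1 m2 m3 m4 m5 m6 m7 m8 m9 h2 h3 h4 h9 h12 z9 z10 z11; omega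
      · clear * - m1 m2 m3 m4 m5 m6 m7 m8 m9 h2 h3 h4 h9 h12 z9 z10 z11; omega
      · clear * - m1 m2 m3 m4 m5 m6 m7 m8 m9 h2 h3 h4 h9 h12 z9 z10 z11; omega
      · clear * - m1 m2 m3 m4 m5 m6 m7 m8 m9 h2 h3 h4 h9 h12 z9 z10 z11 h5; omega
      · clear * - m1 m2 m3 m4 m5 m6 m7 m8 m9 h2 h3 h4 h9 h12 z9 z10 z11 h6; omega
      · clear * - m1 m2 m3 m4 m5 m6 m7 m8 m9 h2 h3 h4 h9 h12 z9 z10 z11 h7; omega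
      · clear * - m1 m2 m3 m4 m5 m6 m7 m8 m9 h2 h3 h4 h9 h12 z9 z10 z11 h8; omega
      · clear * - m1 m2 m3 m4 m5 m6 m7 m8 m9 h2 h3 h4 h9 h12 z9 z10 z11; omega
      · clear * - m1 m2 m3 m4 m5 m6 m7 m8 m9 h2 h3 h4 h9 h12 z9 z10 z11 h10; omega
      · clear * - m1 m2 m3 m4 m5 m6 m7 m8 m9 h2 h3 h4 h9 h12 z9 z10 z11 h11; omega
      · clear * - m1 m2 m3 m4 m5 m6 m7 m8 m9 h2 h3 h4 h9 h12 z9 z10 z11; omega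
      · clear * - m1 m2 m3 m4 m5 m6 m7 m8 m9 h2 h3 h4 h9 h12 z9 z10 z11 h13; omega
      · clear * - m1 m2 m3 m4 m5 m6 m7 m8 m9 h2 h3 h4 h9 h12 z9 z10 z11 h14; omega
      · clear * - m1 m2 m3 m4 m5 m6 m7 m8 m9 h2 h3 h4 h9 h12 z9 z10 z11 h15; omega
      · clear * - m1 m2 m3 m4 m5 m6 m7 m8 m9 h2 h3 h4 h9 h12 z9 z10 z11 h16; omega
      · clear * - m1 m2 m3 m4 m5 m6 m7 m8 m9 h2 h3 h4 h9 h12 z9 z10 z11 h17; omega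
      · clear * - m1 m2 m3 m4 m5 m6 m7 m8 m9 h2 h3 h4 h9 h12 z9 z10 z11 h18; omega
      · clear * - m1 m2 m3 m4 m5 m6 m7 m8 m9 h2 h3 h4 h9 h12 z9 z10 z11 h19; omega
      · clear * - m1 m2 m3 m4 m5 m6 m7 m8 m9 h2 h3 h4 h9 h12 z9 z10 z11 h20; omega
      · clear * - m1 m2 m3 m4 m5 m6 m7 m8 m9 h2 h3 h4 h9 h12 z9 z10 z11 h21; omega
      · clear * - m1 m2 m3 m4 m5 m6 m7 m8 m9 h2 h3 h4 h9 h12 z9 z10 z11 h22; omega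
      · clear * - m1 m2 m3 m4 m5 m6 m7 m8 m9 h2 h3 h4 h9 h12 z9 z10 z11 h23; omega
      · clear * - m1 m2 m3 m4 m5 m6 m7 m8 m9 h2 h3 h4 h9 h12 z9 z10 z11 h24; omega
      · clear * - m1 m2 m3 m4 m5 m6 m7 m8 m9 h2 h3 h4 h9 h12 z9 z10 z11 h25; omega
      · clear * - m1 m2 m3 m4 m5 m6 m7 m8 m9 h2 h3 h4 h9 h12 z9 z10 z11 h26; omega
      · clear * - m1 m2 m3 m4 m5 m6 m7 m8 m9 h2 h3 h4 h9 h12 z9 z10 z11 h27; omega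
      · clear * - m1 m2 m3 m4 m5 m6 m7 m8 m9 h2 h3 h4 h9 h12 z9 z10 z11 h28; omega
      · clear * - m1 m2 m3 m4 m5 m6 m7 m8 m9 h2 h3 h4 h9 h12 z9 z10 z11 h29; omega
      · clear * - m1 m2 m3 m4 m5 m6 m7 m8 m9 h2 h3 h4 h9 h12 z9 z10 z11 h30; omega
    refine ⟨0, 1, by decide, by decide, by clear * - z9 z10 z11; omega,
      fun n' hm => ?_⟩
    obtain ⟨m1, m2, m3, m4, m5, m6, m7, m8, m9⟩ := mv hm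
    simp only [Fin.reduceEq, if_true, if_false] at m1 m2 m3 m4 m5 m6 m7 m8 m9
    refine ⟨c1 + 1, c2, c3, c4, b1, b3, d1, d3, p1, p2, p3, p4, p5, q1, q2, q3, q4, q5,
      ?_, ?_, ?_, ?_, ?_, ?_, ?_, ?_, ?_, ?_, ?_, ?_, ?_, ?_, ?_, ?_, ?_, ?_, ?_, ?_, ?_, ?_, ?_, ?_, ?_, ?_, ?_, ?_, ?_, ?_⟩
    · clear * - m1 m2 m3 m4 m5 m6 m7 m8 m9 h2 h3 h4 h9 h12 z9 z10 z11 h1; omega
    · clear * - m1 m2 m3 m4 m5 m6 m7 m8 m9 h2 h3 h4 h9 h12 z9 z10 z11; omega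
    · clear * - m1 m2 m3 m4 m5 m6 m7 m8 m9 h2 h3 h4 h9 h12 z9 z10 z11; omega
    · clear * - m1 m2 m3 m4 m5 m6 m7 m8 m9 h2 h3 h4 h9 h12 z9 z10 z11; omega
    · clear * - m1 m2 m3 m4 m5 m6 m7 m8 m9 h2 h3 h4 h9 h12 z9 z10 z11 h5; omega
    · clear * - m1 m2 m3 m4 m5 m6 m7 m8 m9 h2 h3 h4 h9 h12 z9 z10 z11 h6; omega
    · clear * - m1 m2 m3 m4 m5 m6 m7 m8 m9 h2 h3 h4 h9 h12 z9 z10 z11 h7; omega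
    · clear * - m1 m2 m3 m4 m5 m6 m7 m8 m9 h2 h3 h4 h9 h12 z9 z10 z11 h8; omega
    · clear * - m1 m2 m3 m4 m5 m6 m7 m8 m9 h2 h3 h4 h9 h12 z9 z10 z11; omega
    · clear * - m1 m2 m3 m4 m5 m6 m7 m8 m9 h2 h3 h4 h9 h12 z9 z10 z11 h10; omega
    · clear * - m1 m2 m3 m4 m5 m6 m7 m8 m9 h2 h3 h4 h9 h12 z9 z10 z11 h11; omega
    · clear * - m1 m2 m3 m4 m5 m6 m7 m8 m9 h2 h3 h4 h9 h12 z9 z10 z11; omega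
    · clear * - m1 m2 m3 m4 m5 m6 m7 m8 m9 h2 h3 h4 h9 h12 z9 z10 z11 h13; omega
    · clear * - m1 m2 m3 m4 m5 m6 m7 m8 m9 h2 h3 h4 h9 h12 z9 z10 z11 h14; omega
    · clear * - m1 m2 m3 m4 m5 m6 m7 m8 m9 h2 h3 h4 h9 h12 z9 z10 z11 h15; omega
    · clear * - m1 m2 m3 m4 m5 m6 m7 m8 m9 h2 h3 h4 h9 h12 z9 z10 z11 h16; omega
    · clear * - m1 m2 m3 m4 m5 m6 m7 m8 m9 h2 h3 h4 h9 h12 z9 z10 z11 h17; omega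
    · clear * - m1 m2 m3 m4 m5 m6 m7 m8 m9 h2 h3 h4 h9 h12 z9 z10 z11 h18; omega
    · clear * - m1 m2 m3 m4 m5 m6 m7 m8 m9 h2 h3 h4 h9 h12 z9 z10 z11 h19; omega
    · clear * - m1 m2 m3 m4 m5 m6 m7 m8 m9 h2 h3 h4 h9 h12 z9 z10 z11 h20; omega
    · clear * - m1 m2 m3 m4 m5 m6 m7 m8 m9 h2 h3 h4 h9 h12 z9 z10 z11 h21; omega
    · clear * - m1 m2 m3 m4 m5 m6 m7 m8 m9 h2 h3 h4 h9 h12 z9 z10 z11 h22; omega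
    · clear * - m1 m2 m3 m4 m5 m6 m7 m8 m9 h2 h3 h4 h9 h12 z9 z10 z11 h23; omega
    · clear * - m1 m2 m3 m4 m5 m6 m7 m8 m9 h2 h3 h4 h9 h12 z9 z10 z11 h24; omega
    · clear * - m1 m2 m3 m4 m5 m6 m7 m8 m9 h2 h3 h4 h9 h12 z9 z10 z11 h25; omega
    · clear * - m1 m2 m3 m4 m5 m6 m7 m8 m9 h2 h3 h4 h9 h12 z9 z10 z11 h26; omega
    · clear * - m1 m2 m3 m4 m5 m6 m7 m8 m9 h2 h3 h4 h9 h12 z9 z10 z11 h27; omega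
    · clear * - m1 m2 m3 m4 m5 m6 m7 m8 m9 h2 h3 h4 h9 h12 z9 z10 z11 h28; omega
    · clear * - m1 m2 m3 m4 m5 m6 m7 m8 m9 h2 h3 h4 h9 h12 z9 z10 z11 h29; omega
    · clear * - m1 m2 m3 m4 m5 m6 m7 m8 m9 h2 h3 h4 h9 h12 z9 z10 z11 h30; omega
  by_cases z12 : c2 < k
  · by_cases z13 : 0 < n 7
    · refine ⟨7, 9, by decide, by decide, by clear * - z9 z12 z13; omega,
        fun n' hm => ?_⟩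
      obtain ⟨m1, m2, m3, m4, m5, m6, m7, m8, m9⟩ := mv hm
      simp only [Fin.reduceEq, if_true, if_false] at m1 m2 m3 m4 m5 m6 m7 m8 m9
      refine ⟨c1, c2 + 1, c3, c4, b1, b3, d1, d3, p1, p2, p3, p4, p5, q1 + 1, q2, q3, q4, q5,
        ?_, ?_, ?_, ?_, ?_, ?_, ?_, ?_, ?_, ?_, ?_, ?_, ?_, ?_, ?_, ?_, ?_, ?_, ?_, ?_, ?_, ?_, ?_, ?_, ?_, ?_, ?_, ?_, ?_, ?_⟩
      · clear * - m1 m2 m3 m4 m5 m6 m7 m8 m9 h2 h3 h4 h9 h12 z9 z12 z13 h1; omega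
      · clear * - m1 m2 m3 m4 m5 m6 m7 m8 m9 h2 h3 h4 h9 h12 z9 z12 z13; omega
      · clear * - m1 m2 m3 m4 m5 m6 m7 m8 m9 h2 h3 h4 h9 h12 z9 z12 z13; omega
      · clear * - m1 m2 m3 m4 m5 m6 m7 m8 m9 h2 h3 h4 h9 h12 z9 z12 z13; omega
      · clear * - m1 m2 m3 m4 m5 m6 m7 m8 m9 h2 h3 h4 h9 h12 z9 z12 z13 h5; omega
      · clear * - m1 m2 m3 m4 m5 m6 m7 m8 m9 h2 h3 h4 h9 h12 z9 z12 z13 h6; omega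
      · clear * - m1 m2 m3 m4 m5 m6 m7 m8 m9 h2 h3 h4 h9 h12 z9 z12 z13 h7; omega
      · clear * - m1 m2 m3 m4 m5 m6 m7 m8 m9 h2 h3 h4 h9 h12 z9 z12 z13 h8; omega
      · clear * - m1 m2 m3 m4 m5 m6 m7 m8 m9 h2 h3 h4 h9 h12 z9 z12 z13; omega
      · clear * - m1 m2 m3 m4 m5 m6 m7 m8 m9 h2 h3 h4 h9 h12 z9 z12 z13 h10; omega
      · clear * - m1 m2 m3 m4 m5 m6 m7 m8 m9 h2 h3 h4 h9 h12 z9 z12 z13 h11; omega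
      · clear * - m1 m2 m3 m4 m5 m6 m7 m8 m9 h2 h3 h4 h9 h12 z9 z12 z13; omega
      · clear * - m1 m2 m3 m4 m5 m6 m7 m8 m9 h2 h3 h4 h9 h12 z9 z12 z13 h13; omega
      · clear * - m1 m2 m3 m4 m5 m6 m7 m8 m9 h2 h3 h4 h9 h12 z9 z12 z13 h14; omega
      · clear * - m1 m2 m3 m4 m5 m6 m7 m8 m9 h2 h3 h4 h9 h12 z9 z12 z13 h15; omega
      · clear * - m1 m2 m3 m4 m5 m6 m7 m8 m9 h2 h3 h4 h9 h12 z9 z12 z13 h16; omega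
      · clear * - m1 m2 m3 m4 m5 m6 m7 m8 m9 h2 h3 h4 h9 h12 z9 z12 z13 h17; omega
      · clear * - m1 m2 m3 m4 m5 m6 m7 m8 m9 h2 h3 h4 h9 h12 z9 z12 z13 h18; omega
      · clear * - m1 m2 m3 m4 m5 m6 m7 m8 m9 h2 h3 h4 h9 h12 z9 z12 z13 h19; omega
      · clear * - m1 m2 m3 m4 m5 m6 m7 m8 m9 h2 h3 h4 h9 h12 z9 z12 z13 h20; omega
      · clear * - m1 m2 m3 m4 m5 m6 m7 m8 m9 h2 h3 h4 h9 h12 z9 z12 z13 h21; omega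
      · clear * - m1 m2 m3 m4 m5 m6 m7 m8 m9 h2 h3 h4 h9 h12 z9 z12 z13 h22; omega
      · clear * - m1 m2 m3 m4 m5 m6 m7 m8 m9 h2 h3 h4 h9 h12 z9 z12 z13 h23; omega
      · clear * - m1 m2 m3 m4 m5 m6 m7 m8 m9 h2 h3 h4 h9 h12 z9 z12 z13 h24; omega
      · clear * - m1 m2 m3 m4 m5 m6 m7 m8 m9 h2 h3 h4 h9 h12 z9 z12 z13 h25; omega
      · clear * - m1 m2 m3 m4 m5 m6 m7 m8 m9 h2 h3 h4 h9 h12 z9 z12 z13 h26; omega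
      · clear * - m1 m2 m3 m4 m5 m6 m7 m8 m9 h2 h3 h4 h9 h12 z9 z12 z13 h27; omega
      · clear * - m1 m2 m3 m4 m5 m6 m7 m8 m9 h2 h3 h4 h9 h12 z9 z12 z13 h28; omega
      · clear * - m1 m2 m3 m4 m5 m6 m7 m8 m9 h2 h3 h4 h9 h12 z9 z12 z13 h29; omega
      · clear * - m1 m2 m3 m4 m5 m6 m7 m8 m9 h2 h3 h4 h9 h12 z9 z12 z13 h30; omega
    by_cases z14 : 0 < n 8
    · refine ⟨8, 9, by decide, by decide, by clear * - z9 z12 z13 z14; omega,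
        fun n' hm => ?_⟩
      obtain ⟨m1, m2, m3, m4, m5, m6, m7, m8, m9⟩ := mv hm
      simp only [Fin.reduceEq, if_true, if_false] at m1 m2 m3 m4 m5 m6 m7 m8 m9
      refine ⟨c1, c2 + 1, c3, c4, b1, b3, d1, d3, p1, p2, p3, p4, p5, q1, q2 + 1, q3, q4, q5,
        ?_, ?_, ?_, ?_, ?_, ?_, ?_, ?_, ?_, ?_, ?_, ?_, ?_, ?_, ?_, ?_, ?_, ?_, ?_, ?_, ?_, ?_, ?_, ?_, ?_, ?_, ?_, ?_, ?_, ?_⟩
      · clear * - m1 m2 m3 m4 m5 m6 m7 m8 m9 h2 h3 h4 h9 h12 z9 z12 z13 z14 h1; omega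
      · clear * - m1 m2 m3 m4 m5 m6 m7 m8 m9 h2 h3 h4 h9 h12 z9 z12 z13 z14; omega
      · clear * - m1 m2 m3 m4 m5 m6 m7 m8 m9 h2 h3 h4 h9 h12 z9 z12 z13 z14; omega
      · clear * - m1 m2 m3 m4 m5 m6 m7 m8 m9 h2 h3 h4 h9 h12 z9 z12 z13 z14; omega
      · clear * - m1 m2 m3 m4 m5 m6 m7 m8 m9 h2 h3 h4 h9 h12 z9 z12 z13 z14 h5; omega
      · clear * - m1 m2 m3 m4 m5 m6 m7 m8 m9 h2 h3 h4 h9 h12 z9 z12 z13 z14 h6; omega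
      · clear * - m1 m2 m3 m4 m5 m6 m7 m8 m9 h2 h3 h4 h9 h12 z9 z12 z13 z14 h7; omega
      · clear * - m1 m2 m3 m4 m5 m6 m7 m8 m9 h2 h3 h4 h9 h12 z9 z12 z13 z14 h8; omega
      · clear * - m1 m2 m3 m4 m5 m6 m7 m8 m9 h2 h3 h4 h9 h12 z9 z12 z13 z14; omega
      · clear * - m1 m2 m3 m4 m5 m6 m7 m8 m9 h2 h3 h4 h9 h12 z9 z12 z13 z14 h10; omega
      · clear * - m1 m2 m3 m4 m5 m6 m7 m8 m9 h2 h3 h4 h9 h12 z9 z12 z13 z14 h11; omega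
      · clear * - m1 m2 m3 m4 m5 m6 m7 m8 m9 h2 h3 h4 h9 h12 z9 z12 z13 z14; omega
      · clear * - m1 m2 m3 m4 m5 m6 m7 m8 m9 h2 h3 h4 h9 h12 z9 z12 z13 z14 h13; omega
      · clear * - m1 m2 m3 m4 m5 m6 m7 m8 m9 h2 h3 h4 h9 h12 z9 z12 z13 z14 h14; omega
      · clear * - m1 m2 m3 m4 m5 m6 m7 m8 m9 h2 h3 h4 h9 h12 z9 z12 z13 z14 h15; omega
      · clear * - m1 m2 m3 m4 m5 m6 m7 m8 m9 h2 h3 h4 h9 h12 z9 z12 z13 z14 h16; omega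
      · clear * - m1 m2 m3 m4 m5 m6 m7 m8 m9 h2 h3 h4 h9 h12 z9 z12 z13 z14 h17; omega
      · clear * - m1 m2 m3 m4 m5 m6 m7 m8 m9 h2 h3 h4 h9 h12 z9 z12 z13 z14 h18; omega
      · clear * - m1 m2 m3 m4 m5 m6 m7 m8 m9 h2 h3 h4 h9 h12 z9 z12 z13 z14 h19; omega
      · clear * - m1 m2 m3 m4 m5 m6 m7 m8 m9 h2 h3 h4 h9 h12 z9 z12 z13 z14 h20; omega
      · clear * - m1 m2 m3 m4 m5 m6 m7 m8 m9 h2 h3 h4 h9 h12 z9 z12 z13 z14 h21; omega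
      · clear * - m1 m2 m3 m4 m5 m6 m7 m8 m9 h2 h3 h4 h9 h12 z9 z12 z13 z14 h22; omega
      · clear * - m1 m2 m3 m4 m5 m6 m7 m8 m9 h2 h3 h4 h9 h12 z9 z12 z13 z14 h23; omega
      · clear * - m1 m2 m3 m4 m5 m6 m7 m8 m9 h2 h3 h4 h9 h12 z9 z12 z13 z14 h24; omega
      · clear * - m1 m2 m3 m4 m5 m6 m7 m8 m9 h2 h3 h4 h9 h12 z9 z12 z13 z14 h25; omega
      · clear * - m1 m2 m3 m4 m5 m6 m7 m8 m9 h2 h3 h4 h9 h12 z9 z12 z13 z14 h26; omega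
      · clear * - m1 m2 m3 m4 m5 m6 m7 m8 m9 h2 h3 h4 h9 h12 z9 z12 z13 z14 h27; omega
      · clear * - m1 m2 m3 m4 m5 m6 m7 m8 m9 h2 h3 h4 h9 h12 z9 z12 z13 z14 h28; omega
      · clear * - m1 m2 m3 m4 m5 m6 m7 m8 m9 h2 h3 h4 h9 h12 z9 z12 z13 z14 h29; omega
      · clear * - m1 m2 m3 m4 m5 m6 m7 m8 m9 h2 h3 h4 h9 h12 z9 z12 z13 z14 h30; omega
    refine ⟨0, 2, by decide, by decide, by clear * - z9 z12 z13 z14; omega,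
      fun n' hm => ?_⟩
    obtain ⟨m1, m2, m3, m4, m5, m6, m7, m8, m9⟩ := mv hm
    simp only [Fin.reduceEq, if_true, if_false] at m1 m2 m3 m4 m5 m6 m7 m8 m9
    refine ⟨c1, c2 + 1, c3, c4, b1, b3, d1, d3, p1, p2, p3, p4, p5, q1, q2, q3, q4, q5,
      ?_, ?_, ?_, ?_, ?_, ?_, ?_, ?_, ?_, ?_, ?_, ?_, ?_, ?_, ?_, ?_, ?_, ?_, ?_, ?_, ?_, ?_, ?_, ?_, ?_, ?_, ?_, ?_, ?_, ?_⟩
    · clear * - m1 m2 m3 m4 m5 m6 m7 m8 m9 h2 h3 h4 h9 h12 z9 z12 z13 z14 h1; omega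
    · clear * - m1 m2 m3 m4 m5 m6 m7 m8 m9 h2 h3 h4 h9 h12 z9 z12 z13 z14; omega
    · clear * - m1 m2 m3 m4 m5 m6 m7 m8 m9 h2 h3 h4 h9 h12 z9 z12 z13 z14; omega
    · clear * - m1 m2 m3 m4 m5 m6 m7 m8 m9 h2 h3 h4 h9 h12 z9 z12 z13 z14; omega
    · clear * - m1 m2 m3 m4 m5 m6 m7 m8 m9 h2 h3 h4 h9 h12 z9 z12 z13 z14 h5; omega
    · clear * - m1 m2 m3 m4 m5 m6 m7 m8 m9 h2 h3 h4 h9 h12 z9 z12 z13 z14 h6; omega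
    · clear * - m1 m2 m3 m4 m5 m6 m7 m8 m9 h2 h3 h4 h9 h12 z9 z12 z13 z14 h7; omega
    · clear * - m1 m2 m3 m4 m5 m6 m7 m8 m9 h2 h3 h4 h9 h12 z9 z12 z13 z14 h8; omega
    · clear * - m1 m2 m3 m4 m5 m6 m7 m8 m9 h2 h3 h4 h9 h12 z9 z12 z13 z14; omega
    · clear * - m1 m2 m3 m4 m5 m6 m7 m8 m9 h2 h3 h4 h9 h12 z9 z12 z13 z14 h10; omega
    · clear * - m1 m2 m3 m4 m5 m6 m7 m8 m9 h2 h3 h4 h9 h12 z9 z12 z13 z14 h11; omega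
    · clear * - m1 m2 m3 m4 m5 m6 m7 m8 m9 h2 h3 h4 h9 h12 z9 z12 z13 z14; omega
    · clear * - m1 m2 m3 m4 m5 m6 m7 m8 m9 h2 h3 h4 h9 h12 z9 z12 z13 z14 h13; omega
    · clear * - m1 m2 m3 m4 m5 m6 m7 m8 m9 h2 h3 h4 h9 h12 z9 z12 z13 z14 h14; omega
    · clear * - m1 m2 m3 m4 m5 m6 m7 m8 m9 h2 h3 h4 h9 h12 z9 z12 z13 z14 h15; omega
    · clear * - m1 m2 m3 m4 m5 m6 m7 m8 m9 h2 h3 h4 h9 h12 z9 z12 z13 z14 h16; omega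
    · clear * - m1 m2 m3 m4 m5 m6 m7 m8 m9 h2 h3 h4 h9 h12 z9 z12 z13 z14 h17; omega
    · clear * - m1 m2 m3 m4 m5 m6 m7 m8 m9 h2 h3 h4 h9 h12 z9 z12 z13 z14 h18; omega
    · clear * - m1 m2 m3 m4 m5 m6 m7 m8 m9 h2 h3 h4 h9 h12 z9 z12 z13 z14 h19; omega
    · clear * - m1 m2 m3 m4 m5 m6 m7 m8 m9 h2 h3 h4 h9 h12 z9 z12 z13 z14 h20; omega
    · clear * - m1 m2 m3 m4 m5 m6 m7 m8 m9 h2 h3 h4 h9 h12 z9 z12 z13 z14 h21; omega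
    · clear * - m1 m2 m3 m4 m5 m6 m7 m8 m9 h2 h3 h4 h9 h12 z9 z12 z13 z14 h22; omega
    · clear * - m1 m2 m3 m4 m5 m6 m7 m8 m9 h2 h3 h4 h9 h12 z9 z12 z13 z14 h23; omega
    · clear * - m1 m2 m3 m4 m5 m6 m7 m8 m9 h2 h3 h4 h9 h12 z9 z12 z13 z14 h24; omega
    · clear * - m1 m2 m3 m4 m5 m6 m7 m8 m9 h2 h3 h4 h9 h12 z9 z12 z13 z14 h25; omega
    · clear * - m1 m2 m3 m4 m5 m6 m7 m8 m9 h2 h3 h4 h9 h12 z9 z12 z13 z14 h26; omega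
    · clear * - m1 m2 m3 m4 m5 m6 m7 m8 m9 h2 h3 h4 h9 h12 z9 z12 z13 z14 h27; omega
    · clear * - m1 m2 m3 m4 m5 m6 m7 m8 m9 h2 h3 h4 h9 h12 z9 z12 z13 z14 h28; omega
    · clear * - m1 m2 m3 m4 m5 m6 m7 m8 m9 h2 h3 h4 h9 h12 z9 z12 z13 z14 h29; omega
    · clear * - m1 m2 m3 m4 m5 m6 m7 m8 m9 h2 h3 h4 h9 h12 z9 z12 z13 z14 h30; omega
  by_cases z15 : c3 < k
  · by_cases z16 : 0 < n 6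
    · refine ⟨6, 9, by decide, by decide, by clear * - z9 z12 z15 z16; omega,
        fun n' hm => ?_⟩
      obtain ⟨m1, m2, m3, m4, m5, m6, m7, m8, m9⟩ := mv hm
      simp only [Fin.reduceEq, if_true, if_false] at m1 m2 m3 m4 m5 m6 m7 m8 m9
      refine ⟨c1, c2, c3 + 1, c4, b1, b3, d1, d3, p1, p2, p3 + 1, p4, p5, q1, q2, q3, q4, q5,
        ?_, ?_, ?_, ?_, ?_, ?_, ?_, ?_, ?_, ?_, ?_, ?_, ?_, ?_, ?_, ?_, ?_, ?_, ?_, ?_, ?_, ?_, ?_, ?_, ?_, ?_, ?_, ?_, ?_, ?_⟩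
      · clear * - m1 m2 m3 m4 m5 m6 m7 m8 m9 h2 h3 h4 h9 h12 z9 z12 z15 z16 h1; omega
      · clear * - m1 m2 m3 m4 m5 m6 m7 m8 m9 h2 h3 h4 h9 h12 z9 z12 z15 z16; omega
      · clear * - m1 m2 m3 m4 m5 m6 m7 m8 m9 h2 h3 h4 h9 h12 z9 z12 z15 z16; omega
      · clear * - m1 m2 m3 m4 m5 m6 m7 m8 m9 h2 h3 h4 h9 h12 z9 z12 z15 z16; omega
      · clear * - m1 m2 m3 m4 m5 m6 m7 m8 m9 h2 h3 h4 h9 h12 z9 z12 z15 z16 h5; omega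
      · clear * - m1 m2 m3 m4 m5 m6 m7 m8 m9 h2 h3 h4 h9 h12 z9 z12 z15 z16 h6; omega
      · clear * - m1 m2 m3 m4 m5 m6 m7 m8 m9 h2 h3 h4 h9 h12 z9 z12 z15 z16 h7; omega
      · clear * - m1 m2 m3 m4 m5 m6 m7 m8 m9 h2 h3 h4 h9 h12 z9 z12 z15 z16 h8; omega
      · clear * - m1 m2 m3 m4 m5 m6 m7 m8 m9 h2 h3 h4 h9 h12 z9 z12 z15 z16; omega
      · clear * - m1 m2 m3 m4 m5 m6 m7 m8 m9 h2 h3 h4 h9 h12 z9 z12 z15 z16 h10; omega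
      · clear * - m1 m2 m3 m4 m5 m6 m7 m8 m9 h2 h3 h4 h9 h12 z9 z12 z15 z16 h11; omega
      · clear * - m1 m2 m3 m4 m5 m6 m7 m8 m9 h2 h3 h4 h9 h12 z9 z12 z15 z16; omega
      · clear * - m1 m2 m3 m4 m5 m6 m7 m8 m9 h2 h3 h4 h9 h12 z9 z12 z15 z16 h13; omega
      · clear * - m1 m2 m3 m4 m5 m6 m7 m8 m9 h2 h3 h4 h9 h12 z9 z12 z15 z16 h14; omega
      · clear * - m1 m2 m3 m4 m5 m6 m7 m8 m9 h2 h3 h4 h9 h12 z9 z12 z15 z16 h15; omega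
      · clear * - m1 m2 m3 m4 m5 m6 m7 m8 m9 h2 h3 h4 h9 h12 z9 z12 z15 z16 h16; omega
      · clear * - m1 m2 m3 m4 m5 m6 m7 m8 m9 h2 h3 h4 h9 h12 z9 z12 z15 z16 h17; omega
      · clear * - m1 m2 m3 m4 m5 m6 m7 m8 m9 h2 h3 h4 h9 h12 z9 z12 z15 z16 h18; omega
      · clear * - m1 m2 m3 m4 m5 m6 m7 m8 m9 h2 h3 h4 h9 h12 z9 z12 z15 z16 h19; omega
      · clear * - m1 m2 m3 m4 m5 m6 m7 m8 m9 h2 h3 h4 h9 h12 z9 z12 z15 z16 h20; omega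
      · clear * - m1 m2 m3 m4 m5 m6 m7 m8 m9 h2 h3 h4 h9 h12 z9 z12 z15 z16 h21; omega
      · clear * - m1 m2 m3 m4 m5 m6 m7 m8 m9 h2 h3 h4 h9 h12 z9 z12 z15 z16 h22; omega
      · clear * - m1 m2 m3 m4 m5 m6 m7 m8 m9 h2 h3 h4 h9 h12 z9 z12 z15 z16 h23; omega
      · clear * - m1 m2 m3 m4 m5 m6 m7 m8 m9 h2 h3 h4 h9 h12 z9 z12 z15 z16 h24; omega
      · clear * - m1 m2 m3 m4 m5 m6 m7 m8 m9 h2 h3 h4 h9 h12 z9 z12 z15 z16 h25; omega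
      · clear * - m1 m2 m3 m4 m5 m6 m7 m8 m9 h2 h3 h4 h9 h12 z9 z12 z15 z16 h26; omega
      · clear * - m1 m2 m3 m4 m5 m6 m7 m8 m9 h2 h3 h4 h9 h12 z9 z12 z15 z16 h27; omega
      · clear * - m1 m2 m3 m4 m5 m6 m7 m8 m9 h2 h3 h4 h9 h12 z9 z12 z15 z16 h28; omega
      · clear * - m1 m2 m3 m4 m5 m6 m7 m8 m9 h2 h3 h4 h9 h12 z9 z12 z15 z16 h29; omega
      · clear * - m1 m2 m3 m4 m5 m6 m7 m8 m9 h2 h3 h4 h9 h12 z9 z12 z15 z16 h30; omega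
    by_cases z17 : 0 < n 8
    · refine ⟨8, 9, by decide, by decide, by clear * - z9 z12 z15 z16 z17; omega,
        fun n' hm => ?_⟩
      obtain ⟨m1, m2, m3, m4, m5, m6, m7, m8, m9⟩ := mv hm
      simp only [Fin.reduceEq, if_true, if_false] at m1 m2 m3 m4 m5 m6 m7 m8 m9
      refine ⟨c1, c2, c3 + 1, c4, b1, b3, d1, d3, p1, p2, p3, p4, p5, q1, q2, q3 + 1, q4, q5,
        ?_, ?_, ?_, ?_, ?_, ?_, ?_, ?_, ?_, ?_, ?_, ?_, ?_, ?_, ?_, ?_, ?_, ?_, ?_, ?_, ?_, ?_, ?_, ?_, ?_, ?_, ?_, ?_, ?_, ?_⟩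
      · clear * - m1 m2 m3 m4 m5 m6 m7 m8 m9 h2 h3 h4 h9 h12 z9 z12 z15 z16 z17 h1; omega
      · clear * - m1 m2 m3 m4 m5 m6 m7 m8 m9 h2 h3 h4 h9 h12 z9 z12 z15 z16 z17; omega
      · clear * - m1 m2 m3 m4 m5 m6 m7 m8 m9 h2 h3 h4 h9 h12 z9 z12 z15 z16 z17; omega
      · clear * - m1 m2 m3 m4 m5 m6 m7 m8 m9 h2 h3 h4 h9 h12 z9 z12 z15 z16 z17; omega
      · clear * - m1 m2 m3 m4 m5 m6 m7 m8 m9 h2 h3 h4 h9 h12 z9 z12 z15 z16 z17 h5; omega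
      · clear * - m1 m2 m3 m4 m5 m6 m7 m8 m9 h2 h3 h4 h9 h12 z9 z12 z15 z16 z17 h6; omega
      · clear * - m1 m2 m3 m4 m5 m6 m7 m8 m9 h2 h3 h4 h9 h12 z9 z12 z15 z16 z17 h7; omega
      · clear * - m1 m2 m3 m4 m5 m6 m7 m8 m9 h2 h3 h4 h9 h12 z9 z12 z15 z16 z17 h8; omega
      · clear * - m1 m2 m3 m4 m5 m6 m7 m8 m9 h2 h3 h4 h9 h12 z9 z12 z15 z16 z17; omega
      · clear * - m1 m2 m3 m4 m5 m6 m7 m8 m9 h2 h3 h4 h9 h12 z9 z12 z15 z16 z17 h10; omega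
      · clear * - m1 m2 m3 m4 m5 m6 m7 m8 m9 h2 h3 h4 h9 h12 z9 z12 z15 z16 z17 h11; omega
      · clear * - m1 m2 m3 m4 m5 m6 m7 m8 m9 h2 h3 h4 h9 h12 z9 z12 z15 z16 z17; omega
      · clear * - m1 m2 m3 m4 m5 m6 m7 m8 m9 h2 h3 h4 h9 h12 z9 z12 z15 z16 z17 h13; omega
      · clear * - m1 m2 m3 m4 m5 m6 m7 m8 m9 h2 h3 h4 h9 h12 z9 z12 z15 z16 z17 h14; omega
      · clear * - m1 m2 m3 m4 m5 m6 m7 m8 m9 h2 h3 h4 h9 h12 z9 z12 z15 z16 z17 h15; omega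
      · clear * - m1 m2 m3 m4 m5 m6 m7 m8 m9 h2 h3 h4 h9 h12 z9 z12 z15 z16 z17 h16; omega
      · clear * - m1 m2 m3 m4 m5 m6 m7 m8 m9 h2 h3 h4 h9 h12 z9 z12 z15 z16 z17 h17; omega
      · clear * - m1 m2 m3 m4 m5 m6 m7 m8 m9 h2 h3 h4 h9 h12 z9 z12 z15 z16 z17 h18; omega
      · clear * - m1 m2 m3 m4 m5 m6 m7 m8 m9 h2 h3 h4 h9 h12 z9 z12 z15 z16 z17 h19; omega
      · clear * - m1 m2 m3 m4 m5 m6 m7 m8 m9 h2 h3 h4 h9 h12 z9 z12 z15 z16 z17 h20; omega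
      · clear * - m1 m2 m3 m4 m5 m6 m7 m8 m9 h2 h3 h4 h9 h12 z9 z12 z15 z16 z17 h21; omega
      · clear * - m1 m2 m3 m4 m5 m6 m7 m8 m9 h2 h3 h4 h9 h12 z9 z12 z15 z16 z17 h22; omega
      · clear * - m1 m2 m3 m4 m5 m6 m7 m8 m9 h2 h3 h4 h9 h12 z9 z12 z15 z16 z17 h23; omega
      · clear * - m1 m2 m3 m4 m5 m6 m7 m8 m9 h2 h3 h4 h9 h12 z9 z12 z15 z16 z17 h24; omega
      · clear * - m1 m2 m3 m4 m5 m6 m7 m8 m9 h2 h3 h4 h9 h12 z9 z12 z15 z16 z17 h25; omega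
      · clear * - m1 m2 m3 m4 m5 m6 m7 m8 m9 h2 h3 h4 h9 h12 z9 z12 z15 z16 z17 h26; omega
      · clear * - m1 m2 m3 m4 m5 m6 m7 m8 m9 h2 h3 h4 h9 h12 z9 z12 z15 z16 z17 h27; omega
      · clear * - m1 m2 m3 m4 m5 m6 m7 m8 m9 h2 h3 h4 h9 h12 z9 z12 z15 z16 z17 h28; omega
      · clear * - m1 m2 m3 m4 m5 m6 m7 m8 m9 h2 h3 h4 h9 h12 z9 z12 z15 z16 z17 h29; omega
      · clear * - m1 m2 m3 m4 m5 m6 m7 m8 m9 h2 h3 h4 h9 h12 z9 z12 z15 z16 z17 h30; omega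
    refine ⟨0, 3, by decide, by decide, by clear * - z9 z12 z15 z16 z17; omega,
      fun n' hm => ?_⟩
    obtain ⟨m1, m2, m3, m4, m5, m6, m7, m8, m9⟩ := mv hm
    simp only [Fin.reduceEq, if_true, if_false] at m1 m2 m3 m4 m5 m6 m7 m8 m9
    refine ⟨c1, c2, c3 + 1, c4, b1, b3, d1, d3, p1, p2, p3, p4, p5, q1, q2, q3, q4, q5,
      ?_, ?_, ?_, ?_, ?_, ?_, ?_, ?_, ?_, ?_, ?_, ?_, ?_, ?_, ?_, ?_, ?_, ?_, ?_, ?_, ?_, ?_, ?_, ?_, ?_, ?_, ?_, ?_, ?_, ?_⟩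
    · clear * - m1 m2 m3 m4 m5 m6 m7 m8 m9 h2 h3 h4 h9 h12 z9 z12 z15 z16 z17 h1; omega
    · clear * - m1 m2 m3 m4 m5 m6 m7 m8 m9 h2 h3 h4 h9 h12 z9 z12 z15 z16 z17; omega
    · clear * - m1 m2 m3 m4 m5 m6 m7 m8 m9 h2 h3 h4 h9 h12 z9 z12 z15 z16 z17; omega
    · clear * - m1 m2 m3 m4 m5 m6 m7 m8 m9 h2 h3 h4 h9 h12 z9 z12 z15 z16 z17; omega
    · clear * - m1 m2 m3 m4 m5 m6 m7 m8 m9 h2 h3 h4 h9 h12 z9 z12 z15 z16 z17 h5; omega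
    · clear * - m1 m2 m3 m4 m5 m6 m7 m8 m9 h2 h3 h4 h9 h12 z9 z12 z15 z16 z17 h6; omega
    · clear * - m1 m2 m3 m4 m5 m6 m7 m8 m9 h2 h3 h4 h9 h12 z9 z12 z15 z16 z17 h7; omega
    · clear * - m1 m2 m3 m4 m5 m6 m7 m8 m9 h2 h3 h4 h9 h12 z9 z12 z15 z16 z17 h8; omega
    · clear * - m1 m2 m3 m4 m5 m6 m7 m8 m9 h2 h3 h4 h9 h12 z9 z12 z15 z16 z17; omega
    · clear * - m1 m2 m3 m4 m5 m6 m7 m8 m9 h2 h3 h4 h9 h12 z9 z12 z15 z16 z17 h10; omega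
    · clear * - m1 m2 m3 m4 m5 m6 m7 m8 m9 h2 h3 h4 h9 h12 z9 z12 z15 z16 z17 h11; omega
    · clear * - m1 m2 m3 m4 m5 m6 m7 m8 m9 h2 h3 h4 h9 h12 z9 z12 z15 z16 z17; omega
    · clear * - m1 m2 m3 m4 m5 m6 m7 m8 m9 h2 h3 h4 h9 h12 z9 z12 z15 z16 z17 h13; omega
    · clear * - m1 m2 m3 m4 m5 m6 m7 m8 m9 h2 h3 h4 h9 h12 z9 z12 z15 z16 z17 h14; omega
    · clear * - m1 m2 m3 m4 m5 m6 m7 m8 m9 h2 h3 h4 h9 h12 z9 z12 z15 z16 z17 h15; omega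
    · clear * - m1 m2 m3 m4 m5 m6 m7 m8 m9 h2 h3 h4 h9 h12 z9 z12 z15 z16 z17 h16; omega
    · clear * - m1 m2 m3 m4 m5 m6 m7 m8 m9 h2 h3 h4 h9 h12 z9 z12 z15 z16 z17 h17; omega
    · clear * - m1 m2 m3 m4 m5 m6 m7 m8 m9 h2 h3 h4 h9 h12 z9 z12 z15 z16 z17 h18; omega
    · clear * - m1 m2 m3 m4 m5 m6 m7 m8 m9 h2 h3 h4 h9 h12 z9 z12 z15 z16 z17 h19; omega
    · clear * - m1 m2 m3 m4 m5 m6 m7 m8 m9 h2 h3 h4 h9 h12 z9 z12 z15 z16 z17 h20; omega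
    · clear * - m1 m2 m3 m4 m5 m6 m7 m8 m9 h2 h3 h4 h9 h12 z9 z12 z15 z16 z17 h21; omega
    · clear * - m1 m2 m3 m4 m5 m6 m7 m8 m9 h2 h3 h4 h9 h12 z9 z12 z15 z16 z17 h22; omega
    · clear * - m1 m2 m3 m4 m5 m6 m7 m8 m9 h2 h3 h4 h9 h12 z9 z12 z15 z16 z17 h23; omega
    · clear * - m1 m2 m3 m4 m5 m6 m7 m8 m9 h2 h3 h4 h9 h12 z9 z12 z15 z16 z17 h24; omega
    · clear * - m1 m2 m3 m4 m5 m6 m7 m8 m9 h2 h3 h4 h9 h12 z9 z12 z15 z16 z17 h25; omega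
    · clear * - m1 m2 m3 m4 m5 m6 m7 m8 m9 h2 h3 h4 h9 h12 z9 z12 z15 z16 z17 h26; omega
    · clear * - m1 m2 m3 m4 m5 m6 m7 m8 m9 h2 h3 h4 h9 h12 z9 z12 z15 z16 z17 h27; omega
    · clear * - m1 m2 m3 m4 m5 m6 m7 m8 m9 h2 h3 h4 h9 h12 z9 z12 z15 z16 z17 h28; omega
    · clear * - m1 m2 m3 m4 m5 m6 m7 m8 m9 h2 h3 h4 h9 h12 z9 z12 z15 z16 z17 h29; omega
    · clear * - m1 m2 m3 m4 m5 m6 m7 m8 m9 h2 h3 h4 h9 h12 z9 z12 z15 z16 z17 h30; omega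
  by_cases z18 : 0 < n 5
  · refine ⟨5, 9, by decide, by decide, by clear * - z9 z12 z15 z18; omega,
      fun n' hm => ?_⟩
    obtain ⟨m1, m2, m3, m4, m5, m6, m7, m8, m9⟩ := mv hm
    simp only [Fin.reduceEq, if_true, if_false] at m1 m2 m3 m4 m5 m6 m7 m8 m9
    refine ⟨c1, c2, c3, c4 + 1, b1, b3, d1, d3, p1, p2, p3, p4 + 1, p5, q1, q2, q3, q4, q5,
      ?_, ?_, ?_, ?_, ?_, ?_, ?_, ?_, ?_, ?_, ?_, ?_, ?_, ?_, ?_, ?_, ?_, ?_, ?_, ?_, ?_, ?_, ?_, ?_, ?_, ?_, ?_, ?_, ?_, ?_⟩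
    · clear * - m1 m2 m3 m4 m5 m6 m7 m8 m9 h2 h3 h4 h9 h12 z9 z12 z15 z18 h1; omega
    · clear * - m1 m2 m3 m4 m5 m6 m7 m8 m9 h2 h3 h4 h9 h12 z9 z12 z15 z18; omega
    · clear * - m1 m2 m3 m4 m5 m6 m7 m8 m9 h2 h3 h4 h9 h12 z9 z12 z15 z18; omega
    · clear * - m1 m2 m3 m4 m5 m6 m7 m8 m9 h2 h3 h4 h9 h12 z9 z12 z15 z18; omega
    · clear * - m1 m2 m3 m4 m5 m6 m7 m8 m9 h2 h3 h4 h9 h12 z9 z12 z15 z18 h5; omega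
    · clear * - m1 m2 m3 m4 m5 m6 m7 m8 m9 h2 h3 h4 h9 h12 z9 z12 z15 z18 h6; omega
    · clear * - m1 m2 m3 m4 m5 m6 m7 m8 m9 h2 h3 h4 h9 h12 z9 z12 z15 z18 h7; omega
    · clear * - m1 m2 m3 m4 m5 m6 m7 m8 m9 h2 h3 h4 h9 h12 z9 z12 z15 z18 h8; omega
    · clear * - m1 m2 m3 m4 m5 m6 m7 m8 m9 h2 h3 h4 h9 h12 z9 z12 z15 z18; omega
    · clear * - m1 m2 m3 m4 m5 m6 m7 m8 m9 h2 h3 h4 h9 h12 z9 z12 z15 z18 h10; omega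
    · clear * - m1 m2 m3 m4 m5 m6 m7 m8 m9 h2 h3 h4 h9 h12 z9 z12 z15 z18 h11; omega
    · clear * - m1 m2 m3 m4 m5 m6 m7 m8 m9 h2 h3 h4 h9 h12 z9 z12 z15 z18; omega
    · clear * - m1 m2 m3 m4 m5 m6 m7 m8 m9 h2 h3 h4 h9 h12 z9 z12 z15 z18 h13; omega
    · clear * - m1 m2 m3 m4 m5 m6 m7 m8 m9 h2 h3 h4 h9 h12 z9 z12 z15 z18 h14; omega
    · clear * - m1 m2 m3 m4 m5 m6 m7 m8 m9 h2 h3 h4 h9 h12 z9 z12 z15 z18 h15; omega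
    · clear * - m1 m2 m3 m4 m5 m6 m7 m8 m9 h2 h3 h4 h9 h12 z9 z12 z15 z18 h16; omega
    · clear * - m1 m2 m3 m4 m5 m6 m7 m8 m9 h2 h3 h4 h9 h12 z9 z12 z15 z18 h17; omega
    · clear * - m1 m2 m3 m4 m5 m6 m7 m8 m9 h2 h3 h4 h9 h12 z9 z12 z15 z18 h18; omega
    · clear * - m1 m2 m3 m4 m5 m6 m7 m8 m9 h2 h3 h4 h9 h12 z9 z12 z15 z18 h19; omega
    · clear * - m1 m2 m3 m4 m5 m6 m7 m8 m9 h2 h3 h4 h9 h12 z9 z12 z15 z18 h20; omega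
    · clear * - m1 m2 m3 m4 m5 m6 m7 m8 m9 h2 h3 h4 h9 h12 z9 z12 z15 z18 h21; omega
    · clear * - m1 m2 m3 m4 m5 m6 m7 m8 m9 h2 h3 h4 h9 h12 z9 z12 z15 z18 h22; omega
    · clear * - m1 m2 m3 m4 m5 m6 m7 m8 m9 h2 h3 h4 h9 h12 z9 z12 z15 z18 h23; omega
    · clear * - m1 m2 m3 m4 m5 m6 m7 m8 m9 h2 h3 h4 h9 h12 z9 z12 z15 z18 h24; omega
    · clear * - m1 m2 m3 m4 m5 m6 m7 m8 m9 h2 h3 h4 h9 h12 z9 z12 z15 z18 h25; omega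
    · clear * - m1 m2 m3 m4 m5 m6 m7 m8 m9 h2 h3 h4 h9 h12 z9 z12 z15 z18 h26; omega
    · clear * - m1 m2 m3 m4 m5 m6 m7 m8 m9 h2 h3 h4 h9 h12 z9 z12 z15 z18 h27; omega
    · clear * - m1 m2 m3 m4 m5 m6 m7 m8 m9 h2 h3 h4 h9 h12 z9 z12 z15 z18 h28; omega
    · clear * - m1 m2 m3 m4 m5 m6 m7 m8 m9 h2 h3 h4 h9 h12 z9 z12 z15 z18 h29 h5 h6 h7 h14 h17 h23; omega
    · clear * - m1 m2 m3 m4 m5 m6 m7 m8 m9 h2 h3 h4 h9 h12 z9 z12 z15 z18 h30; omega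
  by_cases z19 : 0 < n 6
  · refine ⟨6, 9, by decide, by decide, by clear * - z9 z12 z15 z18 z19; omega,
      fun n' hm => ?_⟩
    obtain ⟨m1, m2, m3, m4, m5, m6, m7, m8, m9⟩ := mv hm
    simp only [Fin.reduceEq, if_true, if_false] at m1 m2 m3 m4 m5 m6 m7 m8 m9
    refine ⟨c1, c2, c3, c4 + 1, b1, b3, d1, d3, p1, p2, p3, p4, p5 + 1, q1, q2, q3, q4, q5,
      ?_, ?_, ?_, ?_, ?_, ?_, ?_, ?_, ?_, ?_, ?_, ?_, ?_, ?_, ?_, ?_, ?_, ?_, ?_, ?_, ?_, ?_, ?_, ?_, ?_, ?_, ?_, ?_, ?_, ?_⟩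
    · clear * - m1 m2 m3 m4 m5 m6 m7 m8 m9 h2 h3 h4 h9 h12 z9 z12 z15 z18 z19 h1; omega
    · clear * - m1 m2 m3 m4 m5 m6 m7 m8 m9 h2 h3 h4 h9 h12 z9 z12 z15 z18 z19; omega
    · clear * - m1 m2 m3 m4 m5 m6 m7 m8 m9 h2 h3 h4 h9 h12 z9 z12 z15 z18 z19; omega
    · clear * - m1 m2 m3 m4 m5 m6 m7 m8 m9 h2 h3 h4 h9 h12 z9 z12 z15 z18 z19; omega
    · clear * - m1 m2 m3 m4 m5 m6 m7 m8 m9 h2 h3 h4 h9 h12 z9 z12 z15 z18 z19 h5; omega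
    · clear * - m1 m2 m3 m4 m5 m6 m7 m8 m9 h2 h3 h4 h9 h12 z9 z12 z15 z18 z19 h6; omega
    · clear * - m1 m2 m3 m4 m5 m6 m7 m8 m9 h2 h3 h4 h9 h12 z9 z12 z15 z18 z19 h7; omega
    · clear * - m1 m2 m3 m4 m5 m6 m7 m8 m9 h2 h3 h4 h9 h12 z9 z12 z15 z18 z19 h8; omega
    · clear * - m1 m2 m3 m4 m5 m6 m7 m8 m9 h2 h3 h4 h9 h12 z9 z12 z15 z18 z19; omega
    · clear * - m1 m2 m3 m4 m5 m6 m7 m8 m9 h2 h3 h4 h9 h12 z9 z12 z15 z18 z19 h10; omega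
    · clear * - m1 m2 m3 m4 m5 m6 m7 m8 m9 h2 h3 h4 h9 h12 z9 z12 z15 z18 z19 h11; omega
    · clear * - m1 m2 m3 m4 m5 m6 m7 m8 m9 h2 h3 h4 h9 h12 z9 z12 z15 z18 z19; omega
    · clear * - m1 m2 m3 m4 m5 m6 m7 m8 m9 h2 h3 h4 h9 h12 z9 z12 z15 z18 z19 h13; omega
    · clear * - m1 m2 m3 m4 m5 m6 m7 m8 m9 h2 h3 h4 h9 h12 z9 z12 z15 z18 z19 h14; omega
    · clear * - m1 m2 m3 m4 m5 m6 m7 m8 m9 h2 h3 h4 h9 h12 z9 z12 z15 z18 z19 h15; omega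
    · clear * - m1 m2 m3 m4 m5 m6 m7 m8 m9 h2 h3 h4 h9 h12 z9 z12 z15 z18 z19 h16; omega
    · clear * - m1 m2 m3 m4 m5 m6 m7 m8 m9 h2 h3 h4 h9 h12 z9 z12 z15 z18 z19 h17; omega
    · clear * - m1 m2 m3 m4 m5 m6 m7 m8 m9 h2 h3 h4 h9 h12 z9 z12 z15 z18 z19 h18; omega
    · clear * - m1 m2 m3 m4 m5 m6 m7 m8 m9 h2 h3 h4 h9 h12 z9 z12 z15 z18 z19 h19; omega
    · clear * - m1 m2 m3 m4 m5 m6 m7 m8 m9 h2 h3 h4 h9 h12 z9 z12 z15 z18 z19 h20; omega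
    · clear * - m1 m2 m3 m4 m5 m6 m7 m8 m9 h2 h3 h4 h9 h12 z9 z12 z15 z18 z19 h21; omega
    · clear * - m1 m2 m3 m4 m5 m6 m7 m8 m9 h2 h3 h4 h9 h12 z9 z12 z15 z18 z19 h22; omega
    · clear * - m1 m2 m3 m4 m5 m6 m7 m8 m9 h2 h3 h4 h9 h12 z9 z12 z15 z18 z19 h23; omega
    · clear * - m1 m2 m3 m4 m5 m6 m7 m8 m9 h2 h3 h4 h9 h12 z9 z12 z15 z18 z19 h24; omega
    · clear * - m1 m2 m3 m4 m5 m6 m7 m8 m9 h2 h3 h4 h9 h12 z9 z12 z15 z18 z19 h25; omega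
    · clear * - m1 m2 m3 m4 m5 m6 m7 m8 m9 h2 h3 h4 h9 h12 z9 z12 z15 z18 z19 h26; omega
    · clear * - m1 m2 m3 m4 m5 m6 m7 m8 m9 h2 h3 h4 h9 h12 z9 z12 z15 z18 z19 h27; omega
    · clear * - m1 m2 m3 m4 m5 m6 m7 m8 m9 h2 h3 h4 h9 h12 z9 z12 z15 z18 z19 h28; omega
    · clear * - m1 m2 m3 m4 m5 m6 m7 m8 m9 h2 h3 h4 h9 h12 z9 z12 z15 z18 z19 h29 h5 h6 h7 h14 h17 h23; omega
    · clear * - m1 m2 m3 m4 m5 m6 m7 m8 m9 h2 h3 h4 h9 h12 z9 z12 z15 z18 z19 h30; omega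
  by_cases z20 : 0 < n 7
  · refine ⟨7, 9, by decide, by decide, by clear * - z9 z12 z15 z18 z19 z20; omega,
      fun n' hm => ?_⟩
    obtain ⟨m1, m2, m3, m4, m5, m6, m7, m8, m9⟩ := mv hm
    simp only [Fin.reduceEq, if_true, if_false] at m1 m2 m3 m4 m5 m6 m7 m8 m9
    refine ⟨c1, c2, c3, c4 + 1, b1, b3, d1, d3, p1, p2, p3, p4, p5, q1, q2, q3, q4 + 1, q5,
      ?_, ?_, ?_, ?_, ?_, ?_, ?_, ?_, ?_, ?_, ?_, ?_, ?_, ?_, ?_, ?_, ?_, ?_, ?_, ?_, ?_, ?_, ?_, ?_, ?_, ?_, ?_, ?_, ?_, ?_⟩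
    · clear * - m1 m2 m3 m4 m5 m6 m7 m8 m9 h2 h3 h4 h9 h12 z9 z12 z15 z18 z19 z20 h1; omega
    · clear * - m1 m2 m3 m4 m5 m6 m7 m8 m9 h2 h3 h4 h9 h12 z9 z12 z15 z18 z19 z20; omega
    · clear * - m1 m2 m3 m4 m5 m6 m7 m8 m9 h2 h3 h4 h9 h12 z9 z12 z15 z18 z19 z20; omega
    · clear * - m1 m2 m3 m4 m5 m6 m7 m8 m9 h2 h3 h4 h9 h12 z9 z12 z15 z18 z19 z20; omega
    · clear * - m1 m2 m3 m4 m5 m6 m7 m8 m9 h2 h3 h4 h9 h12 z9 z12 z15 z18 z19 z20 h5; omega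
    · clear * - m1 m2 m3 m4 m5 m6 m7 m8 m9 h2 h3 h4 h9 h12 z9 z12 z15 z18 z19 z20 h6; omega
    · clear * - m1 m2 m3 m4 m5 m6 m7 m8 m9 h2 h3 h4 h9 h12 z9 z12 z15 z18 z19 z20 h7; omega
    · clear * - m1 m2 m3 m4 m5 m6 m7 m8 m9 h2 h3 h4 h9 h12 z9 z12 z15 z18 z19 z20 h8; omega
    · clear * - m1 m2 m3 m4 m5 m6 m7 m8 m9 h2 h3 h4 h9 h12 z9 z12 z15 z18 z19 z20; omega
    · clear * - m1 m2 m3 m4 m5 m6 m7 m8 m9 h2 h3 h4 h9 h12 z9 z12 z15 z18 z19 z20 h10; omega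
    · clear * - m1 m2 m3 m4 m5 m6 m7 m8 m9 h2 h3 h4 h9 h12 z9 z12 z15 z18 z19 z20 h11; omega
    · clear * - m1 m2 m3 m4 m5 m6 m7 m8 m9 h2 h3 h4 h9 h12 z9 z12 z15 z18 z19 z20; omega
    · clear * - m1 m2 m3 m4 m5 m6 m7 m8 m9 h2 h3 h4 h9 h12 z9 z12 z15 z18 z19 z20 h13; omega
    · clear * - m1 m2 m3 m4 m5 m6 m7 m8 m9 h2 h3 h4 h9 h12 z9 z12 z15 z18 z19 z20 h14; omega
    · clear * - m1 m2 m3 m4 m5 m6 m7 m8 m9 h2 h3 h4 h9 h12 z9 z12 z15 z18 z19 z20 h15; omega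
    · clear * - m1 m2 m3 m4 m5 m6 m7 m8 m9 h2 h3 h4 h9 h12 z9 z12 z15 z18 z19 z20 h16; omega
    · clear * - m1 m2 m3 m4 m5 m6 m7 m8 m9 h2 h3 h4 h9 h12 z9 z12 z15 z18 z19 z20 h17; omega
    · clear * - m1 m2 m3 m4 m5 m6 m7 m8 m9 h2 h3 h4 h9 h12 z9 z12 z15 z18 z19 z20 h18; omega
    · clear * - m1 m2 m3 m4 m5 m6 m7 m8 m9 h2 h3 h4 h9 h12 z9 z12 z15 z18 z19 z20 h19; omega
    · clear * - m1 m2 m3 m4 m5 m6 m7 m8 m9 h2 h3 h4 h9 h12 z9 z12 z15 z18 z19 z20 h20; omega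
    · clear * - m1 m2 m3 m4 m5 m6 m7 m8 m9 h2 h3 h4 h9 h12 z9 z12 z15 z18 z19 z20 h21; omega
    · clear * - m1 m2 m3 m4 m5 m6 m7 m8 m9 h2 h3 h4 h9 h12 z9 z12 z15 z18 z19 z20 h22; omega
    · clear * - m1 m2 m3 m4 m5 m6 m7 m8 m9 h2 h3 h4 h9 h12 z9 z12 z15 z18 z19 z20 h23; omega
    · clear * - m1 m2 m3 m4 m5 m6 m7 m8 m9 h2 h3 h4 h9 h12 z9 z12 z15 z18 z19 z20 h24; omega
    · clear * - m1 m2 m3 m4 m5 m6 m7 m8 m9 h2 h3 h4 h9 h12 z9 z12 z15 z18 z19 z20 h25; omega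
    · clear * - m1 m2 m3 m4 m5 m6 m7 m8 m9 h2 h3 h4 h9 h12 z9 z12 z15 z18 z19 z20 h26; omega
    · clear * - m1 m2 m3 m4 m5 m6 m7 m8 m9 h2 h3 h4 h9 h12 z9 z12 z15 z18 z19 z20 h27; omega
    · clear * - m1 m2 m3 m4 m5 m6 m7 m8 m9 h2 h3 h4 h9 h12 z9 z12 z15 z18 z19 z20 h28; omega
    · clear * - m1 m2 m3 m4 m5 m6 m7 m8 m9 h2 h3 h4 h9 h12 z9 z12 z15 z18 z19 z20 h29; omega
    · clear * - m1 m2 m3 m4 m5 m6 m7 m8 m9 h2 h3 h4 h9 h12 z9 z12 z15 z18 z19 z20 h30 h6 h7 h15 h17 h24; omega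
  by_cases z21 : 0 < n 8
  · refine ⟨8, 9, by decide, by decide, by clear * - z9 z12 z15 z18 z19 z20 z21; omega,
      fun n' hm => ?_⟩
    obtain ⟨m1, m2, m3, m4, m5, m6, m7, m8, m9⟩ := mv hm
    simp only [Fin.reduceEq, if_true, if_false] at m1 m2 m3 m4 m5 m6 m7 m8 m9
    refine ⟨c1, c2, c3, c4 + 1, b1, b3, d1, d3, p1, p2, p3, p4, p5, q1, q2, q3, q4, q5 + 1,
      ?_, ?_, ?_, ?_, ?_, ?_, ?_, ?_, ?_, ?_, ?_, ?_, ?_, ?_, ?_, ?_, ?_, ?_, ?_, ?_, ?_, ?_, ?_, ?_, ?_, ?_, ?_, ?_, ?_, ?_⟩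
    · clear * - m1 m2 m3 m4 m5 m6 m7 m8 m9 h2 h3 h4 h9 h12 z9 z12 z15 z18 z19 z20 z21 h1; omega
    · clear * - m1 m2 m3 m4 m5 m6 m7 m8 m9 h2 h3 h4 h9 h12 z9 z12 z15 z18 z19 z20 z21; omega
    · clear * - m1 m2 m3 m4 m5 m6 m7 m8 m9 h2 h3 h4 h9 h12 z9 z12 z15 z18 z19 z20 z21; omega
    · clear * - m1 m2 m3 m4 m5 m6 m7 m8 m9 h2 h3 h4 h9 h12 z9 z12 z15 z18 z19 z20 z21; omega
    · clear * - m1 m2 m3 m4 m5 m6 m7 m8 m9 h2 h3 h4 h9 h12 z9 z12 z15 z18 z19 z20 z21 h5; omega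
    · clear * - m1 m2 m3 m4 m5 m6 m7 m8 m9 h2 h3 h4 h9 h12 z9 z12 z15 z18 z19 z20 z21 h6; omega
    · clear * - m1 m2 m3 m4 m5 m6 m7 m8 m9 h2 h3 h4 h9 h12 z9 z12 z15 z18 z19 z20 z21 h7; omega
    · clear * - m1 m2 m3 m4 m5 m6 m7 m8 m9 h2 h3 h4 h9 h12 z9 z12 z15 z18 z19 z20 z21 h8; omega
    · clear * - m1 m2 m3 m4 m5 m6 m7 m8 m9 h2 h3 h4 h9 h12 z9 z12 z15 z18 z19 z20 z21; omega
    · clear * - m1 m2 m3 m4 m5 m6 m7 m8 m9 h2 h3 h4 h9 h12 z9 z12 z15 z18 z19 z20 z21 h10; omega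
    · clear * - m1 m2 m3 m4 m5 m6 m7 m8 m9 h2 h3 h4 h9 h12 z9 z12 z15 z18 z19 z20 z21 h11; omega
    · clear * - m1 m2 m3 m4 m5 m6 m7 m8 m9 h2 h3 h4 h9 h12 z9 z12 z15 z18 z19 z20 z21; omega
    · clear * - m1 m2 m3 m4 m5 m6 m7 m8 m9 h2 h3 h4 h9 h12 z9 z12 z15 z18 z19 z20 z21 h13; omega
    · clear * - m1 m2 m3 m4 m5 m6 m7 m8 m9 h2 h3 h4 h9 h12 z9 z12 z15 z18 z19 z20 z21 h14; omega
    · clear * - m1 m2 m3 m4 m5 m6 m7 m8 m9 h2 h3 h4 h9 h12 z9 z12 z15 z18 z19 z20 z21 h15; omega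
    · clear * - m1 m2 m3 m4 m5 m6 m7 m8 m9 h2 h3 h4 h9 h12 z9 z12 z15 z18 z19 z20 z21 h16; omega
    · clear * - m1 m2 m3 m4 m5 m6 m7 m8 m9 h2 h3 h4 h9 h12 z9 z12 z15 z18 z19 z20 z21 h17; omega
    · clear * - m1 m2 m3 m4 m5 m6 m7 m8 m9 h2 h3 h4 h9 h12 z9 z12 z15 z18 z19 z20 z21 h18; omega
    · clear * - m1 m2 m3 m4 m5 m6 m7 m8 m9 h2 h3 h4 h9 h12 z9 z12 z15 z18 z19 z20 z21 h19; omega
    · clear * - m1 m2 m3 m4 m5 m6 m7 m8 m9 h2 h3 h4 h9 h12 z9 z12 z15 z18 z19 z20 z21 h20; omega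
    · clear * - m1 m2 m3 m4 m5 m6 m7 m8 m9 h2 h3 h4 h9 h12 z9 z12 z15 z18 z19 z20 z21 h21; omega
    · clear * - m1 m2 m3 m4 m5 m6 m7 m8 m9 h2 h3 h4 h9 h12 z9 z12 z15 z18 z19 z20 z21 h22; omega
    · clear * - m1 m2 m3 m4 m5 m6 m7 m8 m9 h2 h3 h4 h9 h12 z9 z12 z15 z18 z19 z20 z21 h23; omega
    · clear * - m1 m2 m3 m4 m5 m6 m7 m8 m9 h2 h3 h4 h9 h12 z9 z12 z15 z18 z19 z20 z21 h24; omega
    · clear * - m1 m2 m3 m4 m5 m6 m7 m8 m9 h2 h3 h4 h9 h12 z9 z12 z15 z18 z19 z20 z21 h25; omega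
    · clear * - m1 m2 m3 m4 m5 m6 m7 m8 m9 h2 h3 h4 h9 h12 z9 z12 z15 z18 z19 z20 z21 h26; omega
    · clear * - m1 m2 m3 m4 m5 m6 m7 m8 m9 h2 h3 h4 h9 h12 z9 z12 z15 z18 z19 z20 z21 h27; omega
    · clear * - m1 m2 m3 m4 m5 m6 m7 m8 m9 h2 h3 h4 h9 h12 z9 z12 z15 z18 z19 z20 z21 h28; omega
    · clear * - m1 m2 m3 m4 m5 m6 m7 m8 m9 h2 h3 h4 h9 h12 z9 z12 z15 z18 z19 z20 z21 h29; omega
    · clear * - m1 m2 m3 m4 m5 m6 m7 m8 m9 h2 h3 h4 h9 h12 z9 z12 z15 z18 z19 z20 z21 h30 h6 h7 h15 h17 h24; omega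
  refine ⟨0, 4, by decide, by decide, by clear * - z9 z12 z15 z18 z19 z20 z21; omega,
    fun n' hm => ?_⟩
  obtain ⟨m1, m2, m3, m4, m5, m6, m7, m8, m9⟩ := mv hm
  simp only [Fin.reduceEq, if_true, if_false] at m1 m2 m3 m4 m5 m6 m7 m8 m9
  refine ⟨c1, c2, c3, c4 + 1, b1, b3, d1, d3, p1, p2, p3, p4, p5, q1, q2, q3, q4, q5,
    ?_, ?_, ?_, ?_, ?_, ?_, ?_, ?_, ?_, ?_, ?_, ?_, ?_, ?_, ?_, ?_, ?_, ?_, ?_, ?_, ?_, ?_, ?_, ?_, ?_, ?_, ?_, ?_, ?_, ?_⟩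
  · clear * - m1 m2 m3 m4 m5 m6 m7 m8 m9 h2 h3 h4 h9 h12 z9 z12 z15 z18 z19 z20 z21 h1; omega
  · clear * - m1 m2 m3 m4 m5 m6 m7 m8 m9 h2 h3 h4 h9 h12 z9 z12 z15 z18 z19 z20 z21; omega
  · clear * - m1 m2 m3 m4 m5 m6 m7 m8 m9 h2 h3 h4 h9 h12 z9 z12 z15 z18 z19 z20 z21; omega
  · clear * - m1 m2 m3 m4 m5 m6 m7 m8 m9 h2 h3 h4 h9 h12 z9 z12 z15 z18 z19 z20 z21; omega
  · clear * - m1 m2 m3 m4 m5 m6 m7 m8 m9 h2 h3 h4 h9 h12 z9 z12 z15 z18 z19 z20 z21 h5; omega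
  · clear * - m1 m2 m3 m4 m5 m6 m7 m8 m9 h2 h3 h4 h9 h12 z9 z12 z15 z18 z19 z20 z21 h6; omega
  · clear * - m1 m2 m3 m4 m5 m6 m7 m8 m9 h2 h3 h4 h9 h12 z9 z12 z15 z18 z19 z20 z21 h7; omega
  · clear * - m1 m2 m3 m4 m5 m6 m7 m8 m9 h2 h3 h4 h9 h12 z9 z12 z15 z18 z19 z20 z21 h8; omega
  · clear * - m1 m2 m3 m4 m5 m6 m7 m8 m9 h2 h3 h4 h9 h12 z9 z12 z15 z18 z19 z20 z21; omega
  · clear * - m1 m2 m3 m4 m5 m6 m7 m8 m9 h2 h3 h4 h9 h12 z9 z12 z15 z18 z19 z20 z21 h10; omega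
  · clear * - m1 m2 m3 m4 m5 m6 m7 m8 m9 h2 h3 h4 h9 h12 z9 z12 z15 z18 z19 z20 z21 h11; omega
  · clear * - m1 m2 m3 m4 m5 m6 m7 m8 m9 h2 h3 h4 h9 h12 z9 z12 z15 z18 z19 z20 z21; omega
  · clear * - m1 m2 m3 m4 m5 m6 m7 m8 m9 h2 h3 h4 h9 h12 z9 z12 z15 z18 z19 z20 z21 h13; omega
  · clear * - m1 m2 m3 m4 m5 m6 m7 m8 m9 h2 h3 h4 h9 h12 z9 z12 z15 z18 z19 z20 z21 h14; omega
  · clear * - m1 m2 m3 m4 m5 m6 m7 m8 m9 h2 h3 h4 h9 h12 z9 z12 z15 z18 z19 z20 z21 h15; omega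
  · clear * - m1 m2 m3 m4 m5 m6 m7 m8 m9 h2 h3 h4 h9 h12 z9 z12 z15 z18 z19 z20 z21 h16; omega
  · clear * - m1 m2 m3 m4 m5 m6 m7 m8 m9 h2 h3 h4 h9 h12 z9 z12 z15 z18 z19 z20 z21 h17; omega
  · clear * - m1 m2 m3 m4 m5 m6 m7 m8 m9 h2 h3 h4 h9 h12 z9 z12 z15 z18 z19 z20 z21 h18; omega
  · clear * - m1 m2 m3 m4 m5 m6 m7 m8 m9 h2 h3 h4 h9 h12 z9 z12 z15 z18 z19 z20 z21 h19; omega
  · clear * - m1 m2 m3 m4 m5 m6 m7 m8 m9 h2 h3 h4 h9 h12 z9 z12 z15 z18 z19 z20 z21 h20; omega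
  · clear * - m1 m2 m3 m4 m5 m6 m7 m8 m9 h2 h3 h4 h9 h12 z9 z12 z15 z18 z19 z20 z21 h21; omega
  · clear * - m1 m2 m3 m4 m5 m6 m7 m8 m9 h2 h3 h4 h9 h12 z9 z12 z15 z18 z19 z20 z21 h22; omega
  · clear * - m1 m2 m3 m4 m5 m6 m7 m8 m9 h2 h3 h4 h9 h12 z9 z12 z15 z18 z19 z20 z21 h23; omega
  · clear * - m1 m2 m3 m4 m5 m6 m7 m8 m9 h2 h3 h4 h9 h12 z9 z12 z15 z18 z19 z20 z21 h24; omega
  · clear * - m1 m2 m3 m4 m5 m6 m7 m8 m9 h2 h3 h4 h9 h12 z9 z12 z15 z18 z19 z20 z21 h25; omega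
  · clear * - m1 m2 m3 m4 m5 m6 m7 m8 m9 h2 h3 h4 h9 h12 z9 z12 z15 z18 z19 z20 z21 h26; omega
  · clear * - m1 m2 m3 m4 m5 m6 m7 m8 m9 h2 h3 h4 h9 h12 z9 z12 z15 z18 z19 z20 z21 h27; omega
  · clear * - m1 m2 m3 m4 m5 m6 m7 m8 m9 h2 h3 h4 h9 h12 z9 z12 z15 z18 z19 z20 z21 h28; omega
  · clear * - m1 m2 m3 m4 m5 m6 m7 m8 m9 h2 h3 h4 h9 h12 z9 z12 z15 z18 z19 z20 z21 h29; omega
  · clear * - m1 m2 m3 m4 m5 m6 m7 m8 m9 h2 h3 h4 h9 h12 z9 z12 z15 z18 z19 z20 z21 h30; omega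

theorem stepD {k xa xb xc xd xe : ℕ} {n : Fin 10 → ℕ} (h : GI k xa xb xc xd xe n) :
    ∃ t t' : Fin 10, Tr 4 t t' ∧ t' ≠ 0 ∧ (t.val = 0 ∨ 0 < n t) ∧
      ∀ n', Mv n n' t t' → GI k xa xb xc (xd + 1) xe n' := by
  obtain ⟨c1, c2, c3, c4, b1, b3, d1, d3, p1, p2, p3, p4, p5, q1, q2, q3, q4, q5,
    h1, h2, h3, h4, h5, h6, h7, h8, h9, h10, h11, h12, h13, h14, h15, h16, h17, h18, h19, h20, h21, h22, h23, h24, h25, h26, h27, h28, h29, h30⟩ := h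
  by_cases z22 : d1 < 2 * k
  · by_cases z23 : 0 < n 2
    · refine ⟨2, 9, by decide, by decide, by clear * - z22 z23; omega,
        fun n' hm => ?_⟩
      obtain ⟨m1, m2, m3, m4, m5, m6, m7, m8, m9⟩ := mv hm
      simp only [Fin.reduceEq, if_true, if_false] at m1 m2 m3 m4 m5 m6 m7 m8 m9
      refine ⟨c1, c2, c3, c4, b1, b3, d1 + 1, d3, p1, p2, p3, p4, p5, q1 + 1, q2, q3, q4, q5,
        ?_, ?_, ?_, ?_, ?_, ?_, ?_, ?_, ?_, ?_, ?_, ?_, ?_, ?_, ?_, ?_, ?_, ?_, ?_, ?_, ?_, ?_, ?_, ?_, ?_, ?_, ?_, ?_, ?_, ?_⟩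
      · clear * - m1 m2 m3 m4 m5 m6 m7 m8 m9 h2 h3 h4 h9 h12 z22 z23 h1; omega
      · clear * - m1 m2 m3 m4 m5 m6 m7 m8 m9 h2 h3 h4 h9 h12 z22 z23; omega
      · clear * - m1 m2 m3 m4 m5 m6 m7 m8 m9 h2 h3 h4 h9 h12 z22 z23; omega
      · clear * - m1 m2 m3 m4 m5 m6 m7 m8 m9 h2 h3 h4 h9 h12 z22 z23; omega
      · clear * - m1 m2 m3 m4 m5 m6 m7 m8 m9 h2 h3 h4 h9 h12 z22 z23 h5; omega
      · clear * - m1 m2 m3 m4 m5 m6 m7 m8 m9 h2 h3 h4 h9 h12 z22 z23 h6; omega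
      · clear * - m1 m2 m3 m4 m5 m6 m7 m8 m9 h2 h3 h4 h9 h12 z22 z23 h7; omega
      · clear * - m1 m2 m3 m4 m5 m6 m7 m8 m9 h2 h3 h4 h9 h12 z22 z23 h8; omega
      · clear * - m1 m2 m3 m4 m5 m6 m7 m8 m9 h2 h3 h4 h9 h12 z22 z23; omega
      · clear * - m1 m2 m3 m4 m5 m6 m7 m8 m9 h2 h3 h4 h9 h12 z22 z23 h10; omega
      · clear * - m1 m2 m3 m4 m5 m6 m7 m8 m9 h2 h3 h4 h9 h12 z22 z23 h11; omega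
      · clear * - m1 m2 m3 m4 m5 m6 m7 m8 m9 h2 h3 h4 h9 h12 z22 z23; omega
      · clear * - m1 m2 m3 m4 m5 m6 m7 m8 m9 h2 h3 h4 h9 h12 z22 z23 h13; omega
      · clear * - m1 m2 m3 m4 m5 m6 m7 m8 m9 h2 h3 h4 h9 h12 z22 z23 h14; omega
      · clear * - m1 m2 m3 m4 m5 m6 m7 m8 m9 h2 h3 h4 h9 h12 z22 z23 h15; omega
      · clear * - m1 m2 m3 m4 m5 m6 m7 m8 m9 h2 h3 h4 h9 h12 z22 z23 h16; omega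
      · clear * - m1 m2 m3 m4 m5 m6 m7 m8 m9 h2 h3 h4 h9 h12 z22 z23 h17; omega
      · clear * - m1 m2 m3 m4 m5 m6 m7 m8 m9 h2 h3 h4 h9 h12 z22 z23 h18; omega
      · clear * - m1 m2 m3 m4 m5 m6 m7 m8 m9 h2 h3 h4 h9 h12 z22 z23 h19; omega
      · clear * - m1 m2 m3 m4 m5 m6 m7 m8 m9 h2 h3 h4 h9 h12 z22 z23 h20; omega
      · clear * - m1 m2 m3 m4 m5 m6 m7 m8 m9 h2 h3 h4 h9 h12 z22 z23 h21; omega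
      · clear * - m1 m2 m3 m4 m5 m6 m7 m8 m9 h2 h3 h4 h9 h12 z22 z23 h22; omega
      · clear * - m1 m2 m3 m4 m5 m6 m7 m8 m9 h2 h3 h4 h9 h12 z22 z23 h23; omega
      · clear * - m1 m2 m3 m4 m5 m6 m7 m8 m9 h2 h3 h4 h9 h12 z22 z23 h24; omega
      · clear * - m1 m2 m3 m4 m5 m6 m7 m8 m9 h2 h3 h4 h9 h12 z22 z23 h25; omega
      · clear * - m1 m2 m3 m4 m5 m6 m7 m8 m9 h2 h3 h4 h9 h12 z22 z23 h26; omega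
      · clear * - m1 m2 m3 m4 m5 m6 m7 m8 m9 h2 h3 h4 h9 h12 z22 z23 h27; omega
      · clear * - m1 m2 m3 m4 m5 m6 m7 m8 m9 h2 h3 h4 h9 h12 z22 z23 h28 h24; omega
      · clear * - m1 m2 m3 m4 m5 m6 m7 m8 m9 h2 h3 h4 h9 h12 z22 z23 h29; omega
      · clear * - m1 m2 m3 m4 m5 m6 m7 m8 m9 h2 h3 h4 h9 h12 z22 z23 h30; omega
    by_cases z24 : 0 < n 4
    · refine ⟨4, 9, by decide, by decide, by clear * - z22 z23 z24; omega,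
        fun n' hm => ?_⟩
      obtain ⟨m1, m2, m3, m4, m5, m6, m7, m8, m9⟩ := mv hm
      simp only [Fin.reduceEq, if_true, if_false] at m1 m2 m3 m4 m5 m6 m7 m8 m9
      refine ⟨c1, c2, c3, c4, b1, b3, d1 + 1, d3, p1, p2, p3, p4, p5, q1, q2, q3, q4 + 1, q5,
        ?_, ?_, ?_, ?_, ?_, ?_, ?_, ?_, ?_, ?_, ?_, ?_, ?_, ?_, ?_, ?_, ?_, ?_, ?_, ?_, ?_, ?_, ?_, ?_, ?_, ?_, ?_, ?_, ?_, ?_⟩
      · clear * - m1 m2 m3 m4 m5 m6 m7 m8 m9 h2 h3 h4 h9 h12 z22 z23 z24 h1; omega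
      · clear * - m1 m2 m3 m4 m5 m6 m7 m8 m9 h2 h3 h4 h9 h12 z22 z23 z24; omega
      · clear * - m1 m2 m3 m4 m5 m6 m7 m8 m9 h2 h3 h4 h9 h12 z22 z23 z24; omega
      · clear * - m1 m2 m3 m4 m5 m6 m7 m8 m9 h2 h3 h4 h9 h12 z22 z23 z24; omega
      · clear * - m1 m2 m3 m4 m5 m6 m7 m8 m9 h2 h3 h4 h9 h12 z22 z23 z24 h5; omega
      · clear * - m1 m2 m3 m4 m5 m6 m7 m8 m9 h2 h3 h4 h9 h12 z22 z23 z24 h6; omega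
      · clear * - m1 m2 m3 m4 m5 m6 m7 m8 m9 h2 h3 h4 h9 h12 z22 z23 z24 h7; omega
      · clear * - m1 m2 m3 m4 m5 m6 m7 m8 m9 h2 h3 h4 h9 h12 z22 z23 z24 h8; omega
      · clear * - m1 m2 m3 m4 m5 m6 m7 m8 m9 h2 h3 h4 h9 h12 z22 z23 z24; omega
      · clear * - m1 m2 m3 m4 m5 m6 m7 m8 m9 h2 h3 h4 h9 h12 z22 z23 z24 h10; omega
      · clear * - m1 m2 m3 m4 m5 m6 m7 m8 m9 h2 h3 h4 h9 h12 z22 z23 z24 h11; omega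
      · clear * - m1 m2 m3 m4 m5 m6 m7 m8 m9 h2 h3 h4 h9 h12 z22 z23 z24; omega
      · clear * - m1 m2 m3 m4 m5 m6 m7 m8 m9 h2 h3 h4 h9 h12 z22 z23 z24 h13; omega
      · clear * - m1 m2 m3 m4 m5 m6 m7 m8 m9 h2 h3 h4 h9 h12 z22 z23 z24 h14; omega
      · clear * - m1 m2 m3 m4 m5 m6 m7 m8 m9 h2 h3 h4 h9 h12 z22 z23 z24 h15; omega
      · clear * - m1 m2 m3 m4 m5 m6 m7 m8 m9 h2 h3 h4 h9 h12 z22 z23 z24 h16; omega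
      · clear * - m1 m2 m3 m4 m5 m6 m7 m8 m9 h2 h3 h4 h9 h12 z22 z23 z24 h17; omega
      · clear * - m1 m2 m3 m4 m5 m6 m7 m8 m9 h2 h3 h4 h9 h12 z22 z23 z24 h18; omega
      · clear * - m1 m2 m3 m4 m5 m6 m7 m8 m9 h2 h3 h4 h9 h12 z22 z23 z24 h19; omega
      · clear * - m1 m2 m3 m4 m5 m6 m7 m8 m9 h2 h3 h4 h9 h12 z22 z23 z24 h20; omega
      · clear * - m1 m2 m3 m4 m5 m6 m7 m8 m9 h2 h3 h4 h9 h12 z22 z23 z24 h21; omega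
      · clear * - m1 m2 m3 m4 m5 m6 m7 m8 m9 h2 h3 h4 h9 h12 z22 z23 z24 h22; omega
      · clear * - m1 m2 m3 m4 m5 m6 m7 m8 m9 h2 h3 h4 h9 h12 z22 z23 z24 h23; omega
      · clear * - m1 m2 m3 m4 m5 m6 m7 m8 m9 h2 h3 h4 h9 h12 z22 z23 z24 h24; omega
      · clear * - m1 m2 m3 m4 m5 m6 m7 m8 m9 h2 h3 h4 h9 h12 z22 z23 z24 h25; omega
      · clear * - m1 m2 m3 m4 m5 m6 m7 m8 m9 h2 h3 h4 h9 h12 z22 z23 z24 h26; omega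
      · clear * - m1 m2 m3 m4 m5 m6 m7 m8 m9 h2 h3 h4 h9 h12 z22 z23 z24 h27; omega
      · clear * - m1 m2 m3 m4 m5 m6 m7 m8 m9 h2 h3 h4 h9 h12 z22 z23 z24 h28; omega
      · clear * - m1 m2 m3 m4 m5 m6 m7 m8 m9 h2 h3 h4 h9 h12 z22 z23 z24 h29; omega
      · clear * - m1 m2 m3 m4 m5 m6 m7 m8 m9 h2 h3 h4 h9 h12 z22 z23 z24 h30 h6 h7 h15 h17 h24; omega
    refine ⟨0, 7, by decide, by decide, by clear * - z22 z23 z24; omega,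
      fun n' hm => ?_⟩
    obtain ⟨m1, m2, m3, m4, m5, m6, m7, m8, m9⟩ := mv hm
    simp only [Fin.reduceEq, if_true, if_false] at m1 m2 m3 m4 m5 m6 m7 m8 m9
    refine ⟨c1, c2, c3, c4, b1, b3, d1 + 1, d3, p1, p2, p3, p4, p5, q1, q2, q3, q4, q5,
      ?_, ?_, ?_, ?_, ?_, ?_, ?_, ?_, ?_, ?_, ?_, ?_, ?_, ?_, ?_, ?_, ?_, ?_, ?_, ?_, ?_, ?_, ?_, ?_, ?_, ?_, ?_, ?_, ?_, ?_⟩
    · clear * - m1 m2 m3 m4 m5 m6 m7 m8 m9 h2 h3 h4 h9 h12 z22 z23 z24 h1; omega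
    · clear * - m1 m2 m3 m4 m5 m6 m7 m8 m9 h2 h3 h4 h9 h12 z22 z23 z24; omega
    · clear * - m1 m2 m3 m4 m5 m6 m7 m8 m9 h2 h3 h4 h9 h12 z22 z23 z24; omega
    · clear * - m1 m2 m3 m4 m5 m6 m7 m8 m9 h2 h3 h4 h9 h12 z22 z23 z24; omega
    · clear * - m1 m2 m3 m4 m5 m6 m7 m8 m9 h2 h3 h4 h9 h12 z22 z23 z24 h5; omega
    · clear * - m1 m2 m3 m4 m5 m6 m7 m8 m9 h2 h3 h4 h9 h12 z22 z23 z24 h6; omega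
    · clear * - m1 m2 m3 m4 m5 m6 m7 m8 m9 h2 h3 h4 h9 h12 z22 z23 z24 h7; omega
    · clear * - m1 m2 m3 m4 m5 m6 m7 m8 m9 h2 h3 h4 h9 h12 z22 z23 z24 h8; omega
    · clear * - m1 m2 m3 m4 m5 m6 m7 m8 m9 h2 h3 h4 h9 h12 z22 z23 z24; omega
    · clear * - m1 m2 m3 m4 m5 m6 m7 m8 m9 h2 h3 h4 h9 h12 z22 z23 z24 h10; omega
    · clear * - m1 m2 m3 m4 m5 m6 m7 m8 m9 h2 h3 h4 h9 h12 z22 z23 z24 h11; omega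
    · clear * - m1 m2 m3 m4 m5 m6 m7 m8 m9 h2 h3 h4 h9 h12 z22 z23 z24; omega
    · clear * - m1 m2 m3 m4 m5 m6 m7 m8 m9 h2 h3 h4 h9 h12 z22 z23 z24 h13; omega
    · clear * - m1 m2 m3 m4 m5 m6 m7 m8 m9 h2 h3 h4 h9 h12 z22 z23 z24 h14; omega
    · clear * - m1 m2 m3 m4 m5 m6 m7 m8 m9 h2 h3 h4 h9 h12 z22 z23 z24 h15; omega
    · clear * - m1 m2 m3 m4 m5 m6 m7 m8 m9 h2 h3 h4 h9 h12 z22 z23 z24 h16; omega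
    · clear * - m1 m2 m3 m4 m5 m6 m7 m8 m9 h2 h3 h4 h9 h12 z22 z23 z24 h17; omega
    · clear * - m1 m2 m3 m4 m5 m6 m7 m8 m9 h2 h3 h4 h9 h12 z22 z23 z24 h18; omega
    · clear * - m1 m2 m3 m4 m5 m6 m7 m8 m9 h2 h3 h4 h9 h12 z22 z23 z24 h19; omega
    · clear * - m1 m2 m3 m4 m5 m6 m7 m8 m9 h2 h3 h4 h9 h12 z22 z23 z24 h20; omega
    · clear * - m1 m2 m3 m4 m5 m6 m7 m8 m9 h2 h3 h4 h9 h12 z22 z23 z24 h21; omega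
    · clear * - m1 m2 m3 m4 m5 m6 m7 m8 m9 h2 h3 h4 h9 h12 z22 z23 z24 h22; omega
    · clear * - m1 m2 m3 m4 m5 m6 m7 m8 m9 h2 h3 h4 h9 h12 z22 z23 z24 h23; omega
    · clear * - m1 m2 m3 m4 m5 m6 m7 m8 m9 h2 h3 h4 h9 h12 z22 z23 z24 h24; omega
    · clear * - m1 m2 m3 m4 m5 m6 m7 m8 m9 h2 h3 h4 h9 h12 z22 z23 z24 h25; omega
    · clear * - m1 m2 m3 m4 m5 m6 m7 m8 m9 h2 h3 h4 h9 h12 z22 z23 z24 h26; omega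
    · clear * - m1 m2 m3 m4 m5 m6 m7 m8 m9 h2 h3 h4 h9 h12 z22 z23 z24 h27; omega
    · clear * - m1 m2 m3 m4 m5 m6 m7 m8 m9 h2 h3 h4 h9 h12 z22 z23 z24 h28 h13 h21; omega
    · clear * - m1 m2 m3 m4 m5 m6 m7 m8 m9 h2 h3 h4 h9 h12 z22 z23 z24 h29; omega
    · clear * - m1 m2 m3 m4 m5 m6 m7 m8 m9 h2 h3 h4 h9 h12 z22 z23 z24 h30; omega
  by_cases z25 : 0 < n 2
  · refine ⟨2, 9, by decide, by decide, by clear * - z22 z25; omega,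
      fun n' hm => ?_⟩
    obtain ⟨m1, m2, m3, m4, m5, m6, m7, m8, m9⟩ := mv hm
    simp only [Fin.reduceEq, if_true, if_false] at m1 m2 m3 m4 m5 m6 m7 m8 m9
    refine ⟨c1, c2, c3, c4, b1, b3, d1, d3 + 1, p1, p2, p3, p4, p5, q1, q2 + 1, q3, q4, q5,
      ?_, ?_, ?_, ?_, ?_, ?_, ?_, ?_, ?_, ?_, ?_, ?_, ?_, ?_, ?_, ?_, ?_, ?_, ?_, ?_, ?_, ?_, ?_, ?_, ?_, ?_, ?_, ?_, ?_, ?_⟩
    · clear * - m1 m2 m3 m4 m5 m6 m7 m8 m9 h2 h3 h4 h9 h12 z22 z25 h1; omega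
    · clear * - m1 m2 m3 m4 m5 m6 m7 m8 m9 h2 h3 h4 h9 h12 z22 z25; omega
    · clear * - m1 m2 m3 m4 m5 m6 m7 m8 m9 h2 h3 h4 h9 h12 z22 z25; omega
    · clear * - m1 m2 m3 m4 m5 m6 m7 m8 m9 h2 h3 h4 h9 h12 z22 z25; omega
    · clear * - m1 m2 m3 m4 m5 m6 m7 m8 m9 h2 h3 h4 h9 h12 z22 z25 h5; omega
    · clear * - m1 m2 m3 m4 m5 m6 m7 m8 m9 h2 h3 h4 h9 h12 z22 z25 h6; omega
    · clear * - m1 m2 m3 m4 m5 m6 m7 m8 m9 h2 h3 h4 h9 h12 z22 z25 h7; omega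
    · clear * - m1 m2 m3 m4 m5 m6 m7 m8 m9 h2 h3 h4 h9 h12 z22 z25 h8; omega
    · clear * - m1 m2 m3 m4 m5 m6 m7 m8 m9 h2 h3 h4 h9 h12 z22 z25; omega
    · clear * - m1 m2 m3 m4 m5 m6 m7 m8 m9 h2 h3 h4 h9 h12 z22 z25 h10; omega
    · clear * - m1 m2 m3 m4 m5 m6 m7 m8 m9 h2 h3 h4 h9 h12 z22 z25 h11; omega
    · clear * - m1 m2 m3 m4 m5 m6 m7 m8 m9 h2 h3 h4 h9 h12 z22 z25; omega
    · clear * - m1 m2 m3 m4 m5 m6 m7 m8 m9 h2 h3 h4 h9 h12 z22 z25 h13; omega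
    · clear * - m1 m2 m3 m4 m5 m6 m7 m8 m9 h2 h3 h4 h9 h12 z22 z25 h14; omega
    · clear * - m1 m2 m3 m4 m5 m6 m7 m8 m9 h2 h3 h4 h9 h12 z22 z25 h15; omega
    · clear * - m1 m2 m3 m4 m5 m6 m7 m8 m9 h2 h3 h4 h9 h12 z22 z25 h16; omega
    · clear * - m1 m2 m3 m4 m5 m6 m7 m8 m9 h2 h3 h4 h9 h12 z22 z25 h17; omega
    · clear * - m1 m2 m3 m4 m5 m6 m7 m8 m9 h2 h3 h4 h9 h12 z22 z25 h18; omega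
    · clear * - m1 m2 m3 m4 m5 m6 m7 m8 m9 h2 h3 h4 h9 h12 z22 z25 h19; omega
    · clear * - m1 m2 m3 m4 m5 m6 m7 m8 m9 h2 h3 h4 h9 h12 z22 z25 h20; omega
    · clear * - m1 m2 m3 m4 m5 m6 m7 m8 m9 h2 h3 h4 h9 h12 z22 z25 h21; omega
    · clear * - m1 m2 m3 m4 m5 m6 m7 m8 m9 h2 h3 h4 h9 h12 z22 z25 h22; omega
    · clear * - m1 m2 m3 m4 m5 m6 m7 m8 m9 h2 h3 h4 h9 h12 z22 z25 h23; omega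
    · clear * - m1 m2 m3 m4 m5 m6 m7 m8 m9 h2 h3 h4 h9 h12 z22 z25 h24; omega
    · clear * - m1 m2 m3 m4 m5 m6 m7 m8 m9 h2 h3 h4 h9 h12 z22 z25 h25; omega
    · clear * - m1 m2 m3 m4 m5 m6 m7 m8 m9 h2 h3 h4 h9 h12 z22 z25 h26; omega
    · clear * - m1 m2 m3 m4 m5 m6 m7 m8 m9 h2 h3 h4 h9 h12 z22 z25 h27; omega
    · clear * - m1 m2 m3 m4 m5 m6 m7 m8 m9 h2 h3 h4 h9 h12 z22 z25 h28 h24; omega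
    · clear * - m1 m2 m3 m4 m5 m6 m7 m8 m9 h2 h3 h4 h9 h12 z22 z25 h29; omega
    · clear * - m1 m2 m3 m4 m5 m6 m7 m8 m9 h2 h3 h4 h9 h12 z22 z25 h30; omega
  by_cases z26 : 0 < n 3
  · refine ⟨3, 9, by decide, by decide, by clear * - z22 z25 z26; omega,
      fun n' hm => ?_⟩
    obtain ⟨m1, m2, m3, m4, m5, m6, m7, m8, m9⟩ := mv hm
    simp only [Fin.reduceEq, if_true, if_false] at m1 m2 m3 m4 m5 m6 m7 m8 m9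
    refine ⟨c1, c2, c3, c4, b1, b3, d1, d3 + 1, p1, p2, p3, p4, p5, q1, q2, q3 + 1, q4, q5,
      ?_, ?_, ?_, ?_, ?_, ?_, ?_, ?_, ?_, ?_, ?_, ?_, ?_, ?_, ?_, ?_, ?_, ?_, ?_, ?_, ?_, ?_, ?_, ?_, ?_, ?_, ?_, ?_, ?_, ?_⟩
    · clear * - m1 m2 m3 m4 m5 m6 m7 m8 m9 h2 h3 h4 h9 h12 z22 z25 z26 h1; omega
    · clear * - m1 m2 m3 m4 m5 m6 m7 m8 m9 h2 h3 h4 h9 h12 z22 z25 z26; omega
    · clear * - m1 m2 m3 m4 m5 m6 m7 m8 m9 h2 h3 h4 h9 h12 z22 z25 z26; omega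
    · clear * - m1 m2 m3 m4 m5 m6 m7 m8 m9 h2 h3 h4 h9 h12 z22 z25 z26; omega
    · clear * - m1 m2 m3 m4 m5 m6 m7 m8 m9 h2 h3 h4 h9 h12 z22 z25 z26 h5; omega
    · clear * - m1 m2 m3 m4 m5 m6 m7 m8 m9 h2 h3 h4 h9 h12 z22 z25 z26 h6; omega
    · clear * - m1 m2 m3 m4 m5 m6 m7 m8 m9 h2 h3 h4 h9 h12 z22 z25 z26 h7; omega
    · clear * - m1 m2 m3 m4 m5 m6 m7 m8 m9 h2 h3 h4 h9 h12 z22 z25 z26 h8; omega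
    · clear * - m1 m2 m3 m4 m5 m6 m7 m8 m9 h2 h3 h4 h9 h12 z22 z25 z26; omega
    · clear * - m1 m2 m3 m4 m5 m6 m7 m8 m9 h2 h3 h4 h9 h12 z22 z25 z26 h10; omega
    · clear * - m1 m2 m3 m4 m5 m6 m7 m8 m9 h2 h3 h4 h9 h12 z22 z25 z26 h11; omega
    · clear * - m1 m2 m3 m4 m5 m6 m7 m8 m9 h2 h3 h4 h9 h12 z22 z25 z26; omega
    · clear * - m1 m2 m3 m4 m5 m6 m7 m8 m9 h2 h3 h4 h9 h12 z22 z25 z26 h13; omega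
    · clear * - m1 m2 m3 m4 m5 m6 m7 m8 m9 h2 h3 h4 h9 h12 z22 z25 z26 h14; omega
    · clear * - m1 m2 m3 m4 m5 m6 m7 m8 m9 h2 h3 h4 h9 h12 z22 z25 z26 h15; omega
    · clear * - m1 m2 m3 m4 m5 m6 m7 m8 m9 h2 h3 h4 h9 h12 z22 z25 z26 h16; omega
    · clear * - m1 m2 m3 m4 m5 m6 m7 m8 m9 h2 h3 h4 h9 h12 z22 z25 z26 h17; omega
    · clear * - m1 m2 m3 m4 m5 m6 m7 m8 m9 h2 h3 h4 h9 h12 z22 z25 z26 h18; omega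
    · clear * - m1 m2 m3 m4 m5 m6 m7 m8 m9 h2 h3 h4 h9 h12 z22 z25 z26 h19; omega
    · clear * - m1 m2 m3 m4 m5 m6 m7 m8 m9 h2 h3 h4 h9 h12 z22 z25 z26 h20; omega
    · clear * - m1 m2 m3 m4 m5 m6 m7 m8 m9 h2 h3 h4 h9 h12 z22 z25 z26 h21; omega
    · clear * - m1 m2 m3 m4 m5 m6 m7 m8 m9 h2 h3 h4 h9 h12 z22 z25 z26 h22; omega
    · clear * - m1 m2 m3 m4 m5 m6 m7 m8 m9 h2 h3 h4 h9 h12 z22 z25 z26 h23; omega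
    · clear * - m1 m2 m3 m4 m5 m6 m7 m8 m9 h2 h3 h4 h9 h12 z22 z25 z26 h24; omega
    · clear * - m1 m2 m3 m4 m5 m6 m7 m8 m9 h2 h3 h4 h9 h12 z22 z25 z26 h25; omega
    · clear * - m1 m2 m3 m4 m5 m6 m7 m8 m9 h2 h3 h4 h9 h12 z22 z25 z26 h26; omega
    · clear * - m1 m2 m3 m4 m5 m6 m7 m8 m9 h2 h3 h4 h9 h12 z22 z25 z26 h27; omega
    · clear * - m1 m2 m3 m4 m5 m6 m7 m8 m9 h2 h3 h4 h9 h12 z22 z25 z26 h28; omega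
    · clear * - m1 m2 m3 m4 m5 m6 m7 m8 m9 h2 h3 h4 h9 h12 z22 z25 z26 h29; omega
    · clear * - m1 m2 m3 m4 m5 m6 m7 m8 m9 h2 h3 h4 h9 h12 z22 z25 z26 h30; omega
  by_cases z27 : 0 < n 4
  · refine ⟨4, 9, by decide, by decide, by clear * - z22 z25 z26 z27; omega,
      fun n' hm => ?_⟩
    obtain ⟨m1, m2, m3, m4, m5, m6, m7, m8, m9⟩ := mv hm
    simp only [Fin.reduceEq, if_true, if_false] at m1 m2 m3 m4 m5 m6 m7 m8 m9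
    refine ⟨c1, c2, c3, c4, b1, b3, d1, d3 + 1, p1, p2, p3, p4, p5, q1, q2, q3, q4, q5 + 1,
      ?_, ?_, ?_, ?_, ?_, ?_, ?_, ?_, ?_, ?_, ?_, ?_, ?_, ?_, ?_, ?_, ?_, ?_, ?_, ?_, ?_, ?_, ?_, ?_, ?_, ?_, ?_, ?_, ?_, ?_⟩
    · clear * - m1 m2 m3 m4 m5 m6 m7 m8 m9 h2 h3 h4 h9 h12 z22 z25 z26 z27 h1; omega
    · clear * - m1 m2 m3 m4 m5 m6 m7 m8 m9 h2 h3 h4 h9 h12 z22 z25 z26 z27; omega
    · clear * - m1 m2 m3 m4 m5 m6 m7 m8 m9 h2 h3 h4 h9 h12 z22 z25 z26 z27; omega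
    · clear * - m1 m2 m3 m4 m5 m6 m7 m8 m9 h2 h3 h4 h9 h12 z22 z25 z26 z27; omega
    · clear * - m1 m2 m3 m4 m5 m6 m7 m8 m9 h2 h3 h4 h9 h12 z22 z25 z26 z27 h5; omega
    · clear * - m1 m2 m3 m4 m5 m6 m7 m8 m9 h2 h3 h4 h9 h12 z22 z25 z26 z27 h6; omega
    · clear * - m1 m2 m3 m4 m5 m6 m7 m8 m9 h2 h3 h4 h9 h12 z22 z25 z26 z27 h7; omega
    · clear * - m1 m2 m3 m4 m5 m6 m7 m8 m9 h2 h3 h4 h9 h12 z22 z25 z26 z27 h8; omega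
    · clear * - m1 m2 m3 m4 m5 m6 m7 m8 m9 h2 h3 h4 h9 h12 z22 z25 z26 z27; omega
    · clear * - m1 m2 m3 m4 m5 m6 m7 m8 m9 h2 h3 h4 h9 h12 z22 z25 z26 z27 h10; omega
    · clear * - m1 m2 m3 m4 m5 m6 m7 m8 m9 h2 h3 h4 h9 h12 z22 z25 z26 z27 h11; omega
    · clear * - m1 m2 m3 m4 m5 m6 m7 m8 m9 h2 h3 h4 h9 h12 z22 z25 z26 z27; omega
    · clear * - m1 m2 m3 m4 m5 m6 m7 m8 m9 h2 h3 h4 h9 h12 z22 z25 z26 z27 h13; omega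
    · clear * - m1 m2 m3 m4 m5 m6 m7 m8 m9 h2 h3 h4 h9 h12 z22 z25 z26 z27 h14; omega
    · clear * - m1 m2 m3 m4 m5 m6 m7 m8 m9 h2 h3 h4 h9 h12 z22 z25 z26 z27 h15; omega
    · clear * - m1 m2 m3 m4 m5 m6 m7 m8 m9 h2 h3 h4 h9 h12 z22 z25 z26 z27 h16; omega
    · clear * - m1 m2 m3 m4 m5 m6 m7 m8 m9 h2 h3 h4 h9 h12 z22 z25 z26 z27 h17; omega
    · clear * - m1 m2 m3 m4 m5 m6 m7 m8 m9 h2 h3 h4 h9 h12 z22 z25 z26 z27 h18; omega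
    · clear * - m1 m2 m3 m4 m5 m6 m7 m8 m9 h2 h3 h4 h9 h12 z22 z25 z26 z27 h19; omega
    · clear * - m1 m2 m3 m4 m5 m6 m7 m8 m9 h2 h3 h4 h9 h12 z22 z25 z26 z27 h20; omega
    · clear * - m1 m2 m3 m4 m5 m6 m7 m8 m9 h2 h3 h4 h9 h12 z22 z25 z26 z27 h21; omega
    · clear * - m1 m2 m3 m4 m5 m6 m7 m8 m9 h2 h3 h4 h9 h12 z22 z25 z26 z27 h22; omega
    · clear * - m1 m2 m3 m4 m5 m6 m7 m8 m9 h2 h3 h4 h9 h12 z22 z25 z26 z27 h23; omega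
    · clear * - m1 m2 m3 m4 m5 m6 m7 m8 m9 h2 h3 h4 h9 h12 z22 z25 z26 z27 h24; omega
    · clear * - m1 m2 m3 m4 m5 m6 m7 m8 m9 h2 h3 h4 h9 h12 z22 z25 z26 z27 h25; omega
    · clear * - m1 m2 m3 m4 m5 m6 m7 m8 m9 h2 h3 h4 h9 h12 z22 z25 z26 z27 h26; omega
    · clear * - m1 m2 m3 m4 m5 m6 m7 m8 m9 h2 h3 h4 h9 h12 z22 z25 z26 z27 h27; omega
    · clear * - m1 m2 m3 m4 m5 m6 m7 m8 m9 h2 h3 h4 h9 h12 z22 z25 z26 z27 h28; omega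
    · clear * - m1 m2 m3 m4 m5 m6 m7 m8 m9 h2 h3 h4 h9 h12 z22 z25 z26 z27 h29; omega
    · clear * - m1 m2 m3 m4 m5 m6 m7 m8 m9 h2 h3 h4 h9 h12 z22 z25 z26 z27 h30 h6 h7 h15 h17 h24; omega
  refine ⟨0, 8, by decide, by decide, by clear * - z22 z25 z26 z27; omega,
    fun n' hm => ?_⟩
  obtain ⟨m1, m2, m3, m4, m5, m6, m7, m8, m9⟩ := mv hm
  simp only [Fin.reduceEq, if_true, if_false] at m1 m2 m3 m4 m5 m6 m7 m8 m9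
  refine ⟨c1, c2, c3, c4, b1, b3, d1, d3 + 1, p1, p2, p3, p4, p5, q1, q2, q3, q4, q5,
    ?_, ?_, ?_, ?_, ?_, ?_, ?_, ?_, ?_, ?_, ?_, ?_, ?_, ?_, ?_, ?_, ?_, ?_, ?_, ?_, ?_, ?_, ?_, ?_, ?_, ?_, ?_, ?_, ?_, ?_⟩
  · clear * - m1 m2 m3 m4 m5 m6 m7 m8 m9 h2 h3 h4 h9 h12 z22 z25 z26 z27 h1; omega
  · clear * - m1 m2 m3 m4 m5 m6 m7 m8 m9 h2 h3 h4 h9 h12 z22 z25 z26 z27; omega
  · clear * - m1 m2 m3 m4 m5 m6 m7 m8 m9 h2 h3 h4 h9 h12 z22 z25 z26 z27; omega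
  · clear * - m1 m2 m3 m4 m5 m6 m7 m8 m9 h2 h3 h4 h9 h12 z22 z25 z26 z27; omega
  · clear * - m1 m2 m3 m4 m5 m6 m7 m8 m9 h2 h3 h4 h9 h12 z22 z25 z26 z27 h5; omega
  · clear * - m1 m2 m3 m4 m5 m6 m7 m8 m9 h2 h3 h4 h9 h12 z22 z25 z26 z27 h6; omega
  · clear * - m1 m2 m3 m4 m5 m6 m7 m8 m9 h2 h3 h4 h9 h12 z22 z25 z26 z27 h7; omega
  · clear * - m1 m2 m3 m4 m5 m6 m7 m8 m9 h2 h3 h4 h9 h12 z22 z25 z26 z27 h8; omega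
  · clear * - m1 m2 m3 m4 m5 m6 m7 m8 m9 h2 h3 h4 h9 h12 z22 z25 z26 z27; omega
  · clear * - m1 m2 m3 m4 m5 m6 m7 m8 m9 h2 h3 h4 h9 h12 z22 z25 z26 z27 h10; omega
  · clear * - m1 m2 m3 m4 m5 m6 m7 m8 m9 h2 h3 h4 h9 h12 z22 z25 z26 z27 h11; omega
  · clear * - m1 m2 m3 m4 m5 m6 m7 m8 m9 h2 h3 h4 h9 h12 z22 z25 z26 z27; omega
  · clear * - m1 m2 m3 m4 m5 m6 m7 m8 m9 h2 h3 h4 h9 h12 z22 z25 z26 z27 h13; omega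
  · clear * - m1 m2 m3 m4 m5 m6 m7 m8 m9 h2 h3 h4 h9 h12 z22 z25 z26 z27 h14; omega
  · clear * - m1 m2 m3 m4 m5 m6 m7 m8 m9 h2 h3 h4 h9 h12 z22 z25 z26 z27 h15; omega
  · clear * - m1 m2 m3 m4 m5 m6 m7 m8 m9 h2 h3 h4 h9 h12 z22 z25 z26 z27 h16; omega
  · clear * - m1 m2 m3 m4 m5 m6 m7 m8 m9 h2 h3 h4 h9 h12 z22 z25 z26 z27 h17; omega
  · clear * - m1 m2 m3 m4 m5 m6 m7 m8 m9 h2 h3 h4 h9 h12 z22 z25 z26 z27 h18; omega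
  · clear * - m1 m2 m3 m4 m5 m6 m7 m8 m9 h2 h3 h4 h9 h12 z22 z25 z26 z27 h19; omega
  · clear * - m1 m2 m3 m4 m5 m6 m7 m8 m9 h2 h3 h4 h9 h12 z22 z25 z26 z27 h20; omega
  · clear * - m1 m2 m3 m4 m5 m6 m7 m8 m9 h2 h3 h4 h9 h12 z22 z25 z26 z27 h21; omega
  · clear * - m1 m2 m3 m4 m5 m6 m7 m8 m9 h2 h3 h4 h9 h12 z22 z25 z26 z27 h22; omega
  · clear * - m1 m2 m3 m4 m5 m6 m7 m8 m9 h2 h3 h4 h9 h12 z22 z25 z26 z27 h23; omega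
  · clear * - m1 m2 m3 m4 m5 m6 m7 m8 m9 h2 h3 h4 h9 h12 z22 z25 z26 z27 h24; omega
  · clear * - m1 m2 m3 m4 m5 m6 m7 m8 m9 h2 h3 h4 h9 h12 z22 z25 z26 z27 h25; omega
  · clear * - m1 m2 m3 m4 m5 m6 m7 m8 m9 h2 h3 h4 h9 h12 z22 z25 z26 z27 h26; omega
  · clear * - m1 m2 m3 m4 m5 m6 m7 m8 m9 h2 h3 h4 h9 h12 z22 z25 z26 z27 h27; omega
  · clear * - m1 m2 m3 m4 m5 m6 m7 m8 m9 h2 h3 h4 h9 h12 z22 z25 z26 z27 h28; omega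
  · clear * - m1 m2 m3 m4 m5 m6 m7 m8 m9 h2 h3 h4 h9 h12 z22 z25 z26 z27 h29; omega
  · clear * - m1 m2 m3 m4 m5 m6 m7 m8 m9 h2 h3 h4 h9 h12 z22 z25 z26 z27 h30; omega

theorem stepE {k xa xb xc xd xe : ℕ} {n : Fin 10 → ℕ} (h : GI k xa xb xc xd xe n) :
    ∃ t t' : Fin 10, Tr 2 t t' ∧ t' ≠ 0 ∧ (t.val = 0 ∨ 0 < n t) ∧
      ∀ n', Mv n n' t t' → GI k xa xb xc xd (xe + 1) n' := by
  obtain ⟨c1, c2, c3, c4, b1, b3, d1, d3, p1, p2, p3, p4, p5, q1, q2, q3, q4, q5,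
    h1, h2, h3, h4, h5, h6, h7, h8, h9, h10, h11, h12, h13, h14, h15, h16, h17, h18, h19, h20, h21, h22, h23, h24, h25, h26, h27, h28, h29, h30⟩ := h
  by_cases z28 : 0 < n 7
  · refine ⟨7, 9, by decide, by decide, by clear * - z28; omega,
      fun n' hm => ?_⟩
    obtain ⟨m1, m2, m3, m4, m5, m6, m7, m8, m9⟩ := mv hm
    simp only [Fin.reduceEq, if_true, if_false] at m1 m2 m3 m4 m5 m6 m7 m8 m9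
    refine ⟨c1, c2, c3, c4, b1, b3, d1, d3, p1, p2, p3, p4, p5, q1 + 1, q2, q3, q4, q5,
      ?_, ?_, ?_, ?_, ?_, ?_, ?_, ?_, ?_, ?_, ?_, ?_, ?_, ?_, ?_, ?_, ?_, ?_, ?_, ?_, ?_, ?_, ?_, ?_, ?_, ?_, ?_, ?_, ?_, ?_⟩
    · clear * - m1 m2 m3 m4 m5 m6 m7 m8 m9 h2 h3 h4 h9 h12 z28 h1; omega
    · clear * - m1 m2 m3 m4 m5 m6 m7 m8 m9 h2 h3 h4 h9 h12 z28; omega
    · clear * - m1 m2 m3 m4 m5 m6 m7 m8 m9 h2 h3 h4 h9 h12 z28; omega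
    · clear * - m1 m2 m3 m4 m5 m6 m7 m8 m9 h2 h3 h4 h9 h12 z28; omega
    · clear * - m1 m2 m3 m4 m5 m6 m7 m8 m9 h2 h3 h4 h9 h12 z28 h5; omega
    · clear * - m1 m2 m3 m4 m5 m6 m7 m8 m9 h2 h3 h4 h9 h12 z28 h6; omega
    · clear * - m1 m2 m3 m4 m5 m6 m7 m8 m9 h2 h3 h4 h9 h12 z28 h7; omega
    · clear * - m1 m2 m3 m4 m5 m6 m7 m8 m9 h2 h3 h4 h9 h12 z28 h8; omega
    · clear * - m1 m2 m3 m4 m5 m6 m7 m8 m9 h2 h3 h4 h9 h12 z28; omega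
    · clear * - m1 m2 m3 m4 m5 m6 m7 m8 m9 h2 h3 h4 h9 h12 z28 h10; omega
    · clear * - m1 m2 m3 m4 m5 m6 m7 m8 m9 h2 h3 h4 h9 h12 z28 h11; omega
    · clear * - m1 m2 m3 m4 m5 m6 m7 m8 m9 h2 h3 h4 h9 h12 z28; omega
    · clear * - m1 m2 m3 m4 m5 m6 m7 m8 m9 h2 h3 h4 h9 h12 z28 h13; omega
    · clear * - m1 m2 m3 m4 m5 m6 m7 m8 m9 h2 h3 h4 h9 h12 z28 h14; omega
    · clear * - m1 m2 m3 m4 m5 m6 m7 m8 m9 h2 h3 h4 h9 h12 z28 h15; omega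
    · clear * - m1 m2 m3 m4 m5 m6 m7 m8 m9 h2 h3 h4 h9 h12 z28 h16; omega
    · clear * - m1 m2 m3 m4 m5 m6 m7 m8 m9 h2 h3 h4 h9 h12 z28 h17; omega
    · clear * - m1 m2 m3 m4 m5 m6 m7 m8 m9 h2 h3 h4 h9 h12 z28 h18; omega
    · clear * - m1 m2 m3 m4 m5 m6 m7 m8 m9 h2 h3 h4 h9 h12 z28 h19; omega
    · clear * - m1 m2 m3 m4 m5 m6 m7 m8 m9 h2 h3 h4 h9 h12 z28 h20; omega
    · clear * - m1 m2 m3 m4 m5 m6 m7 m8 m9 h2 h3 h4 h9 h12 z28 h21; omega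
    · clear * - m1 m2 m3 m4 m5 m6 m7 m8 m9 h2 h3 h4 h9 h12 z28 h22; omega
    · clear * - m1 m2 m3 m4 m5 m6 m7 m8 m9 h2 h3 h4 h9 h12 z28 h23; omega
    · clear * - m1 m2 m3 m4 m5 m6 m7 m8 m9 h2 h3 h4 h9 h12 z28 h24; omega
    · clear * - m1 m2 m3 m4 m5 m6 m7 m8 m9 h2 h3 h4 h9 h12 z28 h25; omega
    · clear * - m1 m2 m3 m4 m5 m6 m7 m8 m9 h2 h3 h4 h9 h12 z28 h26; omega
    · clear * - m1 m2 m3 m4 m5 m6 m7 m8 m9 h2 h3 h4 h9 h12 z28 h27; omega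
    · clear * - m1 m2 m3 m4 m5 m6 m7 m8 m9 h2 h3 h4 h9 h12 z28 h28; omega
    · clear * - m1 m2 m3 m4 m5 m6 m7 m8 m9 h2 h3 h4 h9 h12 z28 h29; omega
    · clear * - m1 m2 m3 m4 m5 m6 m7 m8 m9 h2 h3 h4 h9 h12 z28 h30; omega
  by_cases z29 : 0 < n 8
  · refine ⟨8, 9, by decide, by decide, by clear * - z28 z29; omega,
      fun n' hm => ?_⟩
    obtain ⟨m1, m2, m3, m4, m5, m6, m7, m8, m9⟩ := mv hm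
    simp only [Fin.reduceEq, if_true, if_false] at m1 m2 m3 m4 m5 m6 m7 m8 m9
    refine ⟨c1, c2, c3, c4, b1, b3, d1, d3, p1, p2, p3, p4, p5, q1, q2 + 1, q3, q4, q5,
      ?_, ?_, ?_, ?_, ?_, ?_, ?_, ?_, ?_, ?_, ?_, ?_, ?_, ?_, ?_, ?_, ?_, ?_, ?_, ?_, ?_, ?_, ?_, ?_, ?_, ?_, ?_, ?_, ?_, ?_⟩
    · clear * - m1 m2 m3 m4 m5 m6 m7 m8 m9 h2 h3 h4 h9 h12 z28 z29 h1; omega
    · clear * - m1 m2 m3 m4 m5 m6 m7 m8 m9 h2 h3 h4 h9 h12 z28 z29; omega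
    · clear * - m1 m2 m3 m4 m5 m6 m7 m8 m9 h2 h3 h4 h9 h12 z28 z29; omega
    · clear * - m1 m2 m3 m4 m5 m6 m7 m8 m9 h2 h3 h4 h9 h12 z28 z29; omega
    · clear * - m1 m2 m3 m4 m5 m6 m7 m8 m9 h2 h3 h4 h9 h12 z28 z29 h5; omega
    · clear * - m1 m2 m3 m4 m5 m6 m7 m8 m9 h2 h3 h4 h9 h12 z28 z29 h6; omega
    · clear * - m1 m2 m3 m4 m5 m6 m7 m8 m9 h2 h3 h4 h9 h12 z28 z29 h7; omega
    · clear * - m1 m2 m3 m4 m5 m6 m7 m8 m9 h2 h3 h4 h9 h12 z28 z29 h8; omega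
    · clear * - m1 m2 m3 m4 m5 m6 m7 m8 m9 h2 h3 h4 h9 h12 z28 z29; omega
    · clear * - m1 m2 m3 m4 m5 m6 m7 m8 m9 h2 h3 h4 h9 h12 z28 z29 h10; omega
    · clear * - m1 m2 m3 m4 m5 m6 m7 m8 m9 h2 h3 h4 h9 h12 z28 z29 h11; omega
    · clear * - m1 m2 m3 m4 m5 m6 m7 m8 m9 h2 h3 h4 h9 h12 z28 z29; omega
    · clear * - m1 m2 m3 m4 m5 m6 m7 m8 m9 h2 h3 h4 h9 h12 z28 z29 h13; omega
    · clear * - m1 m2 m3 m4 m5 m6 m7 m8 m9 h2 h3 h4 h9 h12 z28 z29 h14; omega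
    · clear * - m1 m2 m3 m4 m5 m6 m7 m8 m9 h2 h3 h4 h9 h12 z28 z29 h15; omega
    · clear * - m1 m2 m3 m4 m5 m6 m7 m8 m9 h2 h3 h4 h9 h12 z28 z29 h16; omega
    · clear * - m1 m2 m3 m4 m5 m6 m7 m8 m9 h2 h3 h4 h9 h12 z28 z29 h17; omega
    · clear * - m1 m2 m3 m4 m5 m6 m7 m8 m9 h2 h3 h4 h9 h12 z28 z29 h18; omega
    · clear * - m1 m2 m3 m4 m5 m6 m7 m8 m9 h2 h3 h4 h9 h12 z28 z29 h19; omega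
    · clear * - m1 m2 m3 m4 m5 m6 m7 m8 m9 h2 h3 h4 h9 h12 z28 z29 h20; omega
    · clear * - m1 m2 m3 m4 m5 m6 m7 m8 m9 h2 h3 h4 h9 h12 z28 z29 h21; omega
    · clear * - m1 m2 m3 m4 m5 m6 m7 m8 m9 h2 h3 h4 h9 h12 z28 z29 h22; omega
    · clear * - m1 m2 m3 m4 m5 m6 m7 m8 m9 h2 h3 h4 h9 h12 z28 z29 h23; omega
    · clear * - m1 m2 m3 m4 m5 m6 m7 m8 m9 h2 h3 h4 h9 h12 z28 z29 h24; omega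
    · clear * - m1 m2 m3 m4 m5 m6 m7 m8 m9 h2 h3 h4 h9 h12 z28 z29 h25; omega
    · clear * - m1 m2 m3 m4 m5 m6 m7 m8 m9 h2 h3 h4 h9 h12 z28 z29 h26; omega
    · clear * - m1 m2 m3 m4 m5 m6 m7 m8 m9 h2 h3 h4 h9 h12 z28 z29 h27; omega
    · clear * - m1 m2 m3 m4 m5 m6 m7 m8 m9 h2 h3 h4 h9 h12 z28 z29 h28; omega
    · clear * - m1 m2 m3 m4 m5 m6 m7 m8 m9 h2 h3 h4 h9 h12 z28 z29 h29; omega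
    · clear * - m1 m2 m3 m4 m5 m6 m7 m8 m9 h2 h3 h4 h9 h12 z28 z29 h30; omega
  refine ⟨0, 2, by decide, by decide, by clear * - z28 z29; omega,
    fun n' hm => ?_⟩
  obtain ⟨m1, m2, m3, m4, m5, m6, m7, m8, m9⟩ := mv hm
  simp only [Fin.reduceEq, if_true, if_false] at m1 m2 m3 m4 m5 m6 m7 m8 m9
  refine ⟨c1, c2, c3, c4, b1, b3, d1, d3, p1, p2, p3, p4, p5, q1, q2, q3, q4, q5,
    ?_, ?_, ?_, ?_, ?_, ?_, ?_, ?_, ?_, ?_, ?_, ?_, ?_, ?_, ?_, ?_, ?_, ?_, ?_, ?_, ?_, ?_, ?_, ?_, ?_, ?_, ?_, ?_, ?_, ?_⟩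
  · clear * - m1 m2 m3 m4 m5 m6 m7 m8 m9 h2 h3 h4 h9 h12 z28 z29 h1; omega
  · clear * - m1 m2 m3 m4 m5 m6 m7 m8 m9 h2 h3 h4 h9 h12 z28 z29; omega
  · clear * - m1 m2 m3 m4 m5 m6 m7 m8 m9 h2 h3 h4 h9 h12 z28 z29; omega
  · clear * - m1 m2 m3 m4 m5 m6 m7 m8 m9 h2 h3 h4 h9 h12 z28 z29; omega
  · clear * - m1 m2 m3 m4 m5 m6 m7 m8 m9 h2 h3 h4 h9 h12 z28 z29 h5; omega
  · clear * - m1 m2 m3 m4 m5 m6 m7 m8 m9 h2 h3 h4 h9 h12 z28 z29 h6; omega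
  · clear * - m1 m2 m3 m4 m5 m6 m7 m8 m9 h2 h3 h4 h9 h12 z28 z29 h7; omega
  · clear * - m1 m2 m3 m4 m5 m6 m7 m8 m9 h2 h3 h4 h9 h12 z28 z29 h8; omega
  · clear * - m1 m2 m3 m4 m5 m6 m7 m8 m9 h2 h3 h4 h9 h12 z28 z29; omega
  · clear * - m1 m2 m3 m4 m5 m6 m7 m8 m9 h2 h3 h4 h9 h12 z28 z29 h10; omega
  · clear * - m1 m2 m3 m4 m5 m6 m7 m8 m9 h2 h3 h4 h9 h12 z28 z29 h11; omega
  · clear * - m1 m2 m3 m4 m5 m6 m7 m8 m9 h2 h3 h4 h9 h12 z28 z29; omega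
  · clear * - m1 m2 m3 m4 m5 m6 m7 m8 m9 h2 h3 h4 h9 h12 z28 z29 h13; omega
  · clear * - m1 m2 m3 m4 m5 m6 m7 m8 m9 h2 h3 h4 h9 h12 z28 z29 h14; omega
  · clear * - m1 m2 m3 m4 m5 m6 m7 m8 m9 h2 h3 h4 h9 h12 z28 z29 h15; omega
  · clear * - m1 m2 m3 m4 m5 m6 m7 m8 m9 h2 h3 h4 h9 h12 z28 z29 h16; omega
  · clear * - m1 m2 m3 m4 m5 m6 m7 m8 m9 h2 h3 h4 h9 h12 z28 z29 h17; omega
  · clear * - m1 m2 m3 m4 m5 m6 m7 m8 m9 h2 h3 h4 h9 h12 z28 z29 h18; omega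
  · clear * - m1 m2 m3 m4 m5 m6 m7 m8 m9 h2 h3 h4 h9 h12 z28 z29 h19; omega
  · clear * - m1 m2 m3 m4 m5 m6 m7 m8 m9 h2 h3 h4 h9 h12 z28 z29 h20; omega
  · clear * - m1 m2 m3 m4 m5 m6 m7 m8 m9 h2 h3 h4 h9 h12 z28 z29 h21; omega
  · clear * - m1 m2 m3 m4 m5 m6 m7 m8 m9 h2 h3 h4 h9 h12 z28 z29 h22; omega
  · clear * - m1 m2 m3 m4 m5 m6 m7 m8 m9 h2 h3 h4 h9 h12 z28 z29 h23; omega
  · clear * - m1 m2 m3 m4 m5 m6 m7 m8 m9 h2 h3 h4 h9 h12 z28 z29 h24; omega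
  · clear * - m1 m2 m3 m4 m5 m6 m7 m8 m9 h2 h3 h4 h9 h12 z28 z29 h25; omega
  · clear * - m1 m2 m3 m4 m5 m6 m7 m8 m9 h2 h3 h4 h9 h12 z28 z29 h26; omega
  · clear * - m1 m2 m3 m4 m5 m6 m7 m8 m9 h2 h3 h4 h9 h12 z28 z29 h27; omega
  · clear * - m1 m2 m3 m4 m5 m6 m7 m8 m9 h2 h3 h4 h9 h12 z28 z29 h28; omega
  · clear * - m1 m2 m3 m4 m5 m6 m7 m8 m9 h2 h3 h4 h9 h12 z28 z29 h29; omega
  · clear * - m1 m2 m3 m4 m5 m6 m7 m8 m9 h2 h3 h4 h9 h12 z28 z29 h30; omega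

end Pool.Agent.H2.TokArith
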